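import Pool.Agent.H242.TM.Isl

set_option autoImplicit false

/-!
# Prescribed itineraries
-/

namespace Pool.Agent.H242.TM

open Real Set Metric Filter Topology MeasureTheory
open Pool.Agent.TH705.SM (T2 S Si)

/-- the path `F^n ∘ γ` crosses the unit square with centre `(u, v)` horizontally on `[s, t]` -/
def Cell (a : ℝ) (γ : ℝ → ℝ × ℝ) (n : ℕ) (s t v u : ℝ) : Prop :=
  Cross (fun τ => ((F a)^[n] (γ τ)).1) s t (u - 1 / 2) (u + 1 / 2) ∧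
    ∀ τ ∈ Icc s t, |((F a)^[n] (γ τ)).2 - v| ≤ 1 / 2

theorem cell_step {a : ℝ} {γ : ℝ → ℝ × ℝ} (hγ : Continuous γ) {n : ℕ} {s t v u u' : ℝ}
    (h : Cell a γ n s t v u) (hj : |u' - 2 * u + v| ≤ |a| - 2) :
    ∃ s' t', s ≤ s' ∧ t' ≤ t ∧ Cell a γ (n + 1) s' t' u u' := by
  obtain ⟨hC, hh⟩ := h
  have hc : ∀ m : ℕ, Continuous (fun τ => ((F a)^[m] (γ τ)).1) := fun m =>
    (((F_cont a).iterate m).comp hγ).fst
  obtain ⟨⟨x, hx, hx1⟩, ⟨y, hy, hy1⟩⟩ := exists_crit a (u - 1 / 2)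
  have e0 : u - 1 / 2 + 1 = u + 1 / 2 := by ring
  rw [e0] at hx hy
  obtain ⟨τ, hτ, hτx⟩ := hC.surj (hc n) hx
  obtain ⟨σ, hσ, hσy⟩ := hC.surj (hc n) hy
  have hj' := abs_le.1 hj
  have h1 : ((F a)^[n + 1] (γ τ)).1 ≥ 2 * u - 1 + |a| - v - 1 / 2 := by
    rw [iter_fst']
    have e1 : ((F a)^[n] (γ τ)).1 = x := hτx
    rw [e1]
    unfold phi
    rw [hx1]
    linarith [(abs_le.1 (hh τ hτ)).2, hx.1]
  have h2 : ((F a)^[n + 1] (γ σ)).1 ≤ 2 * u + 1 - |a| - v + 1 / 2 := by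
    rw [iter_fst']
    have e1 : ((F a)^[n] (γ σ)).1 = y := hσy
    rw [e1]
    unfold phi
    rw [hy1]
    linarith [(abs_le.1 (hh σ hσ)).1, hy.2]
  obtain ⟨s', t', h3, h4, h5⟩ := cross_sub (hc (n + 1)) (u := σ) (v := τ) (lo := u' - 1 / 2)
    (hi := u' + 1 / 2) (by linarith) (by linarith) (by linarith)
  refine ⟨s', t', (le_min hσ.1 hτ.1).trans h3, h4.trans (max_le hσ.2 hτ.2), h5, ?_⟩
  intro ρ hρ
  rw [iter_snd]
  have h6 := hC.2.2 ρ ⟨(le_min hσ.1 hτ.1).trans (h3.trans hρ.1),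
    hρ.2.trans (h4.trans (max_le hσ.2 hτ.2))⟩
  rw [abs_le]
  constructor <;> linarith [h6.1, h6.2]

theorem Cell.near {a : ℝ} {γ : ℝ → ℝ × ℝ} {n : ℕ} {s t v u : ℝ} (h : Cell a γ n s t v u)
    {τ : ℝ} (hτ : τ ∈ Icc s t) : |((F a)^[n] (γ τ)).1 - u| ≤ 1 / 2 := by
  have h6 : u - 1 / 2 ≤ ((F a)^[n] (γ τ)).1 ∧ ((F a)^[n] (γ τ)).1 ≤ u + 1 / 2 := h.1.2.2 τ hτ
  rw [abs_le]
  constructor <;> linarith [h6.1, h6.2]

/-- finitely many steps -/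
theorem cell_steps {a : ℝ} {γ : ℝ → ℝ × ℝ} (hγ : Continuous γ) {n : ℕ} {s t v : ℝ}
    {j : ℕ → ℝ} (h : Cell a γ n s t v (j 0)) (h0 : |j 1 - 2 * j 0 + v| ≤ |a| - 2)
    (K : ℕ) (hj : ∀ k, k + 2 ≤ K → |j (k + 2) - 2 * j (k + 1) + j k| ≤ |a| - 2) :
    ∃ s' t' v', s ≤ s' ∧ t' ≤ t ∧ Cell a γ (n + K) s' t' v' (j K) ∧
      (∀ k, K = k + 1 → v' = j k) ∧ (K = 0 → v' = v) ∧
      ∀ τ ∈ Icc s' t', ∀ k ≤ K, |((F a)^[n + k] (γ τ)).1 - j k| ≤ 1 / 2 := by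
  induction K with
  | zero =>
    refine ⟨s, t, v, le_rfl, le_rfl, h, fun k hk => by omega, fun _ => rfl, ?_⟩
    intro τ hτ k hk
    have : k = 0 := by omega
    subst this
    exact h.near hτ
  | succ K ih =>
    obtain ⟨s', t', v', h1, h2, h3, h4, h5, h6⟩ := ih (fun k hk => hj k (by omega))
    have h7 : |j (K + 1) - 2 * j K + v'| ≤ |a| - 2 := by
      rcases K with _ | K
      · rw [h5 rfl]; exact h0
      · rw [h4 K rfl]; exact hj K (by omega)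
    obtain ⟨s'', t'', h8, h9, h10⟩ := cell_step hγ h3 h7
    refine ⟨s'', t'', j K, h1.trans h8, h9.trans h2, h10, ?_, fun h => by omega, ?_⟩
    · intro k hk
      have : k = K := by omega
      rw [this]
    · intro τ hτ k hk
      rcases Nat.lt_or_ge K k with h | h
      · have : k = K + 1 := by omega
        subst this
        exact h10.near hτ
      · exact h6 τ ⟨h8.trans hτ.1, hτ.2.trans h9⟩ k h

/-- the set `A` contains a path which crosses a cell at time zero -/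
def HasCell (A : Set T2) : Prop := ∃ (γ : ℝ → ℝ × ℝ) (s t : ℝ) (i j : ℤ), Continuous γ ∧
  Cross (fun τ => (γ τ).1) s t j (j + 1) ∧
  (∀ τ ∈ Icc s t, (i : ℝ) ≤ (γ τ).2 ∧ (γ τ).2 ≤ i + 1) ∧ ∀ τ ∈ Icc s t, pr (γ τ) ∈ A

theorem cell_of_two {a : ℝ} (ha : 5 / 2 ≤ |a|) {A : Set T2} (hA : Two A) :
    HasCell (S a '' A) := by
  obtain ⟨γ, s, t, u, hγ, hC, hh, hA⟩ := hA
  set l : ℤ := ⌈u⌉ with hl
  have hl1 : u ≤ l := Int.le_ceil _
  have hl2 : (l : ℝ) < u + 1 := Int.ceil_lt_add_one _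
  obtain ⟨s₁, t₁, hs₁, ht₁, hC₁⟩ := hC.sub hγ.fst (lo' := l) (hi' := l + 1) hl1
    (by linarith) (by linarith)
  have hsub : ∀ τ ∈ Icc s₁ t₁, τ ∈ Icc s t := fun τ hτ => ⟨hs₁.trans hτ.1, hτ.2.trans ht₁⟩
  obtain ⟨γ', s', t', u', h4, h5, h6, h7⟩ := gen_image a hγ hC₁
    (fun τ hτ σ hσ => hh τ (hsub τ hτ) σ (hsub σ hσ)) (fun τ hτ => hA τ (hsub τ hτ))
    (phi_osc3 a le_rfl) (e' := 2) (by norm_num) (by linarith)
  set k : ℤ := ⌈u'⌉ with hk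
  have hk1 : u' ≤ k := Int.le_ceil _
  have hk2 : (k : ℝ) < u' + 1 := Int.ceil_lt_add_one _
  obtain ⟨s₂, t₂, hs₂, ht₂, hC₂⟩ := h5.sub h4.fst (lo' := k) (hi' := k + 1) hk1
    (by linarith) (by linarith)
  have hsub2 : ∀ τ ∈ Icc s₂ t₂, τ ∈ Icc s' t' := fun τ hτ => ⟨hs₂.trans hτ.1, hτ.2.trans ht₂⟩
  exact ⟨γ', s₂, t₂, l, k, h4, hC₂, fun τ hτ => h6 τ (hsub2 τ hτ), fun τ hτ => h7 τ (hsub2 τ hτ)⟩

theorem one_of_cell {A : Set T2} (h : HasCell A) : FwdE 1 A := by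
  obtain ⟨γ, s, t, i, j, h1, h2, h3, h4⟩ := h
  exact ⟨γ, s, t, j, h1, h2, fun τ hτ σ hσ => abs_sub_le_of_mem (h3 τ hτ) (h3 σ hσ), h4⟩

/-- an open set which meets `X` or is not small contains, after some time, a path which crosses
a cell -/
theorem cell_of_fwd {a : ℝ} (ha : 5 / 2 ≤ |a|) {e : ℝ} {A : Set T2} (he : e ≤ 1)
    (h0 : 3 / (4 * |a|) < e) (hA : FwdE e A) : ∃ N, HasCell ((S a)^[N] '' A) := by
  have ha0 : 0 < |a| := by linarith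
  rw [div_lt_iff₀ (by positivity)] at h0
  set δ := |a| * e - 3 / 4 with hδ
  have hδ0 : 0 < δ := by rw [hδ]; linarith
  have hψ : ∀ n : ℕ, (3 / 4 + 4 ^ (n + 1) * δ : ℝ) ≤
      4 * (3 / 4 + 4 ^ n * δ) ^ 2 - 2 * (3 / 4 + 4 ^ n * δ) := by
    intro n
    have : (0:ℝ) < 4 ^ n * δ := by positivity
    rw [pow_succ]
    nlinarith
  have hψ1 : ∀ n : ℕ, (3 / 4 : ℝ) ≤ 3 / 4 + 4 ^ n * δ := fun n => by
    have : (0:ℝ) < 4 ^ n * δ := by positivity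
    linarith
  obtain ⟨m, hm⟩ := pow_unbounded_of_one_lt (|a| / δ) (show (1:ℝ) < 4 by norm_num)
  have h1 : FwdE 1 ((S a)^[m] '' A) := by
    refine reach_one ha hψ hψ1 he (by rw [pow_zero, one_mul, hδ]; linarith) hA (n := m) ?_
    rw [div_lt_iff₀ hδ0] at hm
    linarith
  refine ⟨m + 2, ?_⟩
  rw [show m + 2 = (m + 1) + 1 from rfl, image_succ, image_succ]
  exact cell_of_two ha (step3 ha h1)

theorem cell_open {a : ℝ} (ha : 5 ≤ |a|) {A : Set T2} (hA : IsOpen A)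
    (h : (A ∩ closure (Ws a)).Nonempty) : ∃ N, HasCell ((S a)^[N] '' A) := by
  have h' : (A ∩ Ws a).Nonempty := by
    obtain ⟨x, hx, hx2⟩ := h
    exact _root_.mem_closure_iff.1 hx2 A hA hx
  obtain ⟨n, hn⟩ := open_fwd ha hA h'
  obtain ⟨N, hN⟩ := cell_of_fwd (by linarith) (by norm_num) (const_lt ha) hn
  refine ⟨N + n, ?_⟩
  rw [image_add]
  exact hN

/-- the linear part acts transitively on the lattice -/
theorem F_int_surj (a : ℝ) (N : ℕ) (k' l' : ℤ) : ∃ k l : ℤ, ∀ p,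
    (F a)^[N] (p + ((k : ℝ), (l : ℝ))) = (F a)^[N] p + ((k' : ℝ), (l' : ℝ)) := by
  induction N generalizing k' l' with
  | zero => exact ⟨k', l', fun p => rfl⟩
  | succ N ih =>
    obtain ⟨k, l, h⟩ := ih l' (2 * l' - k')
    refine ⟨k, l, fun p => ?_⟩
    rw [Function.iterate_succ_apply', h, F_int, Function.iterate_succ_apply']
    congr 1
    push_cast
    ext
    · simp only; ring
    · simp only

theorem F_surj (a : ℝ) : Function.Surjective (F a) := fun p =>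
  ⟨Prod.swap (F a (Prod.swap p)), F_swap a p⟩

/-- the inverse map of the plane -/
noncomputable def Fi (a : ℝ) (p : ℝ × ℝ) : ℝ × ℝ := Prod.swap (F a (Prod.swap p))

theorem F_Fi (a : ℝ) (p : ℝ × ℝ) : F a (Fi a p) = p := F_swap a p

theorem Fi_cont (a : ℝ) : Continuous (Fi a) :=
  continuous_swap.comp ((F_cont a).comp continuous_swap)

theorem F_iter_Fi (a : ℝ) (n : ℕ) (p : ℝ × ℝ) : (F a)^[n] ((Fi a)^[n] p) = p :=
  Function.RightInverse.iterate (F_Fi a) n p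

/-- lifting a path in the image of `A` to a path in `A` -/
theorem lift_cell {a : ℝ} {A : Set T2} {N : ℕ} (h : HasCell ((S a)^[N] '' A)) (i' j' : ℤ) :
    ∃ (γ : ℝ → ℝ × ℝ) (s t : ℝ), Continuous γ ∧ Cell a γ N s t (i' + 1 / 2) (j' + 1 / 2) ∧
      ∀ τ ∈ Icc s t, pr (γ τ) ∈ A := by
  obtain ⟨γ, s, t, i, j, h1, h2, h3, h4⟩ := h
  obtain ⟨k, l, hkl⟩ := F_int_surj a N (j' - j) (i' - i)
  refine ⟨fun τ => (Fi a)^[N] (γ τ) + ((k : ℝ), (l : ℝ)), s, t,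
    (((Fi_cont a).iterate N).comp h1).add continuous_const, ⟨⟨h2.1, ?_, ?_⟩, ?_⟩, ?_⟩
  · simp only [hkl, F_iter_Fi, Prod.fst_add]
    push_cast
    rcases h2.2.1 with ⟨h5, h6⟩ | ⟨h5, h6⟩
    · left; constructor <;> linarith
    · right; constructor <;> linarith
  · intro τ hτ
    simp only [hkl, F_iter_Fi, Prod.fst_add]
    have := h2.2.2 τ hτ
    push_cast
    constructor <;> linarith [this.1, this.2]
  · intro τ hτ
    simp only [hkl, F_iter_Fi, Prod.snd_add]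
    have := h3 τ hτ
    push_cast
    rw [abs_le]
    constructor <;> linarith [this.1, this.2]
  · intro τ hτ
    rw [pr_add_int]
    obtain ⟨x, hx, hx2⟩ := h4 τ hτ
    have h5 : pr (γ τ) = (S a)^[N] (pr ((Fi a)^[N] (γ τ))) := by
      rw [← pr_iter, F_iter_Fi]
    rw [h5] at hx2
    have h6 : Function.Injective ((S a)^[N]) := (Sh a).injective.iterate N
    rw [← h6 hx2]
    exact hx

/-- a path in `A` crosses, after `N + 2` steps, a unit square with a prescribed centre -/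
theorem start_cell {a : ℝ} (ha : 5 / 2 ≤ |a|) {A : Set T2} {N : ℕ}
    (h : HasCell ((S a)^[N] '' A)) (v u : ℝ) :
    ∃ (γ : ℝ → ℝ × ℝ) (s t : ℝ), Continuous γ ∧ Cell a γ (N + 2) s t v u ∧
      ∀ τ ∈ Icc s t, pr (γ τ) ∈ A := by
  -- nearest half-integers
  have key : ∀ x : ℝ, ∃ j : ℤ, |(j : ℝ) + 1 / 2 - x| ≤ 1 / 2 := fun x => by
    refine ⟨⌊x⌋, ?_⟩
    have h1 := Int.floor_le x
    have h2 := Int.lt_floor_add_one x
    rw [abs_le]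
    constructor <;> linarith
  obtain ⟨j, hj⟩ := key (2 * v - u)
  obtain ⟨i, hi⟩ := key (2 * (j + 1 / 2) - v)
  obtain ⟨γ, s, t, hγ, hC, hA⟩ := lift_cell h i j
  obtain ⟨s₁, t₁, h1, h2, h3⟩ := cell_step (u' := v) hγ hC (by
    rw [show v - 2 * ((j : ℝ) + 1 / 2) + (i + 1 / 2) = (i : ℝ) + 1 / 2 - (2 * (j + 1 / 2) - v) by
      ring]
    linarith)
  obtain ⟨s₂, t₂, h4, h5, h6⟩ := cell_step (u' := u) hγ h3 (by
    rw [show u - 2 * v + ((j : ℝ) + 1 / 2) = (j : ℝ) + 1 / 2 - (2 * v - u) by ring]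
    linarith)
  exact ⟨γ, s₂, t₂, hγ, h6, fun τ hτ => hA τ ⟨h1.trans (h4.trans hτ.1), hτ.2.trans (h5.trans h2)⟩⟩

theorem hasCell_one {a : ℝ} {γ : ℝ → ℝ × ℝ} (hγ : Continuous γ) {n : ℕ} {s t v u : ℝ}
    (h : Cell a γ n s t v u) : FwdE 1 ((fun τ => pr ((F a)^[n] (γ τ))) '' Icc s t) := by
  refine ⟨fun τ => (F a)^[n] (γ τ), s, t, u - 1 / 2, ((F_cont a).iterate _).comp hγ, ?_, ?_,
    fun τ hτ => mem_image_of_mem _ hτ⟩
  · rw [show u - 1 / 2 + 1 = u + 1 / 2 by ring]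
    exact h.1
  · intro τ hτ σ hσ
    have h1 := abs_le.1 (h.2 τ hτ)
    have h2 := abs_le.1 (h.2 σ hσ)
    rw [abs_le]
    constructor <;> linarith [h1.1, h1.2, h2.1, h2.2]

/-- **all infinite itineraries** -/
theorem itinerary {a : ℝ} (ha : 5 / 2 ≤ |a|) {A : Set T2} {N : ℕ} (h : HasCell ((S a)^[N] '' A))
    {j : ℕ → ℝ} (hj : ∀ k, |j (k + 2) - 2 * j (k + 1) + j k| ≤ |a| - 2) :
    ∃ p : ℝ × ℝ, pr p ∈ A ∩ closure (Ws a) ∧ ∀ k, |((F a)^[N + 2 + k] p).1 - j k| ≤ 1 / 2 := by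
  obtain ⟨γ, s, t, hγ, hC, hA⟩ := start_cell ha h (2 * j 0 - j 1) (j 0)
  have h0 : |j 1 - 2 * j 0 + (2 * j 0 - j 1)| ≤ |a| - 2 := by
    rw [show j 1 - 2 * j 0 + (2 * j 0 - j 1) = 0 by ring, abs_zero]
    linarith
  have hc : ∀ m : ℕ, Continuous (fun τ => ((F a)^[m] (γ τ)).1) := fun m =>
    (((F_cont a).iterate m).comp hγ).fst
  let K : ℕ → Set ℝ := fun n => {τ | τ ∈ Icc s t ∧ pr (γ τ) ∈ closure (Ws a) ∧
    ∀ k ≤ n, |((F a)^[N + 2 + k] (γ τ)).1 - j k| ≤ 1 / 2}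
  have hKcl : ∀ n, IsClosed (K n) := by
    intro n
    have : K n = Icc s t ∩ ((fun τ => pr (γ τ)) ⁻¹' closure (Ws a) ∩
        ⋂ k ≤ n, {τ | |((F a)^[N + 2 + k] (γ τ)).1 - j k| ≤ 1 / 2}) := by
      ext τ
      simp [K]
    rw [this]
    apply isClosed_Icc.inter
    apply (isClosed_closure.preimage (pr_cont.comp hγ)).inter
    apply isClosed_biInter
    intro k _
    exact isClosed_le ((hc _).sub continuous_const).abs continuous_const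
  have hKne : ∀ n, (K n).Nonempty := by
    intro n
    obtain ⟨s', t', i', h1, h2, h3, _, _, h6⟩ := cell_steps hγ hC h0 n (fun k _ => hj k)
    have hbox := box_of_one ha (hasCell_one hγ h3) (n := 2) le_rfl
    obtain ⟨y, ⟨x, ⟨τ, hτ, rfl⟩, hx⟩, hy⟩ := box_ws ha hbox
    refine ⟨τ, ⟨h1.trans hτ.1, hτ.2.trans h2⟩, subset_closure ?_, h6 τ hτ⟩
    apply ws_invariant (n := 2 + (N + 2 + n))
    rw [Function.iterate_add_apply, ← pr_iter, hx]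
    exact hy
  obtain ⟨τ, hτ⟩ := IsCompact.nonempty_iInter_of_sequence_nonempty_isCompact_isClosed K
    (fun n τ hτ => ⟨hτ.1, hτ.2.1, fun m hm => hτ.2.2 m (by omega)⟩) hKne
    (isCompact_Icc.of_isClosed_subset (hKcl 0) (fun τ hτ => hτ.1)) hKcl
  rw [mem_iInter] at hτ
  exact ⟨γ τ, ⟨hA τ (hτ 0).1, (hτ 0).2.1⟩, fun k => (hτ k).2.2 k le_rfl⟩

/-- **a finite itinerary, followed by a visit to a given set** -/
theorem itinerary_visit {a : ℝ} {A B : Set T2} {N M : ℕ} (ha : 5 / 2 ≤ |a|)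
    (h : HasCell ((S a)^[N] '' A)) (hB : Box a ((S a)^[M] '' (Prod.swap '' B)))
    {j : ℕ → ℝ} {K : ℕ} (hj : ∀ k, k + 2 ≤ K → |j (k + 2) - 2 * j (k + 1) + j k| ≤ |a| - 2)
    {m : ℕ} (hm : M + 2 ≤ m) :
    ∃ p : ℝ × ℝ, pr p ∈ A ∧ (∀ k ≤ K, |((F a)^[N + 2 + k] p).1 - j k| ≤ 1 / 2) ∧
      (S a)^[N + 2 + K + m] (pr p) ∈ B := by
  obtain ⟨γ, s, t, hγ, hC, hA⟩ := start_cell ha h (2 * j 0 - j 1) (j 0)
  have h0 : |j 1 - 2 * j 0 + (2 * j 0 - j 1)| ≤ |a| - 2 := by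
    rw [show j 1 - 2 * j 0 + (2 * j 0 - j 1) = 0 by ring, abs_zero]
    linarith
  obtain ⟨s', t', i', h1, h2, h3, _, _, h6⟩ := cell_steps hγ hC h0 K hj
  have hbox := box_of_one ha (hasCell_one hγ h3) (n := m - M) (by omega)
  obtain ⟨y, ⟨x, ⟨τ, hτ, rfl⟩, hx⟩, hy⟩ := mix_time (by linarith) hbox hB
  rw [show m - M + M = m by omega] at hx
  have hτ' : τ ∈ Icc s t := ⟨h1.trans hτ.1, hτ.2.trans h2⟩
  refine ⟨γ τ, hA τ hτ', h6 τ hτ, ?_⟩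
  rw [show N + 2 + K + m = m + (N + 2 + K) by ring, Function.iterate_add_apply, ← pr_iter, hx]
  exact hy

end Pool.Agent.H242.TM
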