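import Pool.Agent.H242.TM.Spec

set_option autoImplicit false

/-!
# Areas of islands
-/

namespace Pool.Agent.H242.TM

open Real Set Metric Filter Topology MeasureTheory
open Pool.Agent.TH705.SM (T2 S Si)

/-- the connected subsets of the preimage of `A` have width at most `e` -/
def Wd (A : Set T2) (e : ℝ) : Prop :=
  ∀ C : Set (ℝ × ℝ), IsPreconnected C → C ⊆ pr ⁻¹' A → ∀ p ∈ C, ∀ q ∈ C, |p.1 - q.1| ≤ e

/-- the connected subsets of the preimage of `A` have height at most `e` -/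
def Hd (A : Set T2) (e : ℝ) : Prop :=
  ∀ C : Set (ℝ × ℝ), IsPreconnected C → C ⊆ pr ⁻¹' A → ∀ p ∈ C, ∀ q ∈ C, |p.2 - q.2| ≤ e

theorem Small.wd {a : ℝ} {A : Set T2} (h : Small a A) : Wd A (3 / (4 * |a|)) :=
  fun C hC hCA p hp q hq => (h C hC hCA p hp q hq).1

theorem Wd.mono {A B : Set T2} {e : ℝ} (h : Wd B e) (hAB : A ⊆ B) : Wd A e :=
  fun C hC hCA p hp q hq => h C hC (hCA.trans (preimage_mono hAB)) p hp q hq

theorem Hd.mono {A B : Set T2} {e : ℝ} (h : Hd B e) (hAB : A ⊆ B) : Hd A e :=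
  fun C hC hCA p hp q hq => h C hC (hCA.trans (preimage_mono hAB)) p hp q hq

theorem pr_Fi {a : ℝ} {A : Set T2} {r : ℝ × ℝ} (h : pr r ∈ S a '' A) : pr (Fi a r) ∈ A := by
  obtain ⟨x, hx, hx2⟩ := h
  have h2 : S a (pr (Fi a r)) = pr r := by
    rw [← pr_F, F_Fi]
  have h3 : pr (Fi a r) = x := (Sh a).injective (h2.trans hx2.symm)
  rw [h3]
  exact hx

/-- the height of the image is the width -/
theorem Wd.hd_image {a : ℝ} {A : Set T2} {e : ℝ} (h : Wd A e) : Hd (S a '' A) e := by
  intro C hC hCA p hp q hq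
  exact h (Fi a '' C) (hC.image _ (Fi_cont a).continuousOn) (by
    rintro _ ⟨r, hr, rfl⟩
    exact pr_Fi (hCA hr)) _ (mem_image_of_mem _ hp) _ (mem_image_of_mem _ hq)

/-- the derivative of `phi` -/
noncomputable def dphi (a x : ℝ) : ℝ := 2 + 2 * π * a * cos (2 * π * x)

theorem phi_hasDeriv (a x : ℝ) : HasDerivAt (phi a) (dphi a x) x := by
  have h1 : HasDerivAt (fun y : ℝ => 2 * π * y) (2 * π) x := by
    simpa using (hasDerivAt_id x).const_mul (2 * π)
  have h2 : HasDerivAt (fun y : ℝ => 2 * y + a * sin (2 * π * y))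
      (2 * 1 + a * (cos (2 * π * x) * (2 * π))) x :=
    ((hasDerivAt_id x).const_mul 2).add ((h1.sin).const_mul a)
  have e1 : dphi a x = 2 * 1 + a * (cos (2 * π * x) * (2 * π)) := by
    unfold dphi
    ring
  rw [e1]
  exact h2

theorem mvt_gen {a g u v : ℝ} (h : ∀ x ∈ Icc (min u v) (max u v), g ≤ |dphi a x|) :
    g * |u - v| ≤ |phi a u - phi a v| := by
  wlog huv : u ≤ v generalizing u v
  · have := this (u := v) (v := u) (by rw [min_comm, max_comm]; exact h) (le_of_not_ge huv)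
    rw [abs_sub_comm u v, abs_sub_comm (phi a u)]
    exact this
  rcases huv.eq_or_lt with h1 | h1
  · rw [h1]; simp
  obtain ⟨c, hc, hc2⟩ := exists_hasDerivAt_eq_slope (phi a) (dphi a) h1
    (phi_cont a).continuousOn (fun x _ => phi_hasDeriv a x)
  have h2 := h c (by rw [min_eq_left huv, max_eq_right huv]; exact ⟨hc.1.le, hc.2.le⟩)
  rw [hc2, abs_div, le_div_iff₀ (abs_pos.2 (by linarith))] at h2
  rw [abs_sub_comm u v, abs_sub_comm (phi a u)]
  exact h2

theorem wd_step {a : ℝ} {A : Set T2} (hs : ∀ r : ℝ × ℝ, pr r ∈ A → 4 ≤ |dphi a r.1|) {e₁ e₂ : ℝ}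
    (h1 : Wd (S a '' A) e₁) (h2 : Hd A e₂) : Wd A ((e₁ + e₂) / 4) := by
  intro C hC hCA p hp q hq
  have h3 := h1 (F a '' C) (hC.image _ (F_cont a).continuousOn) (by
    rintro _ ⟨r, hr, rfl⟩
    rw [mem_preimage, pr_F]
    exact mem_image_of_mem _ (hCA hr)) _ (mem_image_of_mem _ hp) _ (mem_image_of_mem _ hq)
  have h4 := h2 C hC hCA p hp q hq
  have h5 : (Prod.fst '' C).OrdConnected :=
    (hC.image _ continuous_fst.continuousOn).ordConnected
  have h6 : 4 * |p.1 - q.1| ≤ |phi a p.1 - phi a q.1| := by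
    apply mvt_gen
    intro x hx
    have hx2 : x ∈ Prod.fst '' C := by
      have h7 : uIcc p.1 q.1 ⊆ Prod.fst '' C :=
        h5.uIcc_subset (mem_image_of_mem _ hp) (mem_image_of_mem _ hq)
      exact h7 hx
    obtain ⟨r, hr, rfl⟩ := hx2
    exact hs r (hCA hr)
  have h7 : (F a p).1 - (F a q).1 = (phi a p.1 - phi a q.1) - (p.2 - q.2) := by
    rw [F_fst, F_fst]; ring
  rw [h7] at h3
  have h8 := abs_sub_abs_le_abs_sub (phi a p.1 - phi a q.1) (p.2 - q.2)
  linarith

/-- the sets which stay away from the strip for a long time are narrow -/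
theorem narrow {a κ : ℝ} {A : Set T2} {L : ℕ} (hW : ∀ n ≤ 2 * L, Wd ((S a)^[n] '' A) κ)
    (hs : ∀ n, 1 ≤ n → n < 2 * L → ∀ r : ℝ × ℝ, pr r ∈ (S a)^[n] '' A → 4 ≤ |dphi a r.1|) :
    ∀ j ≤ L, ∀ n, j ≤ n → n + j ≤ 2 * L → Wd ((S a)^[n] '' A) (κ / 2 ^ j) := by
  intro j
  induction j with
  | zero =>
    intro _ n _ hn
    rw [pow_zero, div_one]
    exact hW n (by omega)
  | succ j ih =>
    intro hj n hn hn2
    obtain ⟨m, rfl⟩ : ∃ m, n = m + 1 := ⟨n - 1, by omega⟩
    have h1 := ih (by omega) (m + 2) (by omega) (by omega)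
    have h2 := (ih (by omega) m (by omega) (by omega)).hd_image (a := a)
    rw [← image_succ] at h2
    rw [show m + 2 = (m + 1) + 1 from rfl, image_succ] at h1
    have h3 := wd_step (hs (m + 1) (by omega) (by omega)) h1 h2
    have e1 : (κ / 2 ^ j + κ / 2 ^ j) / 4 = κ / 2 ^ (j + 1) := by
      rw [pow_succ]; ring
    rw [e1] at h3
    exact h3

/-- the two strips -/
def strips (a : ℝ) : Set T2 := {z | dist z.1 ((1 / 4 : ℝ) : UnitAddCircle) ≤ 1 / |a| ∨
  dist z.1 ((3 / 4 : ℝ) : UnitAddCircle) ≤ 1 / |a|}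

theorem strip_near {a x : ℝ} (ha : 5 ≤ |a|) (hx : |dphi a x| < 4) :
    ∃ m : ℤ, |x - m - 1 / 4| ≤ 1 / (4 * |a|) ∨ |x - m - 3 / 4| ≤ 1 / (4 * |a|) := by
  have ha0 : 0 < |a| := by linarith
  have h1 : |2 * π * a * cos (2 * π * x)| < 6 := by
    unfold dphi at hx
    rw [abs_lt] at hx ⊢
    constructor <;> linarith [hx.1, hx.2]
  have h2 : |cos (2 * π * x)| ≤ 1 / |a| := by
    rw [abs_mul, abs_mul, abs_of_pos (by positivity : (0:ℝ) < 2 * π)] at h1
    rw [le_div_iff₀ ha0]
    have := pi_gt_three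
    have h0 : 0 ≤ |a| * |cos (2 * π * x)| := by positivity
    nlinarith
  refine ⟨⌊x⌋, ?_⟩
  set y := x - ⌊x⌋ with hy
  have hy0 : 0 ≤ y := by rw [hy]; linarith [Int.floor_le x]
  have hy1 : y < 1 := by rw [hy]; linarith [Int.lt_floor_add_one x]
  have hcos : cos (2 * π * x) = cos (2 * π * y) := by
    rw [hy, mul_sub, show 2 * π * (⌊x⌋ : ℝ) = (⌊x⌋ : ℝ) * (2 * π) by ring, cos_sub_int_mul_two_pi]
  rw [hcos] at h2
  rcases le_total y (1 / 2) with h | h
  · left
    have h3 := abs_sin_ge (x := y - 1 / 4) (by rw [abs_le]; constructor <;> linarith)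
    have h4 : sin (2 * π * (y - 1 / 4)) = -cos (2 * π * y) := by
      rw [show 2 * π * (y - 1 / 4) = 2 * π * y - π / 2 by ring, sin_sub_pi_div_two]
    rw [h4, abs_neg] at h3
    rw [le_div_iff₀ (by positivity)]
    rw [le_div_iff₀ ha0] at h2
    nlinarith
  · right
    have h3 := abs_sin_ge (x := y - 3 / 4) (by rw [abs_le]; constructor <;> linarith)
    have h4 : sin (2 * π * (y - 3 / 4)) = cos (2 * π * y) := by
      rw [show 2 * π * (y - 3 / 4) = (2 * π * y - π / 2) - π by ring, sin_sub_pi,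
        sin_sub_pi_div_two, neg_neg]
    rw [h4] at h3
    rw [le_div_iff₀ (by positivity)]
    rw [le_div_iff₀ ha0] at h2
    nlinarith

/-- a small domain which meets the thin strip is contained in the strips -/
theorem subset_strips {a : ℝ} (ha : 5 ≤ |a|) {D : Set T2} (hDo : IsOpen D)
    (hDc : IsPreconnected D) (hs : Small a D) {r : ℝ × ℝ} (hr : pr r ∈ D)
    (hr2 : |dphi a r.1| < 4) : D ⊆ strips a := by
  intro z hz
  have ha0 : 0 < |a| := by linarith
  obtain ⟨p, hp, rfl⟩ := comp_onto hDo hDc hr hz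
  have h1 := (hs _ isPreconnected_connectedComponentIn (connectedComponentIn_subset _ _) p hp r
    (mem_connectedComponentIn hr)).1
  obtain ⟨m, hm⟩ := strip_near ha hr2
  have e1 : 3 / (4 * |a|) + 1 / (4 * |a|) = 1 / |a| := by field_simp; norm_num
  have key : ∀ c : ℝ, |r.1 - m - c| ≤ 1 / (4 * |a|) →
      dist (pr p).1 (c : UnitAddCircle) ≤ 1 / |a| := by
    intro c hc
    have h2 : |p.1 - m - c| ≤ 1 / |a| := by
      rw [← e1]
      have := abs_add_le (p.1 - r.1) (r.1 - m - c)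
      rw [show p.1 - r.1 + (r.1 - m - c) = p.1 - m - c by ring] at this
      linarith
    change dist ((p.1 : ℝ) : UnitAddCircle) (c : UnitAddCircle) ≤ _
    have h3 : ((p.1 : ℝ) : UnitAddCircle) = ((p.1 - m : ℝ) : UnitAddCircle) := by
      rw [AddCircle.coe_sub, coe_int, sub_zero]
    rw [h3, dist_eq_norm, ← AddCircle.coe_sub]
    exact (QuotientAddGroup.norm_mk_le_norm).trans (by rw [Real.norm_eq_abs]; exact h2)
  rcases hm with h | h
  · exact Or.inl (key _ h)
  · exact Or.inr (key _ h)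

theorem strips_closed (a : ℝ) : IsClosed (strips a) := by
  apply IsClosed.union
  · exact isClosed_le (continuous_fst.dist continuous_const) continuous_const
  · exact isClosed_le (continuous_fst.dist continuous_const) continuous_const

theorem volume_strips {a : ℝ} (ha : 5 ≤ |a|) : volume (strips a) ≤ ENNReal.ofReal (4 / |a|) := by
  have key : ∀ c : UnitAddCircle, volume {z : T2 | dist z.1 c ≤ 1 / |a|} ≤
      ENNReal.ofReal (2 / |a|) := by
    intro c
    have e1 : {z : T2 | dist z.1 c ≤ 1 / |a|} = closedBall c (1 / |a|) ×ˢ univ := by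
      ext z
      simp [mem_closedBall]
    rw [e1, Measure.volume_eq_prod, Measure.prod_prod, AddCircle.volume_closedBall]
    rw [show (volume : Measure UnitAddCircle) univ = 1 from measure_univ, mul_one]
    apply ENNReal.ofReal_le_ofReal
    exact (min_le_right _ _).trans (by rw [mul_one_div])
  have h1 : strips a = {z : T2 | dist z.1 ((1 / 4 : ℝ) : UnitAddCircle) ≤ 1 / |a|} ∪
      {z : T2 | dist z.1 ((3 / 4 : ℝ) : UnitAddCircle) ≤ 1 / |a|} := rfl
  rw [h1]
  refine (measure_union_le _ _).trans ((add_le_add (key _) (key _)).trans ?_)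
  rw [← ENNReal.ofReal_add (by positivity) (by positivity)]
  apply ENNReal.ofReal_le_ofReal
  apply le_of_eq
  ring

/-- the union of the preimages of the strips -/
theorem volume_union {a : ℝ} (ha : 5 ≤ |a|) (N : ℕ) :
    volume (⋃ n ∈ Finset.range N, (S a)^[n] ⁻¹' strips a) ≤ ENNReal.ofReal (4 * N / |a|) := by
  refine (measure_biUnion_finset_le _ _).trans ?_
  calc ∑ n ∈ Finset.range N, volume ((S a)^[n] ⁻¹' strips a)
      ≤ ∑ n ∈ Finset.range N, ENNReal.ofReal (4 / |a|) := by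
        apply Finset.sum_le_sum
        intro n _
        rw [(TH705.SM.iter_mp a n).measure_preimage (strips_closed a).measurableSet.nullMeasurableSet]
        exact volume_strips ha
    _ = ENNReal.ofReal (4 * N / |a|) := by
        rw [Finset.sum_const, Finset.card_range, nsmul_eq_mul,
          ← ENNReal.ofReal_natCast, ← ENNReal.ofReal_mul (by positivity)]
        congr 1
        ring

end Pool.Agent.H242.TM
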