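import Pool.Agent.H242.TM.Area

set_option autoImplicit false

/-!
# Areas of islands: the union of the large islands, the islands of small period
-/

namespace Pool.Agent.H242.TM

open Real Set Metric Filter Topology MeasureTheory
open Pool.Agent.TH705.SM (T2 S Si)

/-- the component of `z` in the complement of `X` -/
def Dom (a : ℝ) (z : T2) : Set T2 := connectedComponentIn (closure (Ws a))ᶜ z

theorem iter_Si_S (a : ℝ) (n : ℕ) (z : T2) : (Si a)^[n] ((S a)^[n] z) = z :=
  Function.LeftInverse.iterate (TH705.SM.Si_S a) n z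

theorem iter_S_Si (a : ℝ) (n : ℕ) (z : T2) : (S a)^[n] ((Si a)^[n] z) = z :=
  Function.RightInverse.iterate (S_Si a) n z

theorem iter_compl (a : ℝ) (n : ℕ) {z : T2} :
    (S a)^[n] z ∈ (closure (Ws a))ᶜ ↔ z ∈ (closure (Ws a))ᶜ := by
  have h : ∀ n, (S a)^[n] ⁻¹' closure (Ws a) = closure (Ws a) := by
    intro n
    induction n with
    | zero => rfl
    | succ n ih => rw [Function.iterate_succ, preimage_comp, ih, preimage_X]
  have h1 : (S a)^[n] z ∈ closure (Ws a) ↔ z ∈ closure (Ws a) := by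
    conv_rhs => rw [← h n]
    rfl
  rw [mem_compl_iff, mem_compl_iff, h1]

/-- the component of the image is contained in the image of the component -/
theorem dom_subset {a : ℝ} (n : ℕ) {z : T2} (hz : z ∈ (closure (Ws a))ᶜ) :
    Dom a ((S a)^[n] z) ⊆ (S a)^[n] '' Dom a z := by
  have h1 : IsPreconnected ((Si a)^[n] '' Dom a ((S a)^[n] z)) :=
    isPreconnected_connectedComponentIn.image _ ((TH705.SM.Si_cont a).iterate n).continuousOn
  have h2 : (Si a)^[n] '' Dom a ((S a)^[n] z) ⊆ (closure (Ws a))ᶜ := by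
    rw [← Si_image_compl_X a n]
    exact image_mono (connectedComponentIn_subset _ _)
  have h3 : z ∈ (Si a)^[n] '' Dom a ((S a)^[n] z) :=
    ⟨(S a)^[n] z, mem_connectedComponentIn ((iter_compl a n).2 hz), iter_Si_S a n z⟩
  have h4 := h1.subset_connectedComponentIn h3 h2
  intro d hd
  exact ⟨(Si a)^[n] d, h4 (mem_image_of_mem _ hd), iter_S_Si a n d⟩

/-- an image of a wide island meets the strips -/
theorem visit_of_wide {a : ℝ} (ha : 5 ≤ |a|) {y : T2} (hy : y ∈ (closure (Ws a))ᶜ) {L : ℕ}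
    (h : ¬ Wd (Dom a ((S a)^[L] y)) (3 / (4 * |a|) / 2 ^ L)) :
    ∃ n, 1 ≤ n ∧ n < 2 * L ∧ (S a)^[n] y ∈ strips a := by
  by_contra hcon
  push Not at hcon
  have hI := island_comp ha hy
  apply h
  apply Wd.mono _ (dom_subset L hy)
  refine narrow (fun n _ => (hI.small_image ha n).wd) ?_ L le_rfl L le_rfl (by omega)
  intro n hn hn2 r hr
  by_contra hcon2
  apply hcon n hn hn2
  have h1 := subset_strips ha (isOpen_image a n hI.isOpen)
    (hI.isConnected.isPreconnected.image _ ((TH705.SM.S_cont a).iterate n).continuousOn)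
    (hI.small_image ha n) hr (not_le.1 hcon2)
  exact h1 (mem_image_of_mem _ (mem_connectedComponentIn hy))

/-- all the connected subsets of the preimage of `A` have both extents at most `e` -/
def SmallBy (e : ℝ) (A : Set T2) : Prop :=
  ∀ C : Set (ℝ × ℝ), IsPreconnected C → C ⊆ pr ⁻¹' A → ∀ p ∈ C, ∀ q ∈ C,
    |p.1 - q.1| ≤ e ∧ |p.2 - q.2| ≤ e

/-- **a large island visits the strips** -/
theorem visit {a : ℝ} (ha : 5 ≤ |a|) {y : T2} {L : ℕ} (hy : (S a)^[L] y ∈ (closure (Ws a))ᶜ)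
    (h : ¬ SmallBy (3 / (4 * |a|) / 2 ^ L) (Dom a ((S a)^[L] y))) :
    ∃ n, n < 2 * L ∧ (S a)^[n] y ∈ strips a := by
  have hy' : y ∈ (closure (Ws a))ᶜ := (iter_compl a L).1 hy
  by_cases h1 : Wd (Dom a ((S a)^[L] y)) (3 / (4 * |a|) / 2 ^ L)
  · have h2 : ¬ Hd (Dom a ((S a)^[L] y)) (3 / (4 * |a|) / 2 ^ L) := by
      intro h2
      exact h fun C hC hCA p hp q hq => ⟨h1 C hC hCA p hp q hq, h2 C hC hCA p hp q hq⟩
    -- the previous island is wide
    set x := Si a y with hx
    have hxy : S a x = y := S_Si a y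
    have hx' : x ∈ (closure (Ws a))ᶜ := (iter_compl a 1).1 (by
      rw [Function.iterate_one, hxy]; exact hy')
    have e1 : S a ((S a)^[L] x) = (S a)^[L] y := by
      rw [← Function.iterate_succ_apply' (S a) L x, Function.iterate_succ_apply, hxy]
    have h3 : ¬ Wd (Dom a ((S a)^[L] x)) (3 / (4 * |a|) / 2 ^ L) := by
      intro h3
      apply h2
      have h4 := h3.hd_image (a := a)
      refine h4.mono ?_
      have h5 := dom_subset 1 ((iter_compl a L).2 hx')
      rw [Function.iterate_one, e1] at h5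
      exact h5
    obtain ⟨n, hn1, hn2, hn3⟩ := visit_of_wide ha hx' h3
    obtain ⟨m, rfl⟩ : ∃ m, n = m + 1 := ⟨n - 1, by omega⟩
    rw [Function.iterate_succ_apply, hxy] at hn3
    exact ⟨m, by omega, hn3⟩
  · obtain ⟨n, _, hn2, hn3⟩ := visit_of_wide ha hy' h1
    exact ⟨n, hn2, hn3⟩

/-- the union of the islands with a given property is open -/
theorem isOpen_dom (a : ℝ) (P : Set T2 → Prop) :
    IsOpen {z | z ∈ (closure (Ws a))ᶜ ∧ P (Dom a z)} := by
  have := lc_torus
  rw [isOpen_iff_mem_nhds]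
  rintro z ⟨hz, hP⟩
  have h1 : IsOpen (Dom a z) := isClosed_closure.isOpen_compl.connectedComponentIn
  refine mem_of_superset (h1.mem_nhds (mem_connectedComponentIn hz)) ?_
  intro w hw
  have h2 : Dom a z = Dom a w := connectedComponentIn_eq hw
  refine ⟨connectedComponentIn_subset _ _ hw, ?_⟩
  rw [← h2]
  exact hP

/-- **the area of the union of the large islands** -/
theorem volume_large {a : ℝ} (ha : 5 ≤ |a|) (L : ℕ) :
    volume {z | z ∈ (closure (Ws a))ᶜ ∧ ¬ SmallBy (3 / (4 * |a|) / 2 ^ L) (Dom a z)} ≤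
      ENNReal.ofReal (8 * L / |a|) := by
  rw [← (TH705.SM.iter_mp a L).measure_preimage
    (isOpen_dom a (fun A => ¬ SmallBy (3 / (4 * |a|) / 2 ^ L) A)).measurableSet.nullMeasurableSet]
  have h1 := volume_union ha (2 * L)
  have e1 : 4 * ((2 * L : ℕ) : ℝ) / |a| = 8 * L / |a| := by push_cast; ring
  rw [e1] at h1
  refine (measure_mono ?_).trans h1
  rintro y ⟨hy, hy2⟩
  obtain ⟨n, hn, hn2⟩ := visit ha hy hy2
  exact mem_biUnion (Finset.mem_coe.2 (Finset.mem_range.2 hn)) hn2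

/-- an island is not of width zero -/
theorem Island.not_wd {a : ℝ} {D : Set T2} (h : Island a D) : ∃ e > 0, ¬ Wd D e := by
  obtain ⟨z, hz⟩ := h.isConnected.nonempty
  obtain ⟨p, rfl⟩ := pr_surj z
  have h1 : IsOpen (pr ⁻¹' D) := h.isOpen.preimage pr_cont
  obtain ⟨ε, hε, hb⟩ := Metric.isOpen_iff.1 h1 p hz
  refine ⟨ε / 4, by positivity, fun hW => ?_⟩
  have h2 := hW ((fun s : ℝ => ((p.1 + s, p.2) : ℝ × ℝ)) '' Icc 0 (ε / 2))
    (isPreconnected_Icc.image _ (by fun_prop)) (by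
      rintro _ ⟨s, hs, rfl⟩
      apply hb
      rw [mem_ball, Prod.dist_eq]
      apply max_lt
      · rw [Real.dist_eq]
        simp only
        rw [show p.1 + s - p.1 = s by ring, abs_of_nonneg hs.1]
        linarith [hs.2]
      · rw [dist_self]; exact hε)
    _ (mem_image_of_mem _ (show ε / 2 ∈ Icc 0 (ε / 2) from ⟨by positivity, le_rfl⟩))
    _ (mem_image_of_mem _ (show (0:ℝ) ∈ Icc 0 (ε / 2) from ⟨le_rfl, by positivity⟩))
  simp only at h2
  rw [show p.1 + ε / 2 - (p.1 + 0) = ε / 2 by ring, abs_of_pos (by positivity)] at h2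
  linarith

/-- **every island visits the critical strip in every period** -/
theorem Island.visits {a : ℝ} (ha : 5 ≤ |a|) {D : Set T2} (h : Island a D) {q : ℕ} (hq : 1 ≤ q)
    (hD : (S a)^[q] '' D = D) : ∃ n < q, ∃ r : ℝ × ℝ, pr r ∈ (S a)^[n] '' D ∧ |dphi a r.1| < 4 := by
  by_contra hcon
  push Not at hcon
  obtain ⟨e, he, hW⟩ := h.not_wd
  apply hW
  have h1 : ∀ n, ∀ r : ℝ × ℝ, pr r ∈ (S a)^[n] '' D → 4 ≤ |dphi a r.1| := by
    intro n r hr
    rw [image_mod hD] at hr
    exact hcon _ (Nat.mod_lt _ hq) r hr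
  have ha0 : 0 < |a| := by linarith
  obtain ⟨m, hm⟩ := pow_unbounded_of_one_lt (3 / (4 * |a|) / e) (show (1:ℝ) < 2 by norm_num)
  have h2 := narrow (a := a) (κ := 3 / (4 * |a|)) (A := D) (L := m * q)
    (fun n _ => (h.small_image ha n).wd) (fun n _ _ => h1 n) (m * q) le_rfl (m * q) le_rfl
    (by omega)
  rw [image_mul hD] at h2
  intro C hC hCA p hp p' hp'
  refine (h2 C hC hCA p hp p' hp').trans ?_
  rw [div_le_iff₀ (by positivity)]
  rw [div_lt_iff₀ he] at hm
  have h3 : (2:ℝ) ^ m ≤ 2 ^ (m * q) := pow_le_pow_right₀ (by norm_num)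
    (Nat.le_mul_of_pos_right _ hq)
  nlinarith

theorem Island.strips {a : ℝ} (ha : 5 ≤ |a|) {D : Set T2} (h : Island a D) {q : ℕ} (hq : 1 ≤ q)
    (hD : (S a)^[q] '' D = D) : ∃ n < q, (S a)^[n] '' D ⊆ strips a := by
  obtain ⟨n, hn, r, hr, hr2⟩ := h.visits ha hq hD
  exact ⟨n, hn, subset_strips ha (isOpen_image a n h.isOpen)
    (h.isConnected.isPreconnected.image _ ((TH705.SM.S_cont a).iterate n).continuousOn)
    (h.small_image ha n) hr hr2⟩

/-- **the area of the union of the islands of small period** -/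
theorem volume_period {a : ℝ} (ha : 5 ≤ |a|) (Q : ℕ) :
    volume {z | z ∈ (closure (Ws a))ᶜ ∧ ∃ q, 1 ≤ q ∧ q ≤ Q ∧ (S a)^[q] '' Dom a z = Dom a z} ≤
      ENNReal.ofReal (4 * Q / |a|) := by
  refine (measure_mono ?_).trans (volume_union ha Q)
  rintro z ⟨hz, q, hq, hqQ, hD⟩
  obtain ⟨n, hn, hn2⟩ := (island_comp ha hz).strips ha hq hD
  exact mem_biUnion (Finset.mem_coe.2 (Finset.mem_range.2 (hn.trans_le hqQ)))
    (hn2 (mem_image_of_mem _ (mem_connectedComponentIn hz)))

/-- islands do not meet `X` -/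
theorem Island.disjoint {a : ℝ} (ha : 5 ≤ |a|) {D : Set T2} (h : Island a D) :
    Disjoint D (closure (Ws a)) := by
  rw [disjoint_left]
  intro x hx hx2
  have h1 : (D ∩ Ws a).Nonempty := _root_.mem_closure_iff.1 hx2 D h.isOpen hx
  obtain ⟨N, hN⟩ := open_box ha h.isOpen h1
  exact not_small_of_box ha (hN N le_rfl) (h.small_image ha N)

/-- **the strips decide on topological mixing** -/
theorem mixing_of_strips {a : ℝ} (ha : 5 ≤ |a|) (h : strips a ⊆ closure (Ws a)) :
    Dense (Ws a) := by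
  apply dense_of_no_island ha
  intro D hD
  obtain ⟨q, hq, hqD⟩ := hD.periodic
  obtain ⟨n, _, hn⟩ := hD.strips ha hq hqD
  obtain ⟨x, hx⟩ := hD.isConnected.nonempty
  have h1 := h (hn (mem_image_of_mem _ hx))
  exact (iter_compl a n).2 (fun h2 => disjoint_left.1 (hD.disjoint ha) hx h2) h1

/-- the component of a point far from `X` is large -/
theorem large_of_far {a : ℝ} (ha : 5 ≤ |a|) {L : ℕ} {z : T2}
    (hz : 3 / (8 * |a|) / 2 ^ L < infDist z (closure (Ws a))) :
    z ∈ (closure (Ws a))ᶜ ∧ ¬ SmallBy (3 / (4 * |a|) / 2 ^ L) (Dom a z) := by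
  have ha0 : 0 < |a| := by linarith
  set r := infDist z (closure (Ws a)) with hr
  have hr0 : 0 < r := lt_of_le_of_lt (by positivity) hz
  have hzX : z ∈ (closure (Ws a))ᶜ := by
    intro h
    rw [hr, infDist_zero_of_mem h] at hr0
    exact lt_irrefl _ hr0
  refine ⟨hzX, fun hs => ?_⟩
  obtain ⟨p, rfl⟩ := pr_surj z
  -- a radius in between
  obtain ⟨ρ, hρ1, hρ2⟩ := exists_between hz
  have hρ0 : 0 < ρ := lt_of_le_of_lt (by positivity) hρ1
  set C : Set (ℝ × ℝ) := (fun s : ℝ => ((p.1 + s, p.2) : ℝ × ℝ)) '' Icc (-ρ) ρ with hC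
  have hCc : IsPreconnected C := isPreconnected_Icc.image _ (by fun_prop)
  have h0 : p ∈ C := ⟨0, ⟨by linarith, hρ0.le⟩, by simp⟩
  have h1 : pr '' C ⊆ (closure (Ws a))ᶜ := by
    rintro _ ⟨_, ⟨s, hs, rfl⟩, rfl⟩ hmem
    have h2 := infDist_le_dist_of_mem (x := pr p) hmem
    have h3 : dist (pr p) (pr (p.1 + s, p.2)) ≤ ρ := by
      rw [Prod.dist_eq]
      apply max_le
      · change dist (p.1 : UnitAddCircle) ((p.1 + s : ℝ) : UnitAddCircle) ≤ _
        rw [dist_eq_norm, ← AddCircle.coe_sub, show p.1 - (p.1 + s) = -s by ring]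
        refine (QuotientAddGroup.norm_mk_le_norm).trans ?_
        rw [Real.norm_eq_abs, abs_neg, abs_le]
        exact hs
      · change dist (p.2 : UnitAddCircle) (p.2 : UnitAddCircle) ≤ _
        rw [dist_self]
        exact hρ0.le
    linarith
  have h4 : pr '' C ⊆ Dom a (pr p) :=
    (hCc.image _ pr_cont.continuousOn).subset_connectedComponentIn (mem_image_of_mem _ h0) h1
  have h5 := (hs C hCc (image_subset_iff.1 h4) _
    (mem_image_of_mem _ (show ρ ∈ Icc (-ρ) ρ from ⟨by linarith, le_rfl⟩)) _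
    (mem_image_of_mem _ (show -ρ ∈ Icc (-ρ) ρ from ⟨le_rfl, by linarith⟩))).1
  simp only at h5
  rw [show p.1 + ρ - (p.1 + -ρ) = 2 * ρ by ring, abs_of_pos (by linarith)] at h5
  have e1 : 3 / (4 * |a|) / 2 ^ L = 2 * (3 / (8 * |a|) / 2 ^ L) := by
    field_simp
    norm_num
  rw [e1] at h5
  linarith

/-- **the neighbourhoods of `X` have almost full area** -/
theorem volume_far {a : ℝ} (ha : 5 ≤ |a|) (L : ℕ) :
    volume {z | 3 / (8 * |a|) / 2 ^ L < infDist z (closure (Ws a))} ≤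
      ENNReal.ofReal (8 * L / |a|) :=
  (measure_mono fun _ hz => large_of_far ha hz).trans (volume_large ha L)

end Pool.Agent.H242.TM
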