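import Pool.Agent.H242.TM.Isl

set_option autoImplicit false

/-!
# Arbitrary sets which are invariant under a power of the standard map
-/

namespace Pool.Agent.H242.TM

open Real Set Metric Filter Topology MeasureTheory
open Pool.Agent.TH705.SM (T2 S Si)

/-- boundary bumping -/
theorem bump {K₀ : Set (ℝ × ℝ)} (hcl : IsClosed K₀) (hc : IsPreconnected K₀) {p q : ℝ × ℝ}
    (hp : p ∈ K₀) (hq : q ∈ K₀) {e : ℝ} (he : 0 < e) (hd : e < dist q p) :
    ∃ K ⊆ K₀, IsCompact K ∧ IsConnected K ∧ p ∈ K ∧ K ⊆ closedBall p e ∧ ∃ z ∈ K, dist z p = e := by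
  set B := K₀ ∩ closedBall p e with hB
  have hBc : IsCompact B := (isCompact_closedBall p e).inter_left hcl
  have hpB : p ∈ B := ⟨hp, mem_closedBall_self he.le⟩
  have : CompactSpace B := isCompact_iff_compactSpace.1 hBc
  set p' : B := ⟨p, hpB⟩ with hp'
  refine ⟨Subtype.val '' connectedComponent p', ?_, ?_, ?_, ?_, ?_, ?_⟩
  · rintro _ ⟨x, _, rfl⟩
    exact x.2.1
  · exact isClosed_connectedComponent.isCompact.image continuous_subtype_val
  · exact isConnected_connectedComponent.image _ continuous_subtype_val.continuousOn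
  · exact ⟨p', mem_connectedComponent, rfl⟩
  · rintro _ ⟨x, _, rfl⟩
    exact x.2.2
  · by_contra hcon
    push Not at hcon
    set Sg : Set B := {x | dist x.1 p = e} with hSg
    have hSgc : IsClosed Sg :=
      isClosed_eq (continuous_subtype_val.dist continuous_const) continuous_const
    have hdisj : Sg ∩ (⋂ s : {s : Set B // IsClopen s ∧ p' ∈ s}, (s : Set B)) = ∅ := by
      rw [← connectedComponent_eq_iInter_isClopen]
      ext x
      simp only [mem_inter_iff, mem_empty_iff_false, iff_false, not_and]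
      intro h1 h2
      exact hcon x.1 ⟨x, h2, rfl⟩ h1
    have : Nonempty {s : Set B // IsClopen s ∧ p' ∈ s} := ⟨⟨univ, isClopen_univ, mem_univ _⟩⟩
    obtain ⟨⟨Z, hZ, hpZ⟩, hZS⟩ := hSgc.isCompact.elim_directed_family_closed
      (fun s : {s : Set B // IsClopen s ∧ p' ∈ s} => (s : Set B)) (fun s => s.2.1.isClosed) hdisj
      (by
        rintro ⟨s, hs1, hs2⟩ ⟨t, ht1, ht2⟩
        exact ⟨⟨s ∩ t, hs1.inter ht1, hs2, ht2⟩, inter_subset_left, inter_subset_right⟩)
    simp only at hZS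
    obtain ⟨O, hO, hOZ⟩ := isOpen_induced_iff.1 hZ.isOpen
    set Zi : Set (ℝ × ℝ) := Subtype.val '' Z with hZi
    have hZic : IsClosed Zi := (hZ.isClosed.isCompact.image continuous_subtype_val).isClosed
    obtain ⟨x, hx, ⟨hxO, hxb⟩, hxZ⟩ := hc (O ∩ ball p e) Ziᶜ (hO.inter isOpen_ball)
      hZic.isOpen_compl (by
        intro x hx
        by_cases h : x ∈ Zi
        · left
          obtain ⟨y, hy, rfl⟩ := h
          have h1 : y.1 ∈ O := by rw [← hOZ] at hy; exact hy
          refine ⟨h1, ?_⟩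
          rw [mem_ball]
          refine lt_of_le_of_ne y.2.2 ?_
          intro h2
          have : y ∈ Sg ∩ Z := ⟨h2, hy⟩
          rw [hZS] at this
          exact this
        · exact Or.inr h)
      ⟨p, hp, by
        have h1 : p' ∈ Z := hpZ
        rw [← hOZ] at h1
        exact h1, mem_ball_self he⟩
      ⟨q, hq, by
        rintro ⟨y, _, hy⟩
        have := y.2.2
        rw [hy, mem_closedBall] at this
        linarith⟩
    apply hxZ
    have hxB : x ∈ B := ⟨hx, ball_subset_closedBall hxb⟩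
    refine ⟨⟨x, hxB⟩, ?_, rfl⟩
    rw [← hOZ]
    exact hxO

/-- a time which works for all paths of a given width -/
theorem box_uniform {a : ℝ} (ha : 5 / 2 ≤ |a|) {κ' : ℝ} (h0 : 3 / (4 * |a|) < κ') :
    ∃ N, ∀ (e : ℝ) (A : Set T2), κ' ≤ e → e ≤ 1 → FwdE e A → ∀ n ≥ N, Box a ((S a)^[n] '' A) := by
  have ha0 : 0 < |a| := by linarith
  rw [div_lt_iff₀ (by positivity)] at h0
  set δ := |a| * κ' - 3 / 4 with hδ
  have hδ0 : 0 < δ := by rw [hδ]; linarith
  have hψ : ∀ n : ℕ, (3 / 4 + 4 ^ (n + 1) * δ : ℝ) ≤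
      4 * (3 / 4 + 4 ^ n * δ) ^ 2 - 2 * (3 / 4 + 4 ^ n * δ) := by
    intro n
    have : (0:ℝ) < 4 ^ n * δ := by positivity
    rw [pow_succ]
    nlinarith
  have hψ1 : ∀ n : ℕ, (3 / 4 : ℝ) ≤ 3 / 4 + 4 ^ n * δ := fun n => by
    have : (0:ℝ) < 4 ^ n * δ := by positivity
    linarith
  obtain ⟨m, hm⟩ := pow_unbounded_of_one_lt (|a| / δ) (show (1:ℝ) < 4 by norm_num)
  refine ⟨m + 2, fun e A he he1 hA n hn => ?_⟩
  have h1 : FwdE 1 ((S a)^[m] '' A) := by
    have h2 := mul_le_mul_of_nonneg_left he ha0.le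
    refine reach_one ha hψ hψ1 he1 (by rw [pow_zero, one_mul, hδ]; linarith) hA (n := m) ?_
    rw [div_lt_iff₀ hδ0] at hm
    linarith
  obtain ⟨j, rfl⟩ := Nat.exists_eq_add_of_le hn
  rw [show m + 2 + j = (2 + j) + m by ring, image_add]
  exact box_of_one ha h1 (by omega)

/-- a compact set inside, which contains the crossing path -/
theorem Box.compact {a : ℝ} {A : Set T2} (h : Box a A) : ∃ L ⊆ A, IsCompact L ∧ Box a L := by
  obtain ⟨γ, s, t, k, l, h1, h2, h3, h4⟩ := h
  refine ⟨(fun τ => pr (γ τ)) '' Icc s t, ?_, isCompact_Icc.image (pr_cont.comp h1), γ, s, t, k, l,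
    h1, h2, h3, fun τ hτ => mem_image_of_mem _ hτ⟩
  rintro _ ⟨τ, hτ, rfl⟩
  exact h4 τ hτ

theorem cont_meet {a : ℝ} (ha : 5 ≤ |a|) {K : Set (ℝ × ℝ)} (hK : IsCompact K)
    (hc : IsConnected K) (h1 : 3 / (4 * |a|) < wid K) (h2 : hei K ≤ wid K) (h3 : wid K ≤ 2 / 5)
    {V : Set T2} (hV : ∃ N, ∀ n ≥ N, Box a ((S a)^[n] '' (Prod.swap '' V))) :
    ∃ N, ∀ n ≥ N, ((S a)^[n] '' (pr '' K) ∩ V).Nonempty := by
  have hinc := incr (by linarith) hK hc h1 h2
  set K₁ := F a '' K with hK₁
  have hK1c : IsCompact K₁ := hK.image (F_cont a)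
  have hK1n : IsConnected K₁ := hc.image _ (F_cont a).continuousOn
  have hhei : hei K₁ = wid K := hei_F a K
  set w₀ := wid K with hw₀
  set w₁ := wid K₁ with hw₁
  have hw00 : 0 ≤ w₀ := wid_nonneg K
  have hκ := const_lt ha
  have hκ' : 3 / (4 * |a|) < min w₁ 1 := lt_min (h1.trans hinc) (by linarith)
  obtain ⟨N, hN⟩ := box_uniform (by linarith) hκ'
  obtain ⟨M, hM⟩ := hV
  refine ⟨N + M + 1, fun n' hn' => ?_⟩
  obtain ⟨j, rfl⟩ := Nat.exists_eq_add_of_le hn'
  set n := N + j with hn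
  -- the compact set
  have hBV := hM M le_rfl
  rw [image_swap_iter] at hBV
  obtain ⟨L', hL', hL'c, hBL'⟩ := hBV.compact
  set L : Set T2 := Prod.swap '' L' with hL
  have hLc : IsCompact L := hL'c.image continuous_swap
  have hLB : Box a (Prod.swap '' L) := by rw [hL, swap_swap_image]; exact hBL'
  have hLV : L ⊆ (Si a)^[M] '' V := by
    rw [hL, ← swap_swap_image ((Si a)^[M] '' V)]
    exact image_mono hL'
  -- extreme points
  obtain ⟨u, hu⟩ := fst_image hK1c hK1n
  have m1 : u ∈ Prod.fst '' K₁ := by rw [hu]; exact ⟨le_rfl, by linarith⟩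
  have m2 : u + w₁ ∈ Prod.fst '' K₁ := by rw [hu]; exact ⟨by linarith, le_rfl⟩
  obtain ⟨P, hP, hPu⟩ := m1
  obtain ⟨Q, hQ, hQu⟩ := m2
  -- the closed set
  set Z : Set (ℝ × ℝ) := {x | (S a)^[n] (pr x) ∈ L} with hZ
  have hZc : IsClosed Z := hLc.isClosed.preimage (((TH705.SM.S_cont a).iterate n).comp pr_cont)
  have hex : (Z ∩ K₁).Nonempty := by
    by_contra hcon
    have hsub : K₁ ⊆ Zᶜ := fun x hx hxZ => hcon ⟨x, hxZ, hx⟩
    obtain ⟨δ, hδ0, hδ⟩ := hK1c.exists_thickening_subset_open hZc.isOpen_compl hsub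
    set ε := min δ (min ((w₁ - w₀) / 2) (1 / 10)) with hε
    have hε0 : 0 < ε := lt_min hδ0 (lt_min (by linarith) (by norm_num))
    have hε1 : ε ≤ δ := min_le_left _ _
    have hε2 : ε ≤ (w₁ - w₀) / 2 := (min_le_right _ _).trans (min_le_left _ _)
    have hε3 : ε ≤ 1 / 10 := (min_le_right _ _).trans (min_le_right _ _)
    set Th := thickening ε K₁ with hTh
    have hTho : IsOpen Th := isOpen_thickening
    have hKT : K₁ ⊆ Th := self_subset_thickening hε0 K₁
    have g1 : IsOpen (connectedComponentIn Th P) := hTho.connectedComponentIn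
    have g2 : IsConnected (connectedComponentIn Th P) :=
      isConnected_connectedComponentIn_iff.2 (hKT hP)
    have g3 : IsPathConnected (connectedComponentIn Th P) :=
      (g1.isConnected_iff_isPathConnected).1 g2
    have g4 : K₁ ⊆ connectedComponentIn Th P :=
      hK1n.isPreconnected.subset_connectedComponentIn hP hKT
    obtain ⟨γ, hγ⟩ := g3.joinedIn P (g4 hP) Q (g4 hQ)
    have hγT : ∀ τ ∈ Icc (0:ℝ) 1, γ.extend τ ∈ Th := by
      intro τ hτ
      rw [γ.extend_apply hτ]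
      exact connectedComponentIn_subset _ _ (hγ ⟨τ, hτ⟩)
    have hKb : Bornology.IsBounded (γ.extend '' Icc (0:ℝ) 1) :=
      (isCompact_Icc.image γ.continuous_extend).isBounded
    have hw : w₁ ≤ wid (γ.extend '' Icc (0:ℝ) 1) := by
      have := le_wid hKb (mem_image_of_mem γ.extend (show (1:ℝ) ∈ Icc (0:ℝ) 1 by simp))
        (mem_image_of_mem γ.extend (show (0:ℝ) ∈ Icc (0:ℝ) 1 by simp))
      rw [γ.extend_zero, γ.extend_one, hPu, hQu, show u + w₁ - u = w₁ by ring] at this
      exact (le_abs_self _).trans this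
    have hh : hei (γ.extend '' Icc (0:ℝ) 1) ≤ w₀ + 2 * ε := by
      apply hei_le (by linarith)
      rintro _ ⟨τ, hτ, rfl⟩ _ ⟨σ, hσ, rfl⟩
      obtain ⟨x, hx, hx2⟩ := mem_thickening_iff.1 (hγT τ hτ)
      obtain ⟨y, hy, hy2⟩ := mem_thickening_iff.1 (hγT σ hσ)
      have h5 := le_hei hK1c.isBounded hx hy
      rw [hhei] at h5
      rw [Prod.dist_eq, max_lt_iff, Real.dist_eq, Real.dist_eq] at hx2 hy2
      have h6 := abs_lt.1 hx2.2
      have h7 := abs_lt.1 hy2.2
      have h8 := abs_le.1 h5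
      rw [abs_le]
      constructor <;> linarith
    have hF := fwd_of_wide (A := pr '' Th) γ.continuous_extend (s := 0) (t := 1) (by norm_num)
      (fun τ hτ => mem_image_of_mem _ (hγT τ hτ)) (by linarith) (by linarith)
    have hB := hN _ _ (le_min ((min_le_left _ _).trans hw) (min_le_right _ _)) (min_le_right _ _)
      hF n (by omega)
    obtain ⟨_, ⟨_, ⟨x, hx, rfl⟩, rfl⟩, hxL⟩ := box_meet (by linarith) hB hLB
    exact hδ (thickening_mono hε1 K₁ hx) hxL
  obtain ⟨_, hxZ, ⟨k, hk, rfl⟩⟩ := hex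
  have h5 : (S a)^[n] (pr (F a k)) ∈ L := hxZ
  obtain ⟨v, hv, hv2⟩ := hLV h5
  refine ⟨v, ⟨pr k, mem_image_of_mem _ hk, ?_⟩, hv⟩
  rw [pr_F] at hv2
  rw [show N + M + 1 + j = M + (n + 1) by omega, Function.iterate_add_apply,
    Function.iterate_succ_apply, ← hv2]
  exact Function.RightInverse.iterate (S_Si a) M v

theorem swap_X {a : ℝ} (ha : 5 ≤ |a|) : Prod.swap '' closure (Ws a) = closure (Ws a) := by
  have := (Homeomorph.prodComm UnitAddCircle UnitAddCircle).image_closure (Ws a)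
  have e1 : ((Homeomorph.prodComm UnitAddCircle UnitAddCircle) : T2 → T2) = Prod.swap := rfl
  rw [e1] at this
  rw [this]
  exact (closure_eq ha).symm

/-- an open set which meets `X`, in the past -/
theorem swap_box {a : ℝ} (ha : 5 ≤ |a|) {V : Set T2} (hV : IsOpen V)
    (hV' : (V ∩ closure (Ws a)).Nonempty) :
    ∃ N, ∀ n ≥ N, Box a ((S a)^[n] '' (Prod.swap '' V)) := by
  apply open_box ha (isOpen_swap hV)
  rw [closure_eq ha] at hV'
  obtain ⟨x, hx, hx2⟩ := hV'
  obtain ⟨_, hy, ⟨z, hz, rfl⟩⟩ := mem_closure_iff.1 hx2 V hV hx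
  exact ⟨z, ⟨Prod.swap z, hy, Prod.swap_swap z⟩, hz⟩

theorem image_closure_inv {a : ℝ} {C : Set T2} {q : ℕ} (h : (S a)^[q] '' C = C) (m : ℕ) :
    (S a)^[m * q] '' closure C = closure C := by
  have h1 := image_mul h m
  have h2 : ((Sh a).toEquiv ^ 0).symm = ((Sh a).toEquiv ^ 0).symm := rfl
  apply Subset.antisymm
  · calc (S a)^[m * q] '' closure C ⊆ closure ((S a)^[m * q] '' C) :=
        image_closure_subset_closure_image ((TH705.SM.S_cont a).iterate _)
      _ = closure C := by rw [h1]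
  · have h3 : IsClosed ((S a)^[m * q] '' closure C) :=
      (isClosed_closure.isCompact.image ((TH705.SM.S_cont a).iterate _)).isClosed
    apply closure_minimal _ h3
    conv_lhs => rw [← h1]
    exact image_mono subset_closure

/-- **the dichotomy for the sets invariant under a power of the map** -/
theorem dichotomy {a : ℝ} (ha : 5 ≤ |a|) {C : Set T2} {q : ℕ} (hq : 1 ≤ q)
    (hC : (S a)^[q] '' C = C) (hns : ¬ Small a C) : closure (Ws a) ⊆ closure C := by
  unfold Small at hns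
  push Not at hns
  obtain ⟨Γ, hΓ, hΓC, p, hp, r, hr, hpr⟩ := hns
  have hκ := const_lt ha
  have hκ0 : 0 < 3 / (4 * |a|) := by
    have : 0 < |a| := by linarith
    positivity
  have hd : 3 / (4 * |a|) < dist r p := by
    rw [Prod.dist_eq, Real.dist_eq, Real.dist_eq, abs_sub_comm, abs_sub_comm r.2]
    by_cases h : |p.1 - r.1| ≤ 3 / (4 * |a|)
    · exact (hpr h).trans_le (le_max_right _ _)
    · exact (not_le.1 h).trans_le (le_max_left _ _)
  obtain ⟨e, he1, he2⟩ := exists_between (lt_min hd (show 3 / (4 * |a|) < 1 / 5 by linarith))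
  have he3 : e < dist r p := he2.trans_le (min_le_left _ _)
  have he4 : e < 1 / 5 := he2.trans_le (min_le_right _ _)
  have hΓ' : closure Γ ⊆ pr ⁻¹' closure C := by
    apply closure_minimal _ (isClosed_closure.preimage pr_cont)
    exact hΓC.trans (preimage_mono subset_closure)
  obtain ⟨K, hKΓ, hKc, hKn, hpK, hKb, z, hz, hzp⟩ := bump isClosed_closure hΓ.closure
    (subset_closure hp) (subset_closure hr) (hκ0.trans he1) he3
  have hKC : K ⊆ pr ⁻¹' closure C := hKΓ.trans hΓ'
  have hb : ∀ x ∈ K, |x.1 - p.1| ≤ e ∧ |x.2 - p.2| ≤ e := by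
    intro x hx
    have := hKb hx
    rw [mem_closedBall, Prod.dist_eq, max_le_iff, Real.dist_eq, Real.dist_eq] at this
    exact this
  have hw2 : wid K ≤ 2 / 5 := by
    apply wid_le (by norm_num)
    intro x hx y hy
    have h1 := abs_le.1 (hb x hx).1
    have h2 := abs_le.1 (hb y hy).1
    rw [abs_le]
    constructor <;> linarith
  have hh2 : hei K ≤ 2 / 5 := by
    apply hei_le (by norm_num)
    intro x hx y hy
    have h1 := abs_le.1 (hb x hx).2
    have h2 := abs_le.1 (hb y hy).2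
    rw [abs_le]
    constructor <;> linarith
  have hmax : e ≤ max (wid K) (hei K) := by
    rw [← hzp, Prod.dist_eq, Real.dist_eq, Real.dist_eq]
    exact max_le_max (le_wid hKc.isBounded hz hpK) (le_hei hKc.isBounded hz hpK)
  -- every open set which meets `X` meets the closure of `C`
  intro x hx
  rw [← closure_closure, _root_.mem_closure_iff]
  intro V hV hxV
  rcases le_total (hei K) (wid K) with h | h
  · rw [max_eq_left h] at hmax
    obtain ⟨N, hN⟩ := cont_meet ha hKc hKn (he1.trans_le hmax) h hw2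
      (swap_box ha hV ⟨x, hxV, hx⟩)
    obtain ⟨_, ⟨_, ⟨k, hk, rfl⟩, rfl⟩, hv⟩ := hN (N * q) (Nat.le_mul_of_pos_right _ hq)
    refine ⟨_, hv, ?_⟩
    rw [← image_closure_inv hC N]
    exact mem_image_of_mem _ (hKC hk)
  · rw [max_eq_right h] at hmax
    have hxs : Prod.swap x ∈ closure (Ws a) := by
      rw [← swap_X ha]
      exact mem_image_of_mem _ hx
    obtain ⟨N, hN⟩ := cont_meet ha (K := Prod.swap '' K) (V := Prod.swap '' V)
      (hKc.image continuous_swap) (hKn.image _ continuous_swap.continuousOn)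
      (by rw [wid_swap]; exact he1.trans_le hmax) (by rw [wid_swap, hei_swap]; exact h)
      (by rw [wid_swap]; exact hh2)
      (swap_box ha (isOpen_swap hV) ⟨Prod.swap x, mem_image_of_mem _ hxV, hxs⟩)
    obtain ⟨_, ⟨_, ⟨_, ⟨k, hk, rfl⟩, rfl⟩, rfl⟩, v, hv, hv2⟩ :=
      hN (N * q) (Nat.le_mul_of_pos_right _ hq)
    have e1 : pr (Prod.swap k) = Prod.swap (pr k) := rfl
    rw [e1, iter_swap] at hv2
    have e2 : v = (Si a)^[N * q] (pr k) := by
      have := congrArg Prod.swap hv2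
      rwa [Prod.swap_swap, Prod.swap_swap] at this
    refine ⟨v, hv, ?_⟩
    have h5 : pr k ∈ (S a)^[N * q] '' closure C := by
      rw [image_closure_inv hC N]
      exact hKC hk
    obtain ⟨c, hc, hck⟩ := h5
    rw [e2, ← hck, Function.LeftInverse.iterate (TH705.SM.Si_S a) (N * q) c]
    exact hc

end Pool.Agent.H242.TM
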