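import Mathlib

set_option autoImplicit false

/-!
# Growth of the connected subsets of the plane under the standard map
-/

namespace Pool.Agent.H242.TM

open Real Set Metric

/-- the function `2 x + a sin 2 π x` -/
noncomputable def phi (a x : ℝ) : ℝ := 2 * x + a * sin (2 * π * x)

/-- the lift of the standard map to the plane -/
noncomputable def F (a : ℝ) (p : ℝ × ℝ) : ℝ × ℝ := (phi a p.1 - p.2, p.1)

theorem phi_cont (a : ℝ) : Continuous (phi a) := by
  unfold phi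
  fun_prop

theorem F_cont (a : ℝ) : Continuous (F a) := by
  have := phi_cont a
  unfold F
  fun_prop

theorem F_fst (a : ℝ) (p : ℝ × ℝ) : (F a p).1 = phi a p.1 - p.2 := rfl
theorem F_snd (a : ℝ) (p : ℝ × ℝ) : (F a p).2 = p.1 := rfl

theorem one_sub_cos {e : ℝ} (h0 : 0 ≤ e) (h1 : e ≤ 1 / 2) : 4 * e ^ 2 ≤ 1 - cos (π * e) := by
  have hs : √2 * e ≤ sin (π * e / 2) := by
    have hc := strictConcaveOn_sin_Icc.concaveOn
    have m1 : (0:ℝ) ∈ Icc 0 π := ⟨le_rfl, pi_pos.le⟩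
    have m2 : π / 4 ∈ Icc 0 π := ⟨by positivity, by linarith [pi_pos]⟩
    have h := hc.2 m1 m2 (show 0 ≤ 1 - 2 * e by linarith) (show 0 ≤ 2 * e by linarith) (by ring)
    simp only [smul_eq_mul, mul_zero, sin_zero, zero_add, sin_pi_div_four] at h
    have e1 : 2 * e * (π / 4) = π * e / 2 := by ring
    rw [e1] at h
    linarith
  have h2 : cos (π * e) = 1 - 2 * sin (π * e / 2) ^ 2 := by
    have h3 := cos_sq (π * e / 2)
    have h4 := sin_sq_add_cos_sq (π * e / 2)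
    have e1 : 2 * (π * e / 2) = π * e := by ring
    rw [e1] at h3
    linarith
  have h5 : 0 ≤ √2 * e := by positivity
  have h6 : (√2 * e) ^ 2 ≤ sin (π * e / 2) ^ 2 := pow_le_pow_left₀ h5 hs 2
  have h7 : (√2 * e) ^ 2 = 2 * e ^ 2 := by
    rw [mul_pow, Real.sq_sqrt (by norm_num)]
  rw [h2]
  linarith

/-- oscillation of the sine on a short interval -/
theorem sin_osc {u e : ℝ} (h0 : 0 ≤ e) (h1 : e ≤ 1 / 2) :
    4 * e ^ 2 ≤ |sin (2 * π * (u + e / 2)) - sin (2 * π * u)| ∨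
    4 * e ^ 2 ≤ |sin (2 * π * (u + e / 2)) - sin (2 * π * (u + e))| := by
  set m := 2 * π * (u + e / 2) with hm
  have e1 : 2 * π * u = m - π * e := by rw [hm]; ring
  have e2 : 2 * π * (u + e) = m + π * e := by rw [hm]; ring
  rw [e1, e2, sin_sub, sin_add]
  set A := sin m * (1 - cos (π * e)) with hA
  set B := cos m * sin (π * e) with hB
  have e3 : sin m - (sin m * cos (π * e) - cos m * sin (π * e)) = A + B := by rw [hA, hB]; ring
  have e4 : sin m - (sin m * cos (π * e) + cos m * sin (π * e)) = A - B := by rw [hA, hB]; ring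
  rw [e3, e4]
  have hpe : 0 ≤ π * e := by positivity
  have hpe2 : π * e ≤ π / 2 := by nlinarith [pi_pos]
  have hc0 : 0 ≤ cos (π * e) := cos_nonneg_of_mem_Icc ⟨by linarith, hpe2⟩
  have hs0 : 0 ≤ sin (π * e) := sin_nonneg_of_nonneg_of_le_pi hpe (by linarith [pi_pos])
  have hsc := sin_sq_add_cos_sq (π * e)
  have hc1 : cos (π * e) ≤ 1 := cos_le_one _
  have h3 : 1 - cos (π * e) ≤ sin (π * e) := by nlinarith
  have h4 : 1 ≤ |sin m| + |cos m| := by
    have := sin_sq_add_cos_sq m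
    rw [← sq_abs (sin m), ← sq_abs (cos m)] at this
    nlinarith [abs_nonneg (sin m), abs_nonneg (cos m)]
  have h5 := one_sub_cos h0 h1
  have h6 : |A| + |B| ≥ 4 * e ^ 2 := by
    rw [hA, hB, abs_mul, abs_mul, abs_of_nonneg (by linarith : 0 ≤ 1 - cos (π * e)),
      abs_of_nonneg hs0]
    nlinarith [abs_nonneg (sin m), abs_nonneg (cos m)]
  by_contra hcon
  push Not at hcon
  obtain ⟨h7, h8⟩ := hcon
  rw [abs_lt] at h7 h8
  rcases abs_cases A with ⟨h9, _⟩ | ⟨h9, _⟩ <;> rcases abs_cases B with ⟨h10, _⟩ | ⟨h10, _⟩ <;>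
    rw [h9, h10] at h6 <;> linarith

theorem phi_sub_ge (a x y : ℝ) : |a| * |sin (2 * π * x) - sin (2 * π * y)| - 2 * |x - y| ≤
    |phi a x - phi a y| := by
  have e1 : phi a x - phi a y = a * (sin (2 * π * x) - sin (2 * π * y)) - (-(2 * (x - y))) := by
    unfold phi
    ring
  rw [e1]
  have := abs_sub_abs_le_abs_sub (a * (sin (2 * π * x) - sin (2 * π * y))) (-(2 * (x - y)))
  rw [abs_mul, abs_neg, abs_mul, abs_of_nonneg (by norm_num : (0:ℝ) ≤ 2)] at this
  exact this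

/-- oscillation of `phi` on a short interval -/
theorem phi_osc1 (a : ℝ) {u e : ℝ} (h0 : 0 ≤ e) (h1 : e ≤ 1 / 2) :
    ∃ x ∈ Icc u (u + e), ∃ y ∈ Icc u (u + e), 4 * |a| * e ^ 2 - e ≤ |phi a x - phi a y| := by
  have ha := abs_nonneg a
  have hm : u + e / 2 ∈ Icc u (u + e) := ⟨by linarith, by linarith⟩
  rcases sin_osc (u := u) h0 h1 with h | h
  · refine ⟨u + e / 2, hm, u, ⟨le_rfl, by linarith⟩, ?_⟩
    have h2 := phi_sub_ge a (u + e / 2) u
    have e1 : |u + e / 2 - u| = e / 2 := by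
      rw [show u + e / 2 - u = e / 2 by ring, abs_of_nonneg (by linarith)]
    rw [e1] at h2
    nlinarith [mul_le_mul_of_nonneg_left h ha]
  · refine ⟨u + e / 2, hm, u + e, ⟨by linarith, le_rfl⟩, ?_⟩
    have h2 := phi_sub_ge a (u + e / 2) (u + e)
    have e1 : |u + e / 2 - (u + e)| = e / 2 := by
      rw [show u + e / 2 - (u + e) = -(e / 2) by ring, abs_neg, abs_of_nonneg (by linarith)]
    rw [e1] at h2
    nlinarith [mul_le_mul_of_nonneg_left h ha]

theorem phi_osc2 (a : ℝ) {u e : ℝ} (h1 : 1 / 2 ≤ e) :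
    ∃ x ∈ Icc u (u + e), ∃ y ∈ Icc u (u + e), |a| - 1 / 2 ≤ |phi a x - phi a y| := by
  obtain ⟨x, hx, y, hy, h⟩ := phi_osc1 a (u := u) (e := 1 / 2) (by norm_num) le_rfl
  exact ⟨x, ⟨hx.1, by linarith [hx.2]⟩, y, ⟨hy.1, by linarith [hy.2]⟩, by linarith⟩

theorem exists_crit (a : ℝ) (u : ℝ) :
    (∃ x ∈ Icc u (u + 1), a * sin (2 * π * x) = |a|) ∧
    (∃ x ∈ Icc u (u + 1), a * sin (2 * π * x) = -|a|) := by
  have key : ∀ t : ℝ, ∃ x ∈ Icc u (u + 1), ∃ k : ℤ, x = t + k := by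
    intro t
    refine ⟨u + Int.fract (t - u), ⟨by linarith [Int.fract_nonneg (t - u)],
      by linarith [(Int.fract_lt_one (t - u)).le]⟩, -⌊t - u⌋, ?_⟩
    have := Int.floor_add_fract (t - u)
    push_cast
    linarith
  have s1 : ∃ x ∈ Icc u (u + 1), sin (2 * π * x) = 1 := by
    obtain ⟨x, hx, k, hk⟩ := key (1 / 4)
    refine ⟨x, hx, ?_⟩
    rw [hk, show 2 * π * (1 / 4 + (k : ℝ)) = π / 2 + k * (2 * π) by ring,
      sin_add_int_mul_two_pi, sin_pi_div_two]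
  have s2 : ∃ x ∈ Icc u (u + 1), sin (2 * π * x) = -1 := by
    obtain ⟨x, hx, k, hk⟩ := key (-1 / 4)
    refine ⟨x, hx, ?_⟩
    rw [hk, show 2 * π * (-1 / 4 + (k : ℝ)) = -(π / 2) + k * (2 * π) by ring,
      sin_add_int_mul_two_pi, sin_neg, sin_pi_div_two]
  obtain ⟨x, hx, hx1⟩ := s1
  obtain ⟨y, hy, hy1⟩ := s2
  rcases abs_cases a with ⟨h, _⟩ | ⟨h, _⟩
  · exact ⟨⟨x, hx, by rw [hx1, h]; ring⟩, ⟨y, hy, by rw [hy1, h]; ring⟩⟩
  · exact ⟨⟨y, hy, by rw [hy1, h]; ring⟩, ⟨x, hx, by rw [hx1, h]; ring⟩⟩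

theorem phi_osc3 (a : ℝ) {u e : ℝ} (h1 : 1 ≤ e) :
    ∃ x ∈ Icc u (u + e), ∃ y ∈ Icc u (u + e), 2 * |a| + 2 * e - 4 ≤ |phi a x - phi a y| := by
  obtain ⟨x, hx, hx1⟩ := (exists_crit a (u + e - 1)).1
  obtain ⟨y, hy, hy1⟩ := (exists_crit a u).2
  refine ⟨x, ⟨by linarith [hx.1], by linarith [hx.2]⟩, y, ⟨hy.1, by linarith [hy.2]⟩, ?_⟩
  refine le_trans ?_ (le_abs_self _)
  unfold phi
  rw [hx1, hy1]
  linarith [hx.1, hy.2]

/-- the width of a set -/
noncomputable def wid (K : Set (ℝ × ℝ)) : ℝ := diam (Prod.fst '' K)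

/-- the height of a set -/
noncomputable def hei (K : Set (ℝ × ℝ)) : ℝ := diam (Prod.snd '' K)

theorem wid_nonneg (K : Set (ℝ × ℝ)) : 0 ≤ wid K := diam_nonneg

theorem le_wid {K : Set (ℝ × ℝ)} (hK : Bornology.IsBounded K) {p q : ℝ × ℝ} (hp : p ∈ K)
    (hq : q ∈ K) : |p.1 - q.1| ≤ wid K := by
  have h : Bornology.IsBounded (Prod.fst '' K) := hK.image_fst
  have := dist_le_diam_of_mem h (mem_image_of_mem _ hp) (mem_image_of_mem _ hq)
  rwa [Real.dist_eq] at this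

theorem le_hei {K : Set (ℝ × ℝ)} (hK : Bornology.IsBounded K) {p q : ℝ × ℝ} (hp : p ∈ K)
    (hq : q ∈ K) : |p.2 - q.2| ≤ hei K := by
  have h : Bornology.IsBounded (Prod.snd '' K) := hK.image_snd
  have := dist_le_diam_of_mem h (mem_image_of_mem _ hp) (mem_image_of_mem _ hq)
  rwa [Real.dist_eq] at this

theorem wid_le {K : Set (ℝ × ℝ)} {c : ℝ} (hc : 0 ≤ c) (h : ∀ p ∈ K, ∀ q ∈ K, |p.1 - q.1| ≤ c) :
    wid K ≤ c := by
  apply diam_le_of_forall_dist_le hc
  rintro _ ⟨p, hp, rfl⟩ _ ⟨q, hq, rfl⟩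
  rw [Real.dist_eq]
  exact h p hp q hq

theorem hei_le {K : Set (ℝ × ℝ)} {c : ℝ} (hc : 0 ≤ c) (h : ∀ p ∈ K, ∀ q ∈ K, |p.2 - q.2| ≤ c) :
    hei K ≤ c := by
  apply diam_le_of_forall_dist_le hc
  rintro _ ⟨p, hp, rfl⟩ _ ⟨q, hq, rfl⟩
  rw [Real.dist_eq]
  exact h p hp q hq

theorem fst_image {K : Set (ℝ × ℝ)} (hK : IsCompact K) (hc : IsConnected K) :
    ∃ u, Prod.fst '' K = Icc u (u + wid K) := by
  have h1 : IsCompact (Prod.fst '' K) := hK.image continuous_fst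
  have h2 : IsConnected (Prod.fst '' K) := hc.image _ continuous_fst.continuousOn
  have h3 := eq_Icc_of_connected_compact h2 h1
  have h4 : sInf (Prod.fst '' K) ≤ sSup (Prod.fst '' K) := by
    obtain ⟨x, hx⟩ := h2.nonempty
    rw [h3] at hx
    exact hx.1.trans hx.2
  refine ⟨sInf (Prod.fst '' K), ?_⟩
  have h5 : wid K = sSup (Prod.fst '' K) - sInf (Prod.fst '' K) := by
    unfold wid
    rw [h3, Real.diam_Icc h4, ← h3]
  rw [h5]
  rw [show sInf (Prod.fst '' K) + (sSup (Prod.fst '' K) - sInf (Prod.fst '' K)) =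
    sSup (Prod.fst '' K) by ring]
  exact h3

theorem hei_F (a : ℝ) (K : Set (ℝ × ℝ)) : hei (F a '' K) = wid K := by
  unfold hei wid
  rw [image_image]
  rfl

theorem step_ge (a : ℝ) {K : Set (ℝ × ℝ)} (hK : IsCompact K) {x y : ℝ} (hx : x ∈ Prod.fst '' K)
    (hy : y ∈ Prod.fst '' K) : |phi a x - phi a y| - hei K ≤ wid (F a '' K) := by
  obtain ⟨p, hp, rfl⟩ := hx
  obtain ⟨q, hq, rfl⟩ := hy
  have h1 := le_hei hK.isBounded hp hq
  have h2 := le_wid (hK.image (F_cont a)).isBounded (mem_image_of_mem (F a) hp)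
    (mem_image_of_mem (F a) hq)
  rw [F_fst, F_fst] at h2
  have e1 : phi a p.1 - p.2 - (phi a q.1 - q.2) = (phi a p.1 - phi a q.1) - (p.2 - q.2) := by ring
  rw [e1] at h2
  have := abs_sub_abs_le_abs_sub (phi a p.1 - phi a q.1) (p.2 - q.2)
  linarith

theorem grow1 (a : ℝ) {K : Set (ℝ × ℝ)} (hK : IsCompact K) (hc : IsConnected K)
    (hw : wid K ≤ 1 / 2) : 4 * |a| * wid K ^ 2 - wid K - hei K ≤ wid (F a '' K) := by
  obtain ⟨u, hu⟩ := fst_image hK hc
  obtain ⟨x, hx, y, hy, h⟩ := phi_osc1 a (u := u) (wid_nonneg K) hw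
  rw [← hu] at hx hy
  linarith [step_ge a hK hx hy]

theorem grow2 (a : ℝ) {K : Set (ℝ × ℝ)} (hK : IsCompact K) (hc : IsConnected K)
    (hw : 1 / 2 ≤ wid K) : |a| - 1 / 2 - hei K ≤ wid (F a '' K) := by
  obtain ⟨u, hu⟩ := fst_image hK hc
  obtain ⟨x, hx, y, hy, h⟩ := phi_osc2 a (u := u) hw
  rw [← hu] at hx hy
  linarith [step_ge a hK hx hy]

theorem grow3 (a : ℝ) {K : Set (ℝ × ℝ)} (hK : IsCompact K) (hc : IsConnected K)
    (hw : 1 ≤ wid K) : 2 * |a| + 2 * wid K - 4 - hei K ≤ wid (F a '' K) := by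
  obtain ⟨u, hu⟩ := fst_image hK hc
  obtain ⟨x, hx, y, hy, h⟩ := phi_osc3 a (u := u) hw
  rw [← hu] at hx hy
  linarith [step_ge a hK hx hy]

/-- a wide compact connected set becomes wider -/
theorem incr {a : ℝ} (ha : 5 / 2 < |a|) {K : Set (ℝ × ℝ)} (hK : IsCompact K) (hc : IsConnected K)
    (hw : 3 / (4 * |a|) < wid K) (hh : hei K ≤ wid K) : wid K < wid (F a '' K) := by
  have ha0 : 0 < |a| := by linarith
  rw [div_lt_iff₀ (by positivity)] at hw
  have hw0 := wid_nonneg K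
  rcases le_total (wid K) (1 / 2) with h | h
  · have := grow1 a hK hc h
    nlinarith
  · rcases le_total (wid K) 1 with h1 | h1
    · have := grow2 a hK hc h
      linarith
    · have := grow3 a hK hc h1
      linarith

theorem iter_image_succ (a : ℝ) (n : ℕ) (K : Set (ℝ × ℝ)) :
    (F a)^[n + 1] '' K = F a '' ((F a)^[n] '' K) := by
  rw [Function.iterate_succ', image_comp]

theorem incr_iter {a : ℝ} (ha : 5 / 2 < |a|) {K : Set (ℝ × ℝ)} (hK : IsCompact K)
    (hc : IsConnected K) (hw : 3 / (4 * |a|) < wid K) (hh : hei K ≤ wid K) (n : ℕ) :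
    hei ((F a)^[n] '' K) ≤ wid ((F a)^[n] '' K) ∧ wid K ≤ wid ((F a)^[n] '' K) ∧
      wid K < wid ((F a)^[n + 1] '' K) := by
  induction n with
  | zero =>
    refine ⟨by simpa using hh, by simp, ?_⟩
    simpa using incr ha hK hc hw hh
  | succ n ih =>
    obtain ⟨h1, h2, h3⟩ := ih
    have hKn : IsCompact ((F a)^[n] '' K) := hK.image ((F_cont a).iterate n)
    have hcn : IsConnected ((F a)^[n] '' K) := hc.image _ ((F_cont a).iterate n).continuousOn
    have hKn1 : IsCompact ((F a)^[n + 1] '' K) := hK.image ((F_cont a).iterate (n + 1))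
    have hcn1 : IsConnected ((F a)^[n + 1] '' K) :=
      hc.image _ ((F_cont a).iterate (n + 1)).continuousOn
    have h4 := incr ha hKn hcn (hw.trans_le h2) h1
    rw [← iter_image_succ] at h4
    have h5 : hei ((F a)^[n + 1] '' K) ≤ wid ((F a)^[n + 1] '' K) := by
      have := hei_F a ((F a)^[n] '' K)
      rw [← iter_image_succ] at this
      rw [this]
      exact h4.le
    refine ⟨h5, h3.le, ?_⟩
    have h6 := incr ha hKn1 hcn1 (hw.trans h3) h5
    rw [← iter_image_succ] at h6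
    exact h3.trans h6

theorem wid_translate (K : Set (ℝ × ℝ)) (v : ℝ × ℝ) : wid ((fun p => p + v) '' K) = wid K := by
  unfold wid
  rw [image_image]
  have : (fun x : ℝ × ℝ => (x + v).1) '' K = (fun t => t + v.1) '' (Prod.fst '' K) := by
    rw [image_image]
    rfl
  rw [this]
  exact (IsometryEquiv.addRight v.1).isometry.diam_image _

theorem hei_translate (K : Set (ℝ × ℝ)) (v : ℝ × ℝ) : hei ((fun p => p + v) '' K) = hei K := by
  unfold hei
  rw [image_image]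
  have : (fun x : ℝ × ℝ => (x + v).2) '' K = (fun t => t + v.2) '' (Prod.snd '' K) := by
    rw [image_image]
    rfl
  rw [this]
  exact (IsometryEquiv.addRight v.2).isometry.diam_image _

/-- a compact connected set which is periodic up to a translation and not higher than wide -/
theorem periodic_compact {a : ℝ} (ha : 5 / 2 < |a|) {K : Set (ℝ × ℝ)} (hK : IsCompact K)
    (hc : IsConnected K) {q : ℕ} (hq : 1 ≤ q) {v : ℝ × ℝ}
    (h : (F a)^[q] '' K = (fun p => p + v) '' K) (hh : hei K ≤ wid K) :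
    wid K ≤ 3 / (4 * |a|) := by
  by_contra hcon
  have h1 := (incr_iter ha hK hc (not_le.1 hcon) hh (q - 1)).2.2
  rw [Nat.sub_add_cancel hq, h, wid_translate] at h1
  exact lt_irrefl _ h1

end Pool.Agent.H242.TM
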