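import Pool.Agent.H242.TM.Top

set_option autoImplicit false

/-!
# Islands
-/

namespace Pool.Agent.H242.TM

open Real Set Metric Filter Topology MeasureTheory
open Pool.Agent.TH705.SM (T2 S Si)

/-! ### periodic connected sets of the plane -/

theorem F_int (a : ℝ) (p : ℝ × ℝ) (k l : ℤ) :
    F a (p + ((k : ℝ), (l : ℝ))) = F a p + (((2 * k - l : ℤ) : ℝ), (k : ℝ)) := by
  unfold F phi
  ext
  · simp only [Prod.fst_add, Prod.snd_add]
    rw [show 2 * π * (p.1 + k) = 2 * π * p.1 + k * (2 * π) by ring, sin_add_int_mul_two_pi]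
    push_cast
    ring
  · simp only [Prod.fst_add, Prod.snd_add]

theorem F_iter_int (a : ℝ) (n : ℕ) (k l : ℤ) : ∃ k' l' : ℤ, ∀ p,
    (F a)^[n] (p + ((k : ℝ), (l : ℝ))) = (F a)^[n] p + ((k' : ℝ), (l' : ℝ)) := by
  induction n with
  | zero => exact ⟨k, l, fun p => rfl⟩
  | succ n ih =>
    obtain ⟨k', l', h⟩ := ih
    refine ⟨2 * k' - l', k', fun p => ?_⟩
    rw [Function.iterate_succ_apply', h, F_int, Function.iterate_succ_apply']

theorem F_swap (a : ℝ) (p : ℝ × ℝ) : F a (Prod.swap (F a (Prod.swap p))) = p := by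
  unfold F
  simp

theorem F_iter_swap (a : ℝ) (n : ℕ) (p : ℝ × ℝ) :
    (F a)^[n] (Prod.swap ((F a)^[n] (Prod.swap p))) = p := by
  induction n generalizing p with
  | zero => simp
  | succ n ih =>
    rw [Function.iterate_succ_apply]
    have h1 : F a (Prod.swap ((F a)^[n + 1] (Prod.swap p))) = Prod.swap ((F a)^[n] (Prod.swap p)) := by
      rw [Function.iterate_succ_apply']
      have := F_swap a (Prod.swap ((F a)^[n] (Prod.swap p)))
      rwa [Prod.swap_swap] at this
    rw [h1, ih]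

theorem wid_swap (K : Set (ℝ × ℝ)) : wid (Prod.swap '' K) = hei K := by
  unfold wid hei
  rw [image_image]
  rfl

theorem hei_swap (K : Set (ℝ × ℝ)) : hei (Prod.swap '' K) = wid K := by
  unfold wid hei
  rw [image_image]
  rfl

theorem periodic_swap {a : ℝ} {K : Set (ℝ × ℝ)} {q : ℕ} {k l : ℤ}
    (h : (F a)^[q] '' K = (fun p => p + ((k : ℝ), (l : ℝ))) '' K) :
    ∃ v : ℝ × ℝ, (F a)^[q] '' (Prod.swap '' K) = (fun p => p + v) '' (Prod.swap '' K) := by
  obtain ⟨k', l', h'⟩ := F_iter_int a q l k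
  refine ⟨-((k' : ℝ), (l' : ℝ)), ?_⟩
  -- `swap '' K = F^q '' (swap '' (K + v))`
  have h1 : Prod.swap '' K = (F a)^[q] '' (Prod.swap '' ((F a)^[q] '' K)) := by
    rw [image_image, image_image]
    apply image_congr
    intro p _
    have := F_iter_swap a q (Prod.swap p)
    rw [Prod.swap_swap] at this
    exact this.symm
  rw [h] at h1
  have h2 : Prod.swap '' ((fun p : ℝ × ℝ => p + ((k : ℝ), (l : ℝ))) '' K) =
      (fun p : ℝ × ℝ => p + ((l : ℝ), (k : ℝ))) '' (Prod.swap '' K) := by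
    rw [image_image, image_image]
    rfl
  rw [h2] at h1
  have h3 : (F a)^[q] '' ((fun p : ℝ × ℝ => p + ((l : ℝ), (k : ℝ))) '' (Prod.swap '' K)) =
      (fun p : ℝ × ℝ => p + ((k' : ℝ), (l' : ℝ))) '' ((F a)^[q] '' (Prod.swap '' K)) := by
    rw [image_image, image_image (g := fun p : ℝ × ℝ => p + ((k' : ℝ), (l' : ℝ)))]
    exact image_congr (fun p _ => h' p)
  rw [h3] at h1
  conv_rhs => rw [h1]
  rw [← image_comp (fun p : ℝ × ℝ => p + -((k' : ℝ), (l' : ℝ)))]
  have e : (fun x : ℝ × ℝ => x + ((k' : ℝ), (l' : ℝ)) + -((k' : ℝ), (l' : ℝ))) = id := by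
    funext x
    exact add_neg_cancel_right _ _
  have e' : ((fun p : ℝ × ℝ => p + -((k' : ℝ), (l' : ℝ))) ∘ fun p => p + ((k' : ℝ), (l' : ℝ))) =
      id := e
  rw [e', image_id]

/-- **periodic connected sets are small** -/
theorem periodic_small {a : ℝ} (ha : 5 / 2 < |a|) {C : Set (ℝ × ℝ)} (hC : IsPreconnected C)
    (hb : Bornology.IsBounded C) {q : ℕ} (hq : 1 ≤ q) {k l : ℤ}
    (h : (F a)^[q] '' C = (fun p => p + ((k : ℝ), (l : ℝ))) '' C) {x y : ℝ × ℝ} (hx : x ∈ C)
    (hy : y ∈ C) : |x.1 - y.1| ≤ 3 / (4 * |a|) ∧ |x.2 - y.2| ≤ 3 / (4 * |a|) := by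
  set K := closure C with hK
  have hKc : IsCompact K := hb.isCompact_closure
  have hKn : IsConnected K := ⟨⟨x, subset_closure hx⟩, hC.closure⟩
  have hcl : ∀ f : ℝ × ℝ → ℝ × ℝ, Continuous f → f '' K = closure (f '' C) := by
    intro f hf
    apply Subset.antisymm (image_closure_subset_closure_image hf)
    exact closure_minimal (image_mono subset_closure) (hKc.image hf).isClosed
  have h1 : (F a)^[q] '' K = (fun p => p + ((k : ℝ), (l : ℝ))) '' K := by
    rw [hcl _ ((F_cont a).iterate q), hcl _ (by fun_prop), h]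
  have hwx := le_wid hKc.isBounded (subset_closure hx) (subset_closure hy)
  have hhx := le_hei hKc.isBounded (subset_closure hx) (subset_closure hy)
  rcases le_total (hei K) (wid K) with h2 | h2
  · have h3 := periodic_compact ha hKc hKn hq h1 h2
    exact ⟨hwx.trans h3, hhx.trans (h2.trans h3)⟩
  · obtain ⟨v, hv⟩ := periodic_swap h1
    have h3 := periodic_compact ha (hKc.image continuous_swap)
      (hKn.image _ continuous_swap.continuousOn) hq hv (by rw [hei_swap, wid_swap]; exact h2)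
    rw [wid_swap] at h3
    exact ⟨hwx.trans (h2.trans h3), hhx.trans h3⟩

/-! ### small domains stay away from the fixed point -/

theorem ws_of_bdd {a : ℝ} (ha : 5 / 2 ≤ |a|) {p : ℝ × ℝ} (h : ∀ n, |((F a)^[n] p).1| ≤ 1 / 4) :
    pr p ∈ Ws a := by
  have hlim : Tendsto (fun n : ℕ => ((F a)^[n] p).1) atTop (𝓝 0) :=
    conv_zero (a := a) (by linarith) h (fun n => iter_fst a n _)
  have hlim2 : Tendsto (fun n : ℕ => (F a)^[n] p) atTop (𝓝 (0, 0)) := by
    apply Tendsto.prodMk_nhds hlim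
    rw [← tendsto_add_atTop_iff_nat 1]
    simp only [iter_snd]
    exact hlim
  have h3 := (pr_cont.tendsto (0, 0)).comp hlim2
  rw [pr_zero] at h3
  refine h3.congr (fun n => ?_)
  simp only [Function.comp]
  rw [pr_iter]

theorem pr_add_int (p : ℝ × ℝ) (k l : ℤ) : pr (p + ((k : ℝ), (l : ℝ))) = pr p := by
  have := pr_sub_int (p + ((k : ℝ), (l : ℝ))) k l
  rw [add_sub_cancel_right] at this
  exact this.symm

theorem pr_eq {x y : ℝ × ℝ} (h : pr x = pr y) : ∃ k l : ℤ, y = x + ((k : ℝ), (l : ℝ)) := by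
  unfold pr at h
  rw [Prod.mk.injEq] at h
  obtain ⟨h1, h2⟩ := h
  have key : ∀ u v : ℝ, (u : UnitAddCircle) = (v : UnitAddCircle) → ∃ k : ℤ, v = u + k := by
    intro u v huv
    have h3 : ((v - u : ℝ) : UnitAddCircle) = 0 := by
      rw [AddCircle.coe_sub, huv, sub_self]
    rw [AddCircle.coe_eq_zero_iff] at h3
    obtain ⟨k, hk⟩ := h3
    refine ⟨k, ?_⟩
    rw [zsmul_eq_mul, mul_one] at hk
    linarith
  obtain ⟨k, hk⟩ := key _ _ h1
  obtain ⟨l, hl⟩ := key _ _ h2
  exact ⟨k, l, Prod.ext hk hl⟩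

/-- a component of the preimage of a domain is mapped onto the domain -/
theorem comp_onto {D : Set T2} (hDo : IsOpen D) (hDc : IsPreconnected D) {p : ℝ × ℝ}
    (hp : pr p ∈ D) : D ⊆ pr '' (connectedComponentIn (pr ⁻¹' D) p) := by
  have hU : IsOpen (pr ⁻¹' D) := hDo.preimage pr_cont
  set C := connectedComponentIn (pr ⁻¹' D) p with hC
  have hpC : p ∈ C := mem_connectedComponentIn hp
  by_contra hcon
  rw [not_subset] at hcon
  obtain ⟨z, hzD, hz⟩ := hcon
  -- the other components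
  set O₂ : Set T2 := ⋃ r ∈ {r | r ∈ pr ⁻¹' D ∧ pr r ∉ pr '' C},
    pr '' (connectedComponentIn (pr ⁻¹' D) r) with hO₂
  have hO1 : IsOpen (pr '' C) := pr_isOpenMap _ hU.connectedComponentIn
  have hO2 : IsOpen O₂ := isOpen_biUnion fun r _ => pr_isOpenMap _ hU.connectedComponentIn
  obtain ⟨w, hwD, hw1, hw2⟩ := hDc (pr '' C) O₂ hO1 hO2 (by
    intro d hd
    by_cases h : d ∈ pr '' C
    · exact Or.inl h
    · obtain ⟨r, rfl⟩ := pr_surj d
      exact Or.inr (mem_biUnion (show r ∈ {r | r ∈ pr ⁻¹' D ∧ pr r ∉ pr '' C} from ⟨hd, h⟩)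
        (mem_image_of_mem _ (mem_connectedComponentIn hd))))
    ⟨pr p, hp, mem_image_of_mem _ hpC⟩ (by
      obtain ⟨r, rfl⟩ := pr_surj z
      exact ⟨pr r, hzD, mem_biUnion (show r ∈ {r | r ∈ pr ⁻¹' D ∧ pr r ∉ pr '' C} from ⟨hzD, hz⟩)
        (mem_image_of_mem _ (mem_connectedComponentIn hzD))⟩)
  obtain ⟨c, hc, rfl⟩ := hw1
  rw [hO₂, mem_iUnion₂] at hw2
  obtain ⟨r, ⟨hrD, hrC⟩, c', hc', hcc'⟩ := hw2
  apply hrC
  obtain ⟨k, l, hkl⟩ := pr_eq hcc'
  -- the translate of the component of `r` is connected and meets `C`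
  have h1 : IsPreconnected ((fun x : ℝ × ℝ => x + ((k : ℝ), (l : ℝ))) ''
      connectedComponentIn (pr ⁻¹' D) r) :=
    isPreconnected_connectedComponentIn.image _ (by fun_prop)
  have h2 : (fun x : ℝ × ℝ => x + ((k : ℝ), (l : ℝ))) '' connectedComponentIn (pr ⁻¹' D) r ⊆
      pr ⁻¹' D := by
    rintro _ ⟨x, hx, rfl⟩
    rw [mem_preimage, pr_add_int]
    have hx' : x ∈ pr ⁻¹' D := connectedComponentIn_subset _ _ hx
    exact hx'
  have h3 : c ∈ (fun x : ℝ × ℝ => x + ((k : ℝ), (l : ℝ))) '' connectedComponentIn (pr ⁻¹' D) r :=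
    ⟨c', hc', hkl.symm⟩
  have h4 := h1.subset_connectedComponentIn h3 h2
  rw [← connectedComponentIn_eq hc] at h4
  refine ⟨r + ((k : ℝ), (l : ℝ)), h4 ⟨r, mem_connectedComponentIn hrD, rfl⟩, pr_add_int r k l⟩

theorem exists_lift_near {z : T2} {ε : ℝ} (h : dist z ((0 : UnitAddCircle), (0 : UnitAddCircle)) < ε) :
    ∃ p : ℝ × ℝ, pr p = z ∧ |p.1| < ε ∧ |p.2| < ε := by
  obtain ⟨r, rfl⟩ := pr_surj z
  rw [Prod.dist_eq, max_lt_iff] at h
  refine ⟨r - ((round r.1 : ℝ), (round r.2 : ℝ)), pr_sub_int _ _ _, ?_, ?_⟩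
  · have h1 := h.1
    change dist (r.1 : UnitAddCircle) 0 < ε at h1
    rw [dist_zero_right, UnitAddCircle.norm_eq] at h1
    exact h1
  · have h1 := h.2
    change dist (r.2 : UnitAddCircle) 0 < ε at h1
    rw [dist_zero_right, UnitAddCircle.norm_eq] at h1
    exact h1

/-- a domain all of whose images are small stays away from the fixed point -/
theorem not_near {a : ℝ} (ha : 5 ≤ |a|) {D : Set T2} (hDo : IsOpen D) (hDc : IsPreconnected D)
    (hs : ∀ n, Small a ((S a)^[n] '' D)) :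
    ((0 : UnitAddCircle), (0 : UnitAddCircle)) ∉ closure D := by
  intro hO
  have hκ := const_lt ha
  have hs0 : Small a D := by simpa using hs 0
  obtain ⟨z₀, hz₀, hd₀⟩ := Metric.mem_closure_iff.1 hO (1 / 100) (by norm_num)
  rw [dist_comm] at hd₀
  obtain ⟨p₀, rfl, hp1, hp2⟩ := exists_lift_near hd₀
  set C := connectedComponentIn (pr ⁻¹' D) p₀ with hC
  have hpC : p₀ ∈ C := mem_connectedComponentIn hz₀
  have hCD : C ⊆ pr ⁻¹' D := connectedComponentIn_subset _ _
  have hCc : IsPreconnected C := isPreconnected_connectedComponentIn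
  have key : ∀ n, |((F a)^[n] p₀).1| ≤ 1 / 4 := by
    intro n
    -- continuity at the fixed point
    have hF0 : (F a)^[n] (0, 0) = (0, 0) := by
      apply Function.iterate_fixed
      unfold F phi
      simp
    have hcont : Tendsto ((F a)^[n]) (𝓝 (0, 0)) (𝓝 (0, 0)) := by
      have := ((F_cont a).iterate n).tendsto (0, 0)
      rwa [hF0] at this
    obtain ⟨δ, hδ0, hδ⟩ := Metric.tendsto_nhds_nhds.1 hcont (1 / 100) (by norm_num)
    obtain ⟨z₁, hz₁, hd₁⟩ := Metric.mem_closure_iff.1 hO (min δ (1 / 100))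
      (lt_min hδ0 (by norm_num))
    rw [dist_comm] at hd₁
    obtain ⟨p₁, rfl, hp3, hp4⟩ := exists_lift_near hd₁
    obtain ⟨c, hc, hcz⟩ := comp_onto hDo hDc hz₀ hz₁
    obtain ⟨k, l, hkl⟩ := pr_eq hcz.symm
    have h1 := hs0 C hCc hCD c hc p₀ hpC
    have hm := min_le_right δ (1 / 100 : ℝ)
    have hmδ := min_le_left δ (1 / 100 : ℝ)
    have hk : k = 0 := by
      apply int_eq
      rw [hkl] at h1
      have h2 := h1.1
      simp only [Prod.fst_add] at h2
      have h3 := abs_le.1 h2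
      have h4 := abs_lt.1 hp1
      have h5 := abs_lt.1 hp3
      rw [Int.cast_zero, sub_zero, abs_lt]
      constructor <;> linarith
    have hl : l = 0 := by
      apply int_eq
      rw [hkl] at h1
      have h2 := h1.2
      simp only [Prod.snd_add] at h2
      have h3 := abs_le.1 h2
      have h4 := abs_lt.1 hp2
      have h5 := abs_lt.1 hp4
      rw [Int.cast_zero, sub_zero, abs_lt]
      constructor <;> linarith
    have hc1 : c = p₁ := by
      rw [hkl, hk, hl]
      simp
    rw [hc1] at hc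
    have h2 : |((F a)^[n] p₁).1| < 1 / 100 := by
      have h3 : dist p₁ ((0:ℝ), (0:ℝ)) < δ := by
        rw [Prod.dist_eq, max_lt_iff, Real.dist_eq, Real.dist_eq]
        simp only [sub_zero]
        exact ⟨hp3.trans_le hmδ, hp4.trans_le hmδ⟩
      have h4 := hδ h3
      rw [Prod.dist_eq, max_lt_iff, Real.dist_eq] at h4
      simpa using h4.1
    have h3 := (hs n ((F a)^[n] '' C) (hCc.image _ ((F_cont a).iterate n).continuousOn) (by
      rintro _ ⟨x, hx, rfl⟩
      rw [mem_preimage, pr_iter]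
      exact mem_image_of_mem _ (hCD hx)) _ (mem_image_of_mem _ hpC) _ (mem_image_of_mem _ hc)).1
    have h4 := abs_le.1 h3
    have h5 := abs_lt.1 h2
    rw [abs_le]
    constructor <;> linarith
  have hws : pr p₀ ∈ Ws a := ws_of_bdd (by linarith) key
  obtain ⟨N, hN⟩ := open_box ha hDo ⟨_, hz₀, hws⟩
  exact not_small_of_box ha (hN N le_rfl) (hs N)

/-! ### islands -/

/-- an island: a small periodic domain -/
structure Island (a : ℝ) (D : Set T2) : Prop where
  isOpen : IsOpen D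
  isConnected : IsConnected D
  periodic : ∃ q : ℕ, 1 ≤ q ∧ (S a)^[q] '' D = D
  small : Small a D

theorem image_mul {a : ℝ} {D : Set T2} {q : ℕ} (h : (S a)^[q] '' D = D) (m : ℕ) :
    (S a)^[m * q] '' D = D := by
  induction m with
  | zero => simp
  | succ m ih => rw [Nat.succ_mul, image_add, h, ih]

theorem image_mod {a : ℝ} {D : Set T2} {q : ℕ} (h : (S a)^[q] '' D = D) (n : ℕ) :
    (S a)^[n] '' D = (S a)^[n % q] '' D := by
  conv_lhs => rw [← Nat.mod_add_div n q]
  rw [image_add, mul_comm, image_mul h]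

theorem Island.small_image {a : ℝ} (ha : 5 ≤ |a|) {D : Set T2} (h : Island a D) (n : ℕ) :
    Small a ((S a)^[n] '' D) := by
  by_contra hcon
  obtain ⟨q, hq, hD⟩ := h.periodic
  obtain ⟨N, hN⟩ := box_of_not_small ha (isOpen_image a n h.isOpen) hcon
  obtain ⟨m, hm1, hm2⟩ : ∃ m ≥ N, ∃ j, m + n = j * q := by
    refine ⟨(N + n) * q - n, ?_, N + n, ?_⟩
    · have : N + n ≤ (N + n) * q := Nat.le_mul_of_pos_right _ hq
      omega
    · have : N + n ≤ (N + n) * q := Nat.le_mul_of_pos_right _ hq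
      omega
  obtain ⟨j, hj⟩ := hm2
  have h1 := hN m hm1
  rw [← image_add, hj, image_mul hD] at h1
  exact not_small_of_box ha h1 h.small

/-- the fixed point is not in the closure of the orbit of an island -/
theorem Island.not_mem {a : ℝ} (ha : 5 ≤ |a|) {D : Set T2} (h : Island a D) :
    ((0 : UnitAddCircle), (0 : UnitAddCircle)) ∉ closure (⋃ n : ℕ, (S a)^[n] '' D) := by
  obtain ⟨q, hq, hD⟩ := h.periodic
  have h1 : (⋃ n : ℕ, (S a)^[n] '' D) = ⋃ n ∈ Finset.range q, (S a)^[n] '' D := by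
    apply Subset.antisymm
    · apply iUnion_subset
      intro n
      rw [image_mod hD]
      exact subset_biUnion_of_mem (u := fun n => (S a)^[n] '' D)
        (Finset.mem_coe.2 (Finset.mem_range.2 (Nat.mod_lt _ hq)))
    · exact iUnion₂_subset fun n _ => subset_iUnion (fun n => (S a)^[n] '' D) n
  rw [h1, Finset.closure_biUnion]
  intro hmem
  rw [mem_iUnion₂] at hmem
  obtain ⟨n, _, hn⟩ := hmem
  refine not_near ha (isOpen_image a n h.isOpen)
    (h.isConnected.isPreconnected.image _ ((TH705.SM.S_cont a).iterate n).continuousOn) ?_ hn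
  intro m
  rw [← image_add]
  exact h.small_image ha _

theorem lc_circle : LocallyConnectedSpace UnitAddCircle :=
  (QuotientAddGroup.isQuotientMap_mk (N := AddSubgroup.zmultiples (1:ℝ))).isCoinducing.locallyConnectedSpace

theorem lc_torus : LocallyConnectedSpace T2 := by
  have := lc_circle
  infer_instance

/-- the components of the complement of `X` are islands -/
theorem island_comp {a : ℝ} (ha : 5 ≤ |a|) {p : T2} (hp : p ∉ closure (Ws a)) :
    Island a (connectedComponentIn (closure (Ws a))ᶜ p) := by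
  have := lc_torus
  set X := closure (Ws a) with hX
  have hXo : IsOpen Xᶜ := isClosed_closure.isOpen_compl
  set D := connectedComponentIn Xᶜ p with hD
  have hDo : IsOpen D := hXo.connectedComponentIn
  have hpD : p ∈ D := mem_connectedComponentIn hp
  have hDX : D ⊆ Xᶜ := connectedComponentIn_subset _ _
  have hDc : IsPreconnected D := isPreconnected_connectedComponentIn
  have himX : ∀ m, (S a)^[m] '' Xᶜ = Xᶜ := by
    intro m
    induction m with
    | zero => simp
    | succ m ih => rw [image_succ, ih, image_compl_X]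
  refine ⟨hDo, ⟨⟨p, hpD⟩, hDc⟩, ?_, small_of_disjoint ha hDo
    (disjoint_left.2 fun x hx hx2 => hDX hx hx2)⟩
  obtain ⟨x, hx, m, hm, hmx⟩ := (TH705.SM.S_mp a).conservative.exists_mem_iterate_mem
    hDo.measurableSet.nullMeasurableSet (hDo.measure_pos _ ⟨p, hpD⟩).ne'
  refine ⟨m, Nat.one_le_iff_ne_zero.2 hm, ?_⟩
  apply Subset.antisymm
  · have h1 : IsPreconnected ((S a)^[m] '' D) :=
      hDc.image _ ((TH705.SM.S_cont a).iterate m).continuousOn
    have h2 : (S a)^[m] '' D ⊆ Xᶜ := by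
      rw [← himX m]
      exact image_mono hDX
    have h3 := h1.subset_connectedComponentIn (mem_image_of_mem _ hx) h2
    rw [← connectedComponentIn_eq hmx] at h3
    exact h3
  · have h1 : IsPreconnected ((Si a)^[m] '' D) :=
      hDc.image _ ((TH705.SM.Si_cont a).iterate m).continuousOn
    have h2 : (Si a)^[m] '' D ⊆ Xᶜ := by
      rw [← Si_image_compl_X a m]
      exact image_mono hDX
    have h4 : x ∈ (Si a)^[m] '' D :=
      ⟨(S a)^[m] x, hmx, Function.LeftInverse.iterate (TH705.SM.Si_S a) m x⟩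
    have h3 := h1.subset_connectedComponentIn h4 h2
    rw [← connectedComponentIn_eq hx] at h3
    intro d hd
    exact ⟨(Si a)^[m] d, h3 (mem_image_of_mem _ hd),
      Function.RightInverse.iterate (S_Si a) m d⟩

/-- topological transitivity -/
def Trans (a : ℝ) : Prop := ∀ U V : Set T2, IsOpen U → IsOpen V → U.Nonempty → V.Nonempty →
  ∃ n : ℕ, ((S a)^[n] '' U ∩ V).Nonempty

theorem no_island_of_trans {a : ℝ} (ha : 5 ≤ |a|) (h : Trans a) (D : Set T2) : ¬ Island a D := by
  intro hD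
  have h1 := hD.not_mem ha
  obtain ⟨n, x, hx, hx2⟩ := h D (closure (⋃ n : ℕ, (S a)^[n] '' D))ᶜ hD.isOpen
    isClosed_closure.isOpen_compl hD.isConnected.nonempty ⟨_, h1⟩
  exact hx2 (subset_closure (mem_iUnion.2 ⟨n, hx⟩))

theorem dense_of_no_island {a : ℝ} (ha : 5 ≤ |a|) (h : ∀ D : Set T2, ¬ Island a D) :
    Dense (Ws a) := by
  intro p
  by_contra hp
  exact h _ (island_comp ha hp)

theorem mix_of_dense {a : ℝ} (ha : 5 ≤ |a|) (h : Dense (Ws a)) {U V : Set T2} (hU : IsOpen U)
    (hV : IsOpen V) (hUn : U.Nonempty) (hVn : V.Nonempty) : Mix a U V := by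
  apply mix_meet ha hU hV
  · rw [h.closure_eq, inter_univ]; exact hUn
  · rw [h.closure_eq, inter_univ]; exact hVn

theorem trans_of_mix {a : ℝ} (h : ∀ U V : Set T2, IsOpen U → IsOpen V → U.Nonempty →
    V.Nonempty → Mix a U V) : Trans a := by
  intro U V hU hV hUn hVn
  obtain ⟨N, hN⟩ := h U V hU hV hUn hVn
  exact ⟨N, hN N le_rfl⟩

theorem no_island_of_ergodic {a : ℝ} (ha : 5 ≤ |a|) (h : Ergodic (S a) volume) (D : Set T2) :
    ¬ Island a D := by
  intro hD
  have h1 := hD.not_mem ha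
  set W := ⋃ n : ℕ, (S a)^[n] '' D with hW
  have hWo : IsOpen W := isOpen_iUnion fun n => isOpen_image a n hD.isOpen
  have hinv : S a ⁻¹' W = W := by
    obtain ⟨q, hq, hqD⟩ := hD.periodic
    ext x
    constructor
    · intro hx
      obtain ⟨n, d, hd, hdx⟩ := mem_iUnion.1 hx
      rcases n with _ | n
      · -- use the period
        rw [← hqD] at hd
        obtain ⟨d', hd', rfl⟩ := hd
        obtain ⟨r, rfl⟩ : ∃ r, q = r + 1 := ⟨q - 1, by omega⟩
        simp only [Function.iterate_zero, id] at hdx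
        rw [Function.iterate_succ_apply'] at hdx
        have := (Sh a).injective hdx
        exact mem_iUnion.2 ⟨r, d', hd', this⟩
      · rw [Function.iterate_succ_apply'] at hdx
        have := (Sh a).injective hdx
        exact mem_iUnion.2 ⟨n, d, hd, this⟩
    · intro hx
      obtain ⟨n, d, hd, rfl⟩ := mem_iUnion.1 hx
      refine mem_iUnion.2 ⟨n + 1, d, hd, ?_⟩
      rw [Function.iterate_succ_apply']
  have hne : W.Nonempty := by
    obtain ⟨d, hd⟩ := hD.isConnected.nonempty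
    exact ⟨d, mem_iUnion.2 ⟨0, d, hd, rfl⟩⟩
  have hpos := hWo.measure_pos (volume : Measure T2) hne
  rcases h.measure_self_or_compl_eq_zero hWo.measurableSet hinv with h2 | h2
  · exact hpos.ne' h2
  · have h3 : IsOpen (closure W)ᶜ := isClosed_closure.isOpen_compl
    have h4 := h3.measure_pos (volume : Measure T2) ⟨_, h1⟩
    have h5 : volume (closure W)ᶜ ≤ volume Wᶜ := measure_mono (compl_subset_compl.2 subset_closure)
    rw [h2] at h5
    exact absurd h4 (not_lt.2 h5)

end Pool.Agent.H242.TM
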