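import Pool.Agent.H242.TM.Meet

set_option autoImplicit false

/-!
# An open set which meets the stable set contains, after some time, wide paths
-/

namespace Pool.Agent.H242.TM

open Real Set Metric Filter Topology
open Pool.Agent.TH705.SM (T2 S Si)

theorem S_Si (a : ℝ) (p : T2) : S a (Si a p) = p := by
  unfold Si S
  simp

theorem image_eq_preimage (a : ℝ) (n : ℕ) (A : Set T2) :
    (S a)^[n] '' A = (Si a)^[n] ⁻¹' A := by
  have h1 : Function.LeftInverse (Si a)^[n] (S a)^[n] :=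
    Function.LeftInverse.iterate (TH705.SM.Si_S a) n
  have h2 : Function.RightInverse (Si a)^[n] (S a)^[n] :=
    Function.RightInverse.iterate (S_Si a) n
  rw [Set.image_eq_preimage_of_inverse h1 h2]

theorem isOpen_image (a : ℝ) (n : ℕ) {A : Set T2} (hA : IsOpen A) :
    IsOpen ((S a)^[n] '' A) := by
  rw [image_eq_preimage]
  exact hA.preimage ((TH705.SM.Si_cont a).iterate n)

theorem near_zero {x ε : ℝ} (h : ‖(x : UnitAddCircle)‖ < ε) (hx : |x| < 1 / 2) : |x| < ε := by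
  rw [UnitAddCircle.norm_eq] at h
  have h1 : round x = 0 := by
    rw [round_eq_zero_iff]
    have := abs_lt.1 hx
    exact ⟨this.1.le, this.2⟩
  rw [h1, Int.cast_zero, sub_zero] at h
  exact h

theorem phi_exp {a x y : ℝ} (ha : 3 ≤ |a|) (hx : |x| ≤ 1 / 6) (hy : |y| ≤ 1 / 6) :
    4 * |x - y| ≤ |phi a x - phi a y| := by
  have h1 := phi_sub_ge a x y
  rw [sin_sub_sin, show (2 * π * x - 2 * π * y) / 2 = π * (x - y) by ring,
    show (2 * π * x + 2 * π * y) / 2 = π * (x + y) by ring, abs_mul, abs_mul,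
    abs_of_pos (by norm_num : (0:ℝ) < 2)] at h1
  have hx' := abs_le.1 hx
  have hy' := abs_le.1 hy
  have h2 : 1 / 2 ≤ cos (π * (x + y)) := by
    rw [← cos_pi_div_three, ← cos_abs (π * (x + y))]
    apply cos_le_cos_of_nonneg_of_le_pi (abs_nonneg _) (by linarith [pi_pos])
    rw [abs_mul, abs_of_pos pi_pos]
    have : |x + y| ≤ 1 / 3 := abs_le.2 ⟨by linarith, by linarith⟩
    nlinarith [pi_pos]
  have h3 : 2 * |x - y| ≤ |sin (π * (x - y))| := by
    have h4 : |x - y| ≤ 1 / 3 := abs_le.2 ⟨by linarith, by linarith⟩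
    have h5 := abs_sin_ge (x := (x - y) / 2) (by rw [abs_div, abs_of_pos (by norm_num : (0:ℝ) < 2)]; linarith)
    rw [show 2 * π * ((x - y) / 2) = π * (x - y) by ring, abs_div,
      abs_of_pos (by norm_num : (0:ℝ) < 2)] at h5
    linarith
  rw [abs_of_nonneg (by linarith : 0 ≤ cos (π * (x + y)))] at h1
  have h4 : 2 * |x - y| ≤ 2 * |sin (π * (x - y))| * cos (π * (x + y)) := by
    nlinarith [abs_nonneg (sin (π * (x - y))), abs_nonneg (x - y)]
  have h5 := mul_le_mul_of_nonneg_left h4 (abs_nonneg a)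
  nlinarith [abs_nonneg (x - y)]

theorem phi_abs_le (a x : ℝ) : |phi a x| ≤ (2 + 2 * π * |a|) * |x| := by
  unfold phi
  have h1 : |sin (2 * π * x)| ≤ 2 * π * |x| := by
    have h2 : |sin (2 * π * x)| ≤ |2 * π * x| := abs_sin_le_abs
    rwa [abs_mul, abs_of_pos (by positivity : (0:ℝ) < 2 * π)] at h2
  calc |2 * x + a * sin (2 * π * x)| ≤ |2 * x| + |a * sin (2 * π * x)| := abs_add_le _ _
    _ = 2 * |x| + |a| * |sin (2 * π * x)| := by
        rw [abs_mul, abs_mul, abs_of_pos (by norm_num : (0:ℝ) < 2)]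
    _ ≤ 2 * |x| + |a| * (2 * π * |x|) := by
        have := mul_le_mul_of_nonneg_left h1 (abs_nonneg a)
        linarith
    _ = (2 + 2 * π * |a|) * |x| := by ring

/-- expansion of a horizontal segment, as long as it stays in `|x| ≤ 1 / 6` -/
theorem expand {a : ℝ} (ha : 3 ≤ |a|) {z : ℝ × ℝ} {ρ : ℝ} {N : ℕ}
    (hb : ∀ j < N, ∀ s ∈ Icc 0 ρ, |((F a)^[j] (z.1 + s, z.2)).1| ≤ 1 / 6) :
    ∀ j < N, ∀ s ∈ Icc 0 ρ, ∀ s' ∈ Icc 0 ρ,
      3 * |((F a)^[j] (z.1 + s, z.2)).1 - ((F a)^[j] (z.1 + s', z.2)).1| ≤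
        |((F a)^[j + 1] (z.1 + s, z.2)).1 - ((F a)^[j + 1] (z.1 + s', z.2)).1| := by
  intro j
  induction j with
  | zero =>
    intro hj s hs s' hs'
    have h1 := phi_exp ha (hb 0 hj s hs) (hb 0 hj s' hs')
    rw [iter_fst', iter_fst']
    have e1 : ((F a)^[0] (z.1 + s, z.2)).2 = z.2 := rfl
    have e2 : ((F a)^[0] (z.1 + s', z.2)).2 = z.2 := rfl
    rw [e1, e2, show phi a ((F a)^[0] (z.1 + s, z.2)).1 - z.2 -
      (phi a ((F a)^[0] (z.1 + s', z.2)).1 - z.2) = phi a ((F a)^[0] (z.1 + s, z.2)).1 -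
      phi a ((F a)^[0] (z.1 + s', z.2)).1 by ring]
    linarith [abs_nonneg (((F a)^[0] (z.1 + s, z.2)).1 - ((F a)^[0] (z.1 + s', z.2)).1)]
  | succ j ih =>
    intro hj s hs s' hs'
    have h0 := ih (by omega) s hs s' hs'
    have h1 := phi_exp ha (hb (j + 1) hj s hs) (hb (j + 1) hj s' hs')
    have e1 := iter_fst a j (z.1 + s, z.2)
    have e2 := iter_fst a j (z.1 + s', z.2)
    rw [show j + 1 + 1 = j + 2 from rfl, e1, e2]
    set A := phi a ((F a)^[j + 1] (z.1 + s, z.2)).1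
    set B := phi a ((F a)^[j + 1] (z.1 + s', z.2)).1
    set C := ((F a)^[j] (z.1 + s, z.2)).1
    set D := ((F a)^[j] (z.1 + s', z.2)).1
    have h2 := abs_sub_abs_le_abs_sub (A - B) (C - D)
    rw [show A - C - (B - D) = (A - B) - (C - D) by ring]
    have h3 := abs_nonneg (C - D)
    linarith

/-- the inclination lemma, in a weak form -/
theorem open_fwd {a : ℝ} (ha : 5 ≤ |a|) {A : Set T2} (hA : IsOpen A)
    (h : (A ∩ Ws a).Nonempty) : ∃ n, FwdE (31 / 200) ((S a)^[n] '' A) := by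
  obtain ⟨z₀, hzA, hz⟩ := h
  obtain ⟨p, rfl⟩ := pr_surj z₀
  have hz' : Tendsto (fun n : ℕ => (S a)^[n] (pr p)) atTop
    (𝓝 ((0 : UnitAddCircle), (0 : UnitAddCircle))) := hz
  set L := 3 + 2 * π * |a| with hL
  have hL1 : 1 ≤ L := by
    have : 0 ≤ 2 * π * |a| := by positivity
    linarith
  set ε := 1 / (100 * L) with hε
  have hε0 : 0 < ε := by positivity
  have hLε : L * ε = 1 / 100 := by rw [hε]; field_simp
  have hε1 : ε ≤ 1 / 100 := by nlinarith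
  have hex : ∃ n₀, ∀ n ≥ n₀, ‖((S a)^[n] (pr p)).1‖ < ε ∧ ‖((S a)^[n] (pr p)).2‖ < ε := by
    have h1 := (continuous_fst.tendsto _).comp hz'
    have h2 := (continuous_snd.tendsto _).comp hz'
    obtain ⟨n₁, hn₁⟩ := Metric.tendsto_atTop.1 h1 ε hε0
    obtain ⟨n₂, hn₂⟩ := Metric.tendsto_atTop.1 h2 ε hε0
    refine ⟨max n₁ n₂, fun n hn => ?_⟩
    have h3 := hn₁ n ((le_max_left _ _).trans hn)
    have h4 := hn₂ n ((le_max_right _ _).trans hn)
    simp only [Function.comp, dist_zero_right] at h3 h4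
    exact ⟨h3, h4⟩
  obtain ⟨n₀, hn₀⟩ := hex
  set p₁ := (F a)^[n₀] p with hp₁
  have hprp₁ : pr p₁ = (S a)^[n₀] (pr p) := pr_iter a n₀ p
  set z : ℝ × ℝ := p₁ - ((round p₁.1 : ℝ), (round p₁.2 : ℝ)) with hzdef
  have hprz : pr z = (S a)^[n₀] (pr p) := by rw [hzdef, pr_sub_int, hprp₁]
  have hz1 : |z.1| < ε ∧ |z.2| < ε := by
    have h1 := hn₀ n₀ le_rfl
    rw [← hprp₁] at h1
    have e1 : (pr p₁).1 = (p₁.1 : UnitAddCircle) := rfl
    have e2 : (pr p₁).2 = (p₁.2 : UnitAddCircle) := rfl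
    rw [e1, e2, UnitAddCircle.norm_eq, UnitAddCircle.norm_eq] at h1
    exact h1
  have claim : ∀ n : ℕ, |((F a)^[n] z).1| < ε ∧ |((F a)^[n] z).2| < ε := by
    intro n
    induction n with
    | zero => exact hz1
    | succ n ih =>
      constructor
      · apply near_zero
        · have h1 := (hn₀ (n + 1 + n₀) (by omega)).1
          rw [Function.iterate_add_apply, ← hprz, ← pr_iter] at h1
          exact h1
        · rw [iter_fst']
          have h1 := phi_abs_le a ((F a)^[n] z).1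
          have h2 := abs_sub (phi a ((F a)^[n] z).1) ((F a)^[n] z).2
          have h3 : (2 + 2 * π * |a|) * |((F a)^[n] z).1| ≤ (2 + 2 * π * |a|) * ε :=
            mul_le_mul_of_nonneg_left ih.1.le (by positivity)
          have h4 : (2 + 2 * π * |a|) * ε + ε = L * ε := by rw [hL]; ring
          linarith [ih.2]
      · rw [iter_snd]
        exact ih.1
  -- the open set
  have hopen : IsOpen (pr ⁻¹' ((S a)^[n₀] '' A)) := (isOpen_image a n₀ hA).preimage pr_cont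
  have hmem : z ∈ pr ⁻¹' ((S a)^[n₀] '' A) := by
    rw [mem_preimage, hprz]
    exact mem_image_of_mem _ hzA
  have hγ₀ : Continuous (fun s : ℝ => ((z.1 + s, z.2) : ℝ × ℝ)) := by fun_prop
  have hopen2 : IsOpen ((fun s : ℝ => ((z.1 + s, z.2) : ℝ × ℝ)) ⁻¹'
      (pr ⁻¹' ((S a)^[n₀] '' A))) := hopen.preimage hγ₀
  obtain ⟨ρ₀, hρ₀, hball⟩ := Metric.isOpen_iff.1 hopen2 0 (by
    rw [mem_preimage, add_zero]
    exact hmem)
  set ρ := min (ρ₀ / 2) (31 / 200) with hρ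
  have hρ0 : 0 < ρ := by rw [hρ]; positivity
  have hρ1 : ρ ≤ 31 / 200 := min_le_right _ _
  have hin : ∀ s ∈ Icc 0 ρ, pr (z.1 + s, z.2) ∈ (S a)^[n₀] '' A := by
    intro s hs
    apply hball
    rw [mem_ball, dist_zero_right, Real.norm_eq_abs, abs_of_nonneg hs.1]
    have := min_le_left (ρ₀ / 2) (31 / 200 : ℝ)
    linarith [hs.2]
  have hc : ∀ j : ℕ, Continuous (fun s => ((F a)^[j] (z.1 + s, z.2)).1) := fun j =>
    (((F_cont a).iterate j).comp hγ₀).fst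
  have hx0 : ∀ j : ℕ, |((F a)^[j] (z.1 + 0, z.2)).1| < ε := fun j => by
    rw [add_zero]; exact (claim j).1
  have hbd : ∀ j : ℕ, ∀ s : ℝ, |((F a)^[j] (z.1 + s, z.2)).1 - ((F a)^[j] (z.1 + 0, z.2)).1| ≤
      31 / 200 → |((F a)^[j] (z.1 + s, z.2)).1| ≤ 1 / 6 := by
    intro j s h1
    have h2 := abs_sub_abs_le_abs_sub ((F a)^[j] (z.1 + s, z.2)).1
      ((F a)^[j] (z.1 + 0, z.2)).1
    linarith [hx0 j]
  have h0mem : (0:ℝ) ∈ Icc 0 ρ := ⟨le_rfl, hρ0.le⟩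
  have hρmem : ρ ∈ Icc 0 ρ := ⟨hρ0.le, le_rfl⟩
  have hP : ∃ n, ∃ s ∈ Icc 0 ρ, 31 / 200 <
      |((F a)^[n] (z.1 + s, z.2)).1 - ((F a)^[n] (z.1 + 0, z.2)).1| := by
    by_contra hcon
    push Not at hcon
    have hb : ∀ j, ∀ s ∈ Icc 0 ρ, |((F a)^[j] (z.1 + s, z.2)).1| ≤ 1 / 6 :=
      fun j s hs => hbd j s (hcon j s hs)
    have h1 : ∀ n : ℕ, 3 ^ n * ρ ≤
        |((F a)^[n] (z.1 + ρ, z.2)).1 - ((F a)^[n] (z.1 + 0, z.2)).1| := by
      intro n
      induction n with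
      | zero =>
        have e1 : ((F a)^[0] (z.1 + ρ, z.2)).1 = z.1 + ρ := rfl
        have e2 : ((F a)^[0] (z.1 + 0, z.2)).1 = z.1 + 0 := rfl
        rw [e1, e2, pow_zero, one_mul, show z.1 + ρ - (z.1 + 0) = ρ by ring]
        exact le_abs_self _
      | succ n ih =>
        have h2 := expand (a := a) (by linarith) (z := z) (ρ := ρ) (N := n + 1)
          (fun j _ s hs => hb j s hs) n (by omega) ρ hρmem 0 h0mem
        rw [pow_succ]
        linarith
    obtain ⟨n, hn⟩ := pow_unbounded_of_one_lt ((31 / 200) / ρ) (show (1:ℝ) < 3 by norm_num)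
    rw [div_lt_iff₀ hρ0] at hn
    linarith [h1 n, hcon n ρ hρmem]
  classical
  obtain ⟨s₁, hs₁, hs₁'⟩ := Nat.find_spec hP
  have hmin := fun m (hm : m < Nat.find hP) => Nat.find_min hP hm
  set N := Nat.find hP with hN
  have hN0 : N ≠ 0 := by
    intro h0
    rw [h0] at hs₁'
    have e1 : ((F a)^[0] (z.1 + s₁, z.2)).1 = z.1 + s₁ := rfl
    have e2 : ((F a)^[0] (z.1 + 0, z.2)).1 = z.1 + 0 := rfl
    rw [e1, e2, show z.1 + s₁ - (z.1 + 0) = s₁ by ring, abs_of_nonneg hs₁.1] at hs₁'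
    linarith [hs₁.2]
  obtain ⟨M, hM⟩ := Nat.exists_eq_succ_of_ne_zero hN0
  have hbN : ∀ j < N, ∀ s ∈ Icc 0 ρ, |((F a)^[j] (z.1 + s, z.2)).1| ≤ 1 / 6 := by
    intro j hj s hs
    apply hbd
    have := hmin j hj
    push Not at this
    exact this s hs
  have hexp := expand (a := a) (by linarith) hbN M (by omega)
  rw [show M + 1 = N by omega] at hexp
  have hcross : ∃ s' t' u, s' ∈ Icc 0 ρ ∧ t' ∈ Icc 0 ρ ∧
      Cross (fun s => ((F a)^[N] (z.1 + s, z.2)).1) s' t' u (u + 31 / 200) := by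
    have h1 : ((F a)^[N] (z.1 + 0, z.2)).1 + 31 / 200 ≤ ((F a)^[N] (z.1 + s₁, z.2)).1 ∨
        ((F a)^[N] (z.1 + s₁, z.2)).1 ≤ ((F a)^[N] (z.1 + 0, z.2)).1 - 31 / 200 := by
      rcases abs_cases (((F a)^[N] (z.1 + s₁, z.2)).1 - ((F a)^[N] (z.1 + 0, z.2)).1) with
        ⟨h2, _⟩ | ⟨h2, _⟩
      · left; rw [h2] at hs₁'; linarith
      · right; rw [h2] at hs₁'; linarith
    rcases h1 with h1 | h1
    · obtain ⟨s', t', h2, h3, h4⟩ := cross_sub (hc N) (u := 0) (v := s₁)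
        (lo := ((F a)^[N] (z.1 + 0, z.2)).1) (hi := ((F a)^[N] (z.1 + 0, z.2)).1 + 31 / 200)
        le_rfl h1 (by linarith)
      rw [min_eq_left hs₁.1] at h2
      rw [max_eq_right hs₁.1] at h3
      exact ⟨s', t', _, ⟨h2, h4.1.trans (h3.trans hs₁.2)⟩, ⟨h2.trans h4.1, h3.trans hs₁.2⟩, h4⟩
    · obtain ⟨s', t', h2, h3, h4⟩ := cross_sub (hc N) (u := s₁) (v := 0)
        (lo := ((F a)^[N] (z.1 + 0, z.2)).1 - 31 / 200)
        (hi := ((F a)^[N] (z.1 + 0, z.2)).1 - 31 / 200 + 31 / 200)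
        h1 (by linarith) (by linarith)
      rw [min_eq_right hs₁.1] at h2
      rw [max_eq_left hs₁.1] at h3
      exact ⟨s', t', _, ⟨h2, h4.1.trans (h3.trans hs₁.2)⟩, ⟨h2.trans h4.1, h3.trans hs₁.2⟩, h4⟩
  obtain ⟨s', t', u, hs', ht', hC⟩ := hcross
  have hsub : ∀ τ ∈ Icc s' t', τ ∈ Icc 0 ρ := fun τ hτ => ⟨hs'.1.trans hτ.1, hτ.2.trans ht'.2⟩
  refine ⟨N + n₀, fun s => (F a)^[N] (z.1 + s, z.2), s', t', u,
    ((F_cont a).iterate N).comp hγ₀, hC, ?_, ?_⟩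
  · intro τ hτ σ hσ
    have h1 := hexp τ (hsub τ hτ) σ (hsub σ hσ)
    have h2 := abs_sub_le_of_mem (hC.2.2 τ hτ) (hC.2.2 σ hσ)
    have e1 : ((F a)^[N] (z.1 + τ, z.2)).2 = ((F a)^[M] (z.1 + τ, z.2)).1 := by
      rw [show N = M + 1 by omega, iter_snd]
    have e2 : ((F a)^[N] (z.1 + σ, z.2)).2 = ((F a)^[M] (z.1 + σ, z.2)).1 := by
      rw [show N = M + 1 by omega, iter_snd]
    rw [e1, e2]
    linarith [abs_nonneg (((F a)^[M] (z.1 + τ, z.2)).1 - ((F a)^[M] (z.1 + σ, z.2)).1)]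
  · intro τ hτ
    rw [pr_iter, image_add]
    exact mem_image_of_mem _ (hin τ (hsub τ hτ))

theorem const_lt {a : ℝ} (ha : 5 ≤ |a|) : 3 / (4 * |a|) < 31 / 200 := by
  rw [div_lt_iff₀ (by linarith)]
  linarith

/-- an open set which meets the stable set eventually contains crossing paths -/
theorem open_box {a : ℝ} (ha : 5 ≤ |a|) {A : Set T2} (hA : IsOpen A)
    (h : (A ∩ Ws a).Nonempty) : ∃ N, ∀ n ≥ N, Box a ((S a)^[n] '' A) := by
  obtain ⟨n, hn⟩ := open_fwd ha hA h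
  obtain ⟨N, hN⟩ := box_eventually (by linarith) (by norm_num) (const_lt ha) hn
  refine ⟨N + n, fun m hm => ?_⟩
  obtain ⟨j, rfl⟩ := Nat.exists_eq_add_of_le hm
  rw [show N + n + j = (N + j) + n by ring, image_add]
  exact hN _ (by omega)

end Pool.Agent.H242.TM
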