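import Pool.Agent.H242.TM.Paths

set_option autoImplicit false

/-!
# Crossing paths meet each other and the invariant curves of the fixed point
-/

namespace Pool.Agent.H242.TM

open Real Set Metric Filter Topology
open Pool.Agent.TH705.SM (T2 S Si)

/-- a horizontal and a vertical crossing path meet -/
theorem box_meet {a : ℝ} (ha : 1 ≤ |a|) {A B : Set T2} (hA : Box a A)
    (hB : Box a (Prod.swap '' B)) : (A ∩ B).Nonempty := by
  obtain ⟨γ, s, t, k, l, hγ, hC, hh, hA⟩ := hA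
  obtain ⟨γ', s', t', k', l', hγ', hC', hh', hB⟩ := hB
  obtain ⟨p, q, hp, hq, hpq⟩ := hC.param
  obtain ⟨p', q', hp', hq', hpq'⟩ := hC'.param
  have hr : 1 / (2 * |a|) ≤ 1 / 2 := by
    apply one_div_le_one_div_of_le (by norm_num)
    linarith
  let f : (Fin 2 → ℝ) → (Fin 2 → ℝ) := fun z =>
    ![((γ (p + z 0 * (q - p))).1 - k) - ((γ' (p' + z 1 * (q' - p'))).2 - l'),
      ((γ' (p' + z 1 * (q' - p'))).1 - k') - ((γ (p + z 0 * (q - p))).2 - l)]
  have hf : Continuous f := by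
    have h1 : Continuous (fun z : Fin 2 → ℝ => γ (p + z 0 * (q - p))) := hγ.comp (by fun_prop)
    have h2 : Continuous (fun z : Fin 2 → ℝ => γ' (p' + z 1 * (q' - p'))) :=
      hγ'.comp (by fun_prop)
    apply continuous_pi
    intro i
    fin_cases i
    · exact (h1.fst.sub continuous_const).sub (h2.snd.sub continuous_const)
    · exact (h2.fst.sub continuous_const).sub (h1.snd.sub continuous_const)
  have e0 : ∀ z, f z 0 = ((γ (p + z 0 * (q - p))).1 - k) - ((γ' (p' + z 1 * (q' - p'))).2 - l') :=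
    fun z => rfl
  have e1 : ∀ z, f z 1 = ((γ' (p' + z 1 * (q' - p'))).1 - k') - ((γ (p + z 0 * (q - p))).2 - l) :=
    fun z => rfl
  obtain ⟨z, hz, hz0⟩ := Helper475.Miranda.poincare_miranda 2 f hf.continuousOn
    (by
      intro z hz i hi
      have h1 := abs_le.1 (hh _ (hpq _ (hz 0)))
      have h2 := abs_le.1 (hh' _ (hpq' _ (hz 1)))
      fin_cases i
      · change f z 0 ≤ 0
        rw [e0]
        have : z 0 = 0 := hi
        rw [this, zero_mul, add_zero, hp]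
        linarith [h2.1]
      · change f z 1 ≤ 0
        rw [e1]
        have : z 1 = 0 := hi
        rw [this, zero_mul, add_zero, hp']
        linarith [h1.1])
    (by
      intro z hz i hi
      have h1 := abs_le.1 (hh _ (hpq _ (hz 0)))
      have h2 := abs_le.1 (hh' _ (hpq' _ (hz 1)))
      fin_cases i
      · change 0 ≤ f z 0
        rw [e0]
        have : z 0 = 1 := hi
        rw [this, one_mul, show p + (q - p) = q by ring, hq]
        linarith [h2.2]
      · change 0 ≤ f z 1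
        rw [e1]
        have : z 1 = 1 := hi
        rw [this, one_mul, show p' + (q' - p') = q' by ring, hq']
        linarith [h1.2])
  have h1 := hA _ (hpq _ (hz 0))
  obtain ⟨b, hb, hb2⟩ := hB _ (hpq' _ (hz 1))
  have z0 : f z 0 = 0 := by rw [hz0]; rfl
  have z1 : f z 1 = 0 := by rw [hz0]; rfl
  rw [e0] at z0
  rw [e1] at z1
  set P := γ (p + z 0 * (q - p)) with hP
  set Q := γ' (p' + z 1 * (q' - p')) with hQ
  have hbP : b = pr P := by
    have h3 : b = Prod.swap (pr Q) := by rw [← hb2, Prod.swap_swap]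
    rw [h3]
    have h4 : pr Q = pr (Q - ((k' : ℝ), (l' : ℝ))) := (pr_sub_int Q k' l').symm
    have h5 : pr P = pr (P - ((k : ℝ), (l : ℝ))) := (pr_sub_int P k l).symm
    rw [h4, h5]
    unfold pr
    simp only [Prod.fst_sub, Prod.snd_sub, Prod.swap_prod_mk]
    rw [show Q.2 - (l' : ℝ) = P.1 - k by linarith, show Q.1 - (k' : ℝ) = P.2 - l by linarith]
  exact ⟨pr P, h1, hbP ▸ hb⟩

theorem pr_zero : pr ((0:ℝ), (0:ℝ)) = ((0 : UnitAddCircle), (0 : UnitAddCircle)) := rfl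

/-- the stable set of the fixed point -/
def Ws (a : ℝ) : Set T2 := {p | Tendsto (fun n : ℕ => (S a)^[n] p) atTop (𝓝 ((0 : UnitAddCircle), (0 : UnitAddCircle)))}

theorem phi_ge {a x : ℝ} (ha : 3 / 2 ≤ |a|) (hx : |x| ≤ 1 / 4) : 4 * |x| ≤ |phi a x| := by
  have h1 := phi_sub_ge a x 0
  have h2 := abs_sin_ge hx
  have e0 : phi a 0 = 0 := by unfold phi; simp
  rw [mul_zero, sin_zero, sub_zero, sub_zero, e0, sub_zero] at h1
  nlinarith [abs_nonneg x, mul_le_mul_of_nonneg_left h2 (abs_nonneg a)]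

theorem phi_neg (a x : ℝ) : phi a (-x) = -phi a x := by
  unfold phi
  rw [show 2 * π * -x = -(2 * π * x) by ring, sin_neg]
  ring

theorem conv_zero {a : ℝ} (ha : 3 / 2 ≤ |a|) {x : ℕ → ℝ} (hx : ∀ n, |x n| ≤ 1 / 4)
    (hrec : ∀ n, x (n + 2) = phi a (x (n + 1)) - x n) : Tendsto x atTop (𝓝 0) := by
  have h : ∀ j : ℕ, ∀ m, j ≤ m → |x m| ≤ (1 / 4) * (1 / 2) ^ j := by
    intro j
    induction j with
    | zero => intro m _; simpa using hx m
    | succ j ih =>
      intro m hm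
      obtain ⟨i, rfl⟩ : ∃ i, m = i + 1 := ⟨m - 1, by omega⟩
      have h1 := ih i (by omega)
      have h2 := ih (i + 2) (by omega)
      have h3 := phi_ge ha (hx (i + 1))
      have h4 : phi a (x (i + 1)) = x (i + 2) + x i := by rw [hrec i]; ring
      rw [h4] at h3
      have h5 := abs_add_le (x (i + 2)) (x i)
      rw [pow_succ]
      linarith
  have h2 : Tendsto (fun m : ℕ => (1 / 4 : ℝ) * (1 / 2) ^ m) atTop (𝓝 0) := by
    have := (tendsto_pow_atTop_nhds_zero_of_lt_one (show (0:ℝ) ≤ 1 / 2 by norm_num)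
      (by norm_num)).const_mul (1 / 4 : ℝ)
    simpa using this
  exact squeeze_zero_norm (fun m => by rw [Real.norm_eq_abs]; exact h m m le_rfl) h2

theorem iter_snd (a : ℝ) (n : ℕ) (p : ℝ × ℝ) : ((F a)^[n + 1] p).2 = ((F a)^[n] p).1 := by
  rw [Function.iterate_succ_apply']
  rfl

theorem iter_fst (a : ℝ) (n : ℕ) (p : ℝ × ℝ) : ((F a)^[n + 2] p).1 =
    phi a ((F a)^[n + 1] p).1 - ((F a)^[n] p).1 := by
  rw [Function.iterate_succ_apply', F_fst, iter_snd]

theorem iter_fst' (a : ℝ) (n : ℕ) (p : ℝ × ℝ) : ((F a)^[n + 1] p).1 =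
    phi a ((F a)^[n] p).1 - ((F a)^[n] p).2 := by
  rw [Function.iterate_succ_apply', F_fst]

/-- a crossing path meets the stable set -/
theorem box_ws {a : ℝ} (ha : 5 / 2 ≤ |a|) {A : Set T2} (hA : Box a A) : (A ∩ Ws a).Nonempty := by
  obtain ⟨γ₀, s, t, k, l, hγ₀, hC, hh, hA⟩ := hA
  have ha0 : 0 < |a| := by linarith
  set r := 1 / (2 * |a|) with hr
  have hr0 : 0 < r := by positivity
  have har : |a| * r = 1 / 2 := by rw [hr]; field_simp
  have hr1 : r ≤ 1 / 5 := by nlinarith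
  let γ : ℝ → ℝ × ℝ := fun τ => γ₀ τ - ((k : ℝ), (l : ℝ))
  have hγ : Continuous γ := hγ₀.sub continuous_const
  have hprγ : ∀ τ, pr (γ τ) = pr (γ₀ τ) := fun τ => pr_sub_int _ k l
  -- the iterates
  have hc : ∀ m : ℕ, Continuous (fun τ => ((F a)^[m] (γ τ)).1) := fun m =>
    (((F_cont a).iterate m).comp hγ).fst
  obtain ⟨s₀, t₀, hs₀, ht₀, hC₀⟩ := hC.sub hγ₀.fst (lo' := k - r) (hi' := k + r) (by linarith)
    (by linarith) (by linarith)
  have claim : ∀ n : ℕ, ∃ s₁ t₁, s₀ ≤ s₁ ∧ t₁ ≤ t₀ ∧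
      Cross (fun τ => ((F a)^[n] (γ τ)).1) s₁ t₁ (-r) r ∧
      ∀ τ ∈ Icc s₁ t₁, (∀ m ≤ n, |((F a)^[m] (γ τ)).1| ≤ r) ∧ |((F a)^[n] (γ τ)).2| ≤ r := by
    intro n
    induction n with
    | zero =>
      refine ⟨s₀, t₀, le_rfl, le_rfl, ⟨hC₀.1, ?_, ?_⟩, ?_⟩
      · have e1 : ∀ τ, ((F a)^[0] (γ τ)).1 = (γ₀ τ).1 - k := fun τ => rfl
        simp only [e1]
        rcases hC₀.2.1 with ⟨h1, h2⟩ | ⟨h1, h2⟩
        · exact Or.inl ⟨by linarith, by linarith⟩
        · exact Or.inr ⟨by linarith, by linarith⟩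
      · intro τ hτ
        have := hC₀.2.2 τ hτ
        have e1 : ((F a)^[0] (γ τ)).1 = (γ₀ τ).1 - k := rfl
        simp only [e1]
        exact ⟨by linarith [this.1], by linarith [this.2]⟩
      · intro τ hτ
        constructor
        · intro m hm
          have hm0 : m = 0 := by omega
          subst hm0
          have := hC₀.2.2 τ hτ
          have e1 : ((F a)^[0] (γ τ)).1 = (γ₀ τ).1 - k := rfl
          rw [e1, abs_le]
          exact ⟨by linarith [this.1], by linarith [this.2]⟩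
        · have e1 : ((F a)^[0] (γ τ)).2 = (γ₀ τ).2 - l := rfl
          rw [e1]
          exact hh τ ⟨hs₀.trans hτ.1, hτ.2.trans ht₀⟩
    | succ n ih =>
      obtain ⟨s₁, t₁, hs₁, ht₁, hC₁, hb⟩ := ih
      -- the endpoints
      have hphi : 2 * r ≤ |phi a r| := by
        have h1 := phi_sub_ge a r 0
        have h2 := sin_ge hr0.le (by linarith)
        have e0 : phi a 0 = 0 := by unfold phi; simp
        rw [mul_zero, sin_zero, sub_zero, sub_zero, e0, sub_zero, abs_of_pos hr0,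
          abs_of_nonneg (by linarith : 0 ≤ sin (2 * π * r))] at h1
        have h3 := mul_le_mul_of_nonneg_left h2 ha0.le
        linarith
      have hst1 : s₁ ∈ Icc s₁ t₁ := ⟨le_rfl, hC₁.1⟩
      have hst2 : t₁ ∈ Icc s₁ t₁ := ⟨hC₁.1, le_rfl⟩
      have hends : ∃ u v, u ∈ Icc s₁ t₁ ∧ v ∈ Icc s₁ t₁ ∧
          ((F a)^[n + 1] (γ u)).1 ≤ -r ∧ r ≤ ((F a)^[n + 1] (γ v)).1 := by
        have hex : ∃ u v, u ∈ Icc s₁ t₁ ∧ v ∈ Icc s₁ t₁ ∧ ((F a)^[n] (γ u)).1 = -r ∧
            ((F a)^[n] (γ v)).1 = r := by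
          rcases hC₁.2.1 with ⟨h1, h2⟩ | ⟨h1, h2⟩
          · exact ⟨s₁, t₁, hst1, hst2, h1, h2⟩
          · exact ⟨t₁, s₁, hst2, hst1, h2, h1⟩
        obtain ⟨u, v, hu, hv, h1, h2⟩ := hex
        have h3 := abs_le.1 (hb u hu).2
        have h4 := abs_le.1 (hb v hv).2
        have h5 : ((F a)^[n + 1] (γ u)).1 = -phi a r - ((F a)^[n] (γ u)).2 := by
          rw [iter_fst', h1, phi_neg]
        have h6 : ((F a)^[n + 1] (γ v)).1 = phi a r - ((F a)^[n] (γ v)).2 := by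
          rw [iter_fst', h2]
        rcases abs_cases (phi a r) with ⟨h7, _⟩ | ⟨h7, _⟩
        · rw [h7] at hphi
          exact ⟨u, v, hu, hv, by rw [h5]; linarith [h3.1], by rw [h6]; linarith [h4.2]⟩
        · rw [h7] at hphi
          exact ⟨v, u, hv, hu, by rw [h6]; linarith [h4.1], by rw [h5]; linarith [h3.2]⟩
      obtain ⟨u, v, hu, hv, h1, h2⟩ := hends
      obtain ⟨s₂, t₂, hs₂, ht₂, hC₂⟩ := cross_sub (hc (n + 1)) h1 h2 (by linarith)
      have hs₂' : s₁ ≤ s₂ := (le_min hu.1 hv.1).trans hs₂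
      have ht₂' : t₂ ≤ t₁ := ht₂.trans (max_le hu.2 hv.2)
      refine ⟨s₂, t₂, hs₁.trans hs₂', ht₂'.trans ht₁, hC₂, ?_⟩
      intro τ hτ
      have hτ1 : τ ∈ Icc s₁ t₁ := ⟨hs₂'.trans hτ.1, hτ.2.trans ht₂'⟩
      constructor
      · intro m hm
        rcases Nat.lt_or_ge n m with h | h
        · have : m = n + 1 := by omega
          subst this
          exact abs_le.2 (hC₂.2.2 τ hτ)
        · exact (hb τ hτ1).1 m h
      · rw [iter_snd]
        exact (hb τ hτ1).1 n le_rfl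
  -- compactness
  let K : ℕ → Set ℝ := fun n => {τ | τ ∈ Icc s₀ t₀ ∧ ∀ m ≤ n, |((F a)^[m] (γ τ)).1| ≤ r}
  have hKcl : ∀ n, IsClosed (K n) := by
    intro n
    have : K n = Icc s₀ t₀ ∩ ⋂ m ≤ n, {τ | |((F a)^[m] (γ τ)).1| ≤ r} := by
      ext τ
      simp [K]
    rw [this]
    apply isClosed_Icc.inter
    apply isClosed_biInter
    intro m _
    exact isClosed_le (hc m).abs continuous_const
  have hKne : ∀ n, (K n).Nonempty := by
    intro n
    obtain ⟨s₁, t₁, hs₁, ht₁, hC₁, hb⟩ := claim n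
    exact ⟨s₁, ⟨hs₁, hC₁.1.trans ht₁⟩, (hb s₁ ⟨le_rfl, hC₁.1⟩).1⟩
  obtain ⟨τ, hτ⟩ := IsCompact.nonempty_iInter_of_sequence_nonempty_isCompact_isClosed K
    (fun n τ hτ => ⟨hτ.1, fun m hm => hτ.2 m (by omega)⟩) hKne
    (isCompact_Icc.of_isClosed_subset (hKcl 0) (fun τ hτ => hτ.1)) hKcl
  rw [mem_iInter] at hτ
  have hτ0 : τ ∈ Icc s t := ⟨hs₀.trans (hτ 0).1.1, (hτ 0).1.2.trans ht₀⟩
  refine ⟨pr (γ₀ τ), hA τ hτ0, ?_⟩
  have hlim : Tendsto (fun n : ℕ => ((F a)^[n] (γ τ)).1) atTop (𝓝 0) := by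
    apply conv_zero (a := a) (by linarith)
    · intro n
      exact ((hτ n).2 n le_rfl).trans (by linarith)
    · intro n
      exact iter_fst a n _
  have hlim2 : Tendsto (fun n : ℕ => (F a)^[n] (γ τ)) atTop (𝓝 (0, 0)) := by
    apply Tendsto.prodMk_nhds hlim
    rw [← tendsto_add_atTop_iff_nat 1]
    simp only [iter_snd]
    exact hlim
  have h3 := (pr_cont.tendsto (0, 0)).comp hlim2
  change Tendsto (fun n : ℕ => (S a)^[n] (pr (γ₀ τ))) atTop (𝓝 _)
  have e1 : (fun n : ℕ => (S a)^[n] (pr (γ₀ τ))) = pr ∘ fun n : ℕ => (F a)^[n] (γ τ) := by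
    funext n
    simp only [Function.comp]
    rw [pr_iter, hprγ]
  rw [e1]
  rw [pr_zero] at h3
  exact h3

end Pool.Agent.H242.TM
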