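import Pool.Agent.H242.TM.Time
import Pool.Agent.H242.TM.Area2

set_option autoImplicit false

/-!
# Multiplicative growth along good orbits
-/

namespace Pool.Agent.H242.TM

open Real Set Metric Filter Topology MeasureTheory
open Pool.Agent.TH705.SM (T2 S Si)

/-- the distance to the critical circles -/
noncomputable def dc (x : UnitAddCircle) : ℝ :=
  min (dist x ((1 / 4 : ℝ) : UnitAddCircle)) (dist x ((3 / 4 : ℝ) : UnitAddCircle))

theorem dc_cont : Continuous dc :=
  (continuous_id.dist continuous_const).min (continuous_id.dist continuous_const)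

theorem dc_nonneg (x : UnitAddCircle) : 0 ≤ dc x := le_min dist_nonneg dist_nonneg

theorem dc_le (x y : UnitAddCircle) : dc x ≤ dc y + dist x y := by
  unfold dc
  rcases min_choice (dist y ((1 / 4 : ℝ) : UnitAddCircle)) (dist y ((3 / 4 : ℝ) : UnitAddCircle))
    with h | h
  · rw [h]
    refine (min_le_left _ _).trans ?_
    linarith [dist_triangle x y ((1 / 4 : ℝ) : UnitAddCircle)]
  · rw [h]
    refine (min_le_right _ _).trans ?_
    linarith [dist_triangle x y ((3 / 4 : ℝ) : UnitAddCircle)]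

theorem dist_coe_le (x y : ℝ) : dist (x : UnitAddCircle) (y : UnitAddCircle) ≤ |x - y| := by
  rw [dist_eq_norm, ← AddCircle.coe_sub]
  exact (QuotientAddGroup.norm_mk_le_norm).trans (by rw [Real.norm_eq_abs])

theorem cos_ge_dc (x : ℝ) : 4 * dc (x : UnitAddCircle) ≤ |cos (2 * π * x)| := by
  set y := x - ⌊x⌋ with hy
  have hy0 : 0 ≤ y := by rw [hy]; linarith [Int.floor_le x]
  have hy1 : y < 1 := by rw [hy]; linarith [Int.lt_floor_add_one x]
  have hcos : cos (2 * π * x) = cos (2 * π * y) := by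
    rw [hy, mul_sub, show 2 * π * (⌊x⌋ : ℝ) = (⌊x⌋ : ℝ) * (2 * π) by ring, cos_sub_int_mul_two_pi]
  have hxy : (x : UnitAddCircle) = (y : UnitAddCircle) := by
    rw [hy, AddCircle.coe_sub, coe_int, sub_zero]
  rw [hcos, hxy]
  rcases le_total y (1 / 2) with h | h
  · have h3 := abs_sin_ge (x := y - 1 / 4) (by rw [abs_le]; constructor <;> linarith)
    have h4 : sin (2 * π * (y - 1 / 4)) = -cos (2 * π * y) := by
      rw [show 2 * π * (y - 1 / 4) = 2 * π * y - π / 2 by ring, sin_sub_pi_div_two]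
    rw [h4, abs_neg] at h3
    have h5 : dc (y : UnitAddCircle) ≤ |y - 1 / 4| := (min_le_left _ _).trans (dist_coe_le _ _)
    linarith
  · have h3 := abs_sin_ge (x := y - 3 / 4) (by rw [abs_le]; constructor <;> linarith)
    have h4 : sin (2 * π * (y - 3 / 4)) = cos (2 * π * y) := by
      rw [show 2 * π * (y - 3 / 4) = (2 * π * y - π / 2) - π by ring, sin_sub_pi,
        sin_sub_pi_div_two, neg_neg]
    rw [h4] at h3
    have h5 : dc (y : UnitAddCircle) ≤ |y - 3 / 4| := (min_le_right _ _).trans (dist_coe_le _ _)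
    linarith

theorem dphi_ge (a x : ℝ) : 25 * |a| * dc (x : UnitAddCircle) - 2 ≤ |dphi a x| := by
  have h1 := cos_ge_dc x
  have h2 : |2 * π * a * cos (2 * π * x)| ≤ |dphi a x| + 2 := by
    unfold dphi
    have := abs_sub_abs_le_abs_sub (2 * π * a * cos (2 * π * x)) (-2)
    rw [show 2 * π * a * cos (2 * π * x) - -2 = 2 + 2 * π * a * cos (2 * π * x) by ring,
      abs_neg, abs_two] at this
    linarith
  rw [abs_mul, abs_mul, abs_of_pos (by positivity : (0:ℝ) < 2 * π)] at h2
  have h3 : 25 / 4 ≤ 2 * π := by linarith [pi_gt_d2]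
  have h4 : 0 ≤ |a| * dc (x : UnitAddCircle) := mul_nonneg (abs_nonneg _) (dc_nonneg _)
  have h5 : |a| * (4 * dc (x : UnitAddCircle)) ≤ |a| * |cos (2 * π * x)| :=
    mul_le_mul_of_nonneg_left h1 (abs_nonneg _)
  have h6 : 0 ≤ |a| * |cos (2 * π * x)| := by positivity
  nlinarith

/-- the growth factor -/
noncomputable def lam (a : ℝ) (x : UnitAddCircle) : ℝ := 25 * |a| * dc x - 28

/-- one step of the growth of a connected set -/
theorem grow_step {a G : ℝ} {K : Set (ℝ × ℝ)} (hK : Bornology.IsBounded K)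
    (hKF : Bornology.IsBounded (F a '' K)) (hc : IsPreconnected K) (hG : 1 ≤ G)
    (hd : ∀ r ∈ K, G + 1 ≤ |dphi a r.1|) (hh : hei K ≤ wid K) :
    G * wid K ≤ wid (F a '' K) ∧ hei (F a '' K) ≤ wid (F a '' K) := by
  have h1 : (G + 1) * wid K ≤ wid (F a '' K) + hei K := by
    have h2 : wid K ≤ (wid (F a '' K) + hei K) / (G + 1) := by
      apply wid_le
      · have : 0 ≤ hei K := diam_nonneg
        have := wid_nonneg (F a '' K)
        positivity
      · intro p hp q hq
        rw [le_div_iff₀ (by linarith)]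
        have h5 : (Prod.fst '' K).OrdConnected :=
          (hc.image _ continuous_fst.continuousOn).ordConnected
        have h6 : (G + 1) * |p.1 - q.1| ≤ |phi a p.1 - phi a q.1| := by
          apply mvt_gen
          intro x hx
          have hx2 : x ∈ Prod.fst '' K := by
            have h7 : uIcc p.1 q.1 ⊆ Prod.fst '' K :=
              h5.uIcc_subset (mem_image_of_mem _ hp) (mem_image_of_mem _ hq)
            exact h7 hx
          obtain ⟨r, hr, rfl⟩ := hx2
          exact hd r hr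
        have h3 := le_wid hKF (mem_image_of_mem (F a) hp) (mem_image_of_mem (F a) hq)
        have h4 := le_hei hK hp hq
        have h7 : (F a p).1 - (F a q).1 = (phi a p.1 - phi a q.1) - (p.2 - q.2) := by
          rw [F_fst, F_fst]; ring
        rw [h7] at h3
        have h8 := abs_sub_abs_le_abs_sub (phi a p.1 - phi a q.1) (p.2 - q.2)
        linarith
    rw [le_div_iff₀ (by linarith)] at h2
    linarith
  have h2 : G * wid K ≤ wid (F a '' K) := by linarith
  refine ⟨h2, ?_⟩
  rw [hei_F]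
  have := wid_nonneg K
  nlinarith

/-- the orbit of `z` is good for `2 m` steps -/
def Good (a : ℝ) (m : ℕ) (z : T2) : Prop :=
  (∀ n < 2 * m, 5 / (4 * |a|) < dc ((S a)^[n] z).1) ∧
  ∀ j < m, √|a| ≤ lam a ((S a)^[2 * j] z).1 * lam a ((S a)^[2 * j + 1] z).1

theorem lam_ge {a : ℝ} (ha : 0 < |a|) {x : UnitAddCircle} (h : 5 / (4 * |a|) < dc x) :
    3 ≤ lam a x := by
  unfold lam
  rw [div_lt_iff₀ (by positivity)] at h
  linarith

/-- the growth of a connected set near a good orbit -/
theorem good_growth {a : ℝ} (ha : 0 < |a|) {m : ℕ} {z : T2} (hz : Good a m z)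
    {K : Set (ℝ × ℝ)} (hc : IsPreconnected K) (hb : ∀ n, Bornology.IsBounded ((F a)^[n] '' K))
    (hh : hei K ≤ wid K) {N : ℕ} (hN : N ≤ 2 * m)
    (near : ∀ n < N, ∀ r ∈ (F a)^[n] '' K,
      dist ((r.1 : ℝ) : UnitAddCircle) ((S a)^[n] z).1 ≤ 1 / |a|) :
    (∀ n ≤ N, hei ((F a)^[n] '' K) ≤ wid ((F a)^[n] '' K)) ∧
      ∀ n < N, lam a ((S a)^[n] z).1 * wid ((F a)^[n] '' K) ≤ wid ((F a)^[n + 1] '' K) := by
  have step : ∀ n < N, hei ((F a)^[n] '' K) ≤ wid ((F a)^[n] '' K) →
      lam a ((S a)^[n] z).1 * wid ((F a)^[n] '' K) ≤ wid ((F a)^[n + 1] '' K) ∧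
      hei ((F a)^[n + 1] '' K) ≤ wid ((F a)^[n + 1] '' K) := by
    intro n hn hhn
    rw [iter_image_succ]
    have h3 := lam_ge ha (hz.1 n (by omega))
    apply grow_step (hb n) (by rw [← iter_image_succ]; exact hb (n + 1))
      (hc.image _ ((F_cont a).iterate n).continuousOn) (by linarith) _ hhn
    intro r hr
    have h4 := near n hn r hr
    have h5 := dphi_ge a r.1
    have h6 := dc_le ((S a)^[n] z).1 ((r.1 : ℝ) : UnitAddCircle)
    rw [dist_comm] at h6
    unfold lam
    have h7 : |a| * (1 / |a|) = 1 := mul_one_div_cancel ha.ne'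
    have h8 : 25 * |a| * dc ((S a)^[n] z).1 ≤
        25 * |a| * (dc ((r.1 : ℝ) : UnitAddCircle) + 1 / |a|) := by
      apply mul_le_mul_of_nonneg_left _ (by positivity)
      linarith
    nlinarith
  have hall : ∀ n ≤ N, hei ((F a)^[n] '' K) ≤ wid ((F a)^[n] '' K) := by
    intro n
    induction n with
    | zero =>
      intro _
      simpa using hh
    | succ n ih =>
      intro hn
      exact (step n (by omega) (ih (by omega))).2
  exact ⟨hall, fun n hn => (step n hn (hall n hn.le)).1⟩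

theorem good_growth2 {a : ℝ} (ha : 0 < |a|) {m : ℕ} {z : T2} (hz : Good a m z)
    {K : Set (ℝ × ℝ)} (hc : IsPreconnected K) (hb : ∀ n, Bornology.IsBounded ((F a)^[n] '' K))
    (hh : hei K ≤ wid K) {N : ℕ} (hN : N ≤ 2 * m)
    (near : ∀ n < N, ∀ r ∈ (F a)^[n] '' K,
      dist ((r.1 : ℝ) : UnitAddCircle) ((S a)^[n] z).1 ≤ 1 / |a|) (j : ℕ) (hj : 2 * j ≤ N) :
    √|a| ^ j * wid K ≤ wid ((F a)^[2 * j] '' K) := by
  obtain ⟨h1, h2⟩ := good_growth ha hz hc hb hh hN near
  induction j with
  | zero => simp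
  | succ j ih =>
    have h3 := ih (by omega)
    have h4 := h2 (2 * j) (by omega)
    have h5 := h2 (2 * j + 1) (by omega)
    have h6 := hz.2 j (by omega)
    have h7 := lam_ge ha (hz.1 (2 * j) (by omega))
    have h8 := lam_ge ha (hz.1 (2 * j + 1) (by omega))
    have h9 := wid_nonneg ((F a)^[2 * j] '' K)
    rw [show 2 * (j + 1) = 2 * j + 1 + 1 by ring]
    calc √|a| ^ (j + 1) * wid K = √|a| * (√|a| ^ j * wid K) := by rw [pow_succ]; ring
      _ ≤ √|a| * wid ((F a)^[2 * j] '' K) := by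
          apply mul_le_mul_of_nonneg_left h3 (Real.sqrt_nonneg _)
      _ ≤ (lam a ((S a)^[2 * j] z).1 * lam a ((S a)^[2 * j + 1] z).1) *
            wid ((F a)^[2 * j] '' K) := mul_le_mul_of_nonneg_right h6 h9
      _ = lam a ((S a)^[2 * j + 1] z).1 * (lam a ((S a)^[2 * j] z).1 *
            wid ((F a)^[2 * j] '' K)) := by ring
      _ ≤ lam a ((S a)^[2 * j + 1] z).1 * wid ((F a)^[2 * j + 1] '' K) := by
          apply mul_le_mul_of_nonneg_left h4 (by linarith)
      _ ≤ wid ((F a)^[2 * j + 1 + 1] '' K) := h5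

/-- the exceptional set of a pair of consecutive times -/
theorem lam_lt {a : ℝ} (ha : 0 < |a|) {x : UnitAddCircle} (h : 5 / (4 * |a|) < dc x) {s : ℝ}
    (hs : lam a x ≤ s) : dc x ≤ 21 / 50 * s / |a| := by
  have h3 := lam_ge ha h
  rw [le_div_iff₀ ha]
  unfold lam at hs h3
  nlinarith

/-- the points near the critical circles -/
def Cr (ρ : ℝ) : Set UnitAddCircle := {x | dc x ≤ ρ}

theorem Cr_closed (ρ : ℝ) : IsClosed (Cr ρ) := isClosed_le dc_cont continuous_const

theorem volume_Cr {ρ : ℝ} (h : 0 ≤ ρ) : volume (Cr ρ) ≤ ENNReal.ofReal (4 * ρ) := by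
  have h1 : Cr ρ ⊆ closedBall ((1 / 4 : ℝ) : UnitAddCircle) ρ ∪
      closedBall ((3 / 4 : ℝ) : UnitAddCircle) ρ := by
    intro x hx
    have hx' : min (dist x ((1 / 4 : ℝ) : UnitAddCircle)) (dist x ((3 / 4 : ℝ) : UnitAddCircle)) ≤ ρ :=
      hx
    rcases min_le_iff.1 hx' with h | h
    · exact Or.inl h
    · exact Or.inr h
  refine (measure_mono h1).trans ((measure_union_le _ _).trans ?_)
  rw [AddCircle.volume_closedBall, AddCircle.volume_closedBall,
    ← ENNReal.ofReal_add (le_min (by norm_num) (by positivity)) (le_min (by norm_num) (by positivity))]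
  apply ENNReal.ofReal_le_ofReal
  have := min_le_right (1:ℝ) (2 * ρ)
  linarith

/-- the points whose first coordinate is close to a critical one -/
def W5 (a : ℝ) : Set T2 := Prod.fst ⁻¹' Cr (5 / (4 * |a|))

/-- the points with a bad pair of consecutive growth factors -/
def PB (a : ℝ) : Set T2 :=
  S a ⁻¹' (Cr (21 / 50 * √√|a| / |a|) ×ˢ Cr (7 / 50 * √|a| / |a|)) ∪
    S a ⁻¹' (Cr (7 / 50 * √|a| / |a|) ×ˢ Cr (21 / 50 * √√|a| / |a|))

theorem W5_meas (a : ℝ) : MeasurableSet (W5 a) := ((Cr_closed _).preimage continuous_fst).measurableSet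

theorem PB_meas (a : ℝ) : MeasurableSet (PB a) :=
  ((((Cr_closed _).prod (Cr_closed _)).preimage (TH705.SM.S_cont a)).measurableSet).union
    ((((Cr_closed _).prod (Cr_closed _)).preimage (TH705.SM.S_cont a)).measurableSet)

theorem volume_W5 {a : ℝ} (ha : 0 < |a|) : volume (W5 a) ≤ ENNReal.ofReal (5 / |a|) := by
  have e1 : W5 a = Cr (5 / (4 * |a|)) ×ˢ univ := by
    ext z
    simp [W5]
  rw [e1, Measure.volume_eq_prod, Measure.prod_prod]
  rw [show (volume : Measure UnitAddCircle) univ = 1 from measure_univ, mul_one]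
  refine (volume_Cr (by positivity)).trans (ENNReal.ofReal_le_ofReal (le_of_eq ?_))
  field_simp

theorem volume_PB {a : ℝ} (ha : 5 ≤ |a|) : volume (PB a) ≤ ENNReal.ofReal (3 / 2 / |a|) := by
  have ha0 : 0 < |a| := by linarith
  set R := √|a| with hR
  set r := √R with hr
  have hR0 : 0 < R := Real.sqrt_pos.2 ha0
  have hr0 : 0 < r := Real.sqrt_pos.2 hR0
  have hRR : R * R = |a| := Real.mul_self_sqrt ha0.le
  have hrr : r * r = R := Real.mul_self_sqrt hR0.le
  have hr1 : 63 / 50 ≤ r := by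
    rw [hr]
    apply Real.le_sqrt_of_sq_le
    rw [hR]
    apply Real.le_sqrt_of_sq_le
    norm_num
    linarith
  have key : ∀ u v : ℝ, 0 ≤ u → 0 ≤ v →
      volume (S a ⁻¹' (Cr u ×ˢ Cr v)) ≤ ENNReal.ofReal (16 * (u * v)) := by
    intro u v hu hv
    rw [(TH705.SM.S_mp a).measure_preimage
      ((Cr_closed u).prod (Cr_closed v)).measurableSet.nullMeasurableSet,
      Measure.volume_eq_prod, Measure.prod_prod]
    calc volume (Cr u) * volume (Cr v) ≤ ENNReal.ofReal (4 * u) * ENNReal.ofReal (4 * v) :=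
          mul_le_mul' (volume_Cr hu) (volume_Cr hv)
      _ = ENNReal.ofReal (16 * (u * v)) := by
          rw [← ENNReal.ofReal_mul (by positivity)]
          congr 1
          ring
  have h1 := key (21 / 50 * r / |a|) (7 / 50 * R / |a|) (by positivity) (by positivity)
  have h2 := key (7 / 50 * R / |a|) (21 / 50 * r / |a|) (by positivity) (by positivity)
  refine (measure_union_le _ _).trans ((add_le_add h1 h2).trans ?_)
  rw [← ENNReal.ofReal_add (by positivity) (by positivity)]
  apply ENNReal.ofReal_le_ofReal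
  rw [show 16 * (21 / 50 * r / |a| * (7 / 50 * R / |a|)) + 16 * (7 / 50 * R / |a| *
    (21 / 50 * r / |a|)) = (32 * (147 / 2500) * (r * R) / |a|) / |a| by field_simp; ring]
  apply div_le_div_of_nonneg_right _ ha0.le
  rw [div_le_iff₀ ha0, ← hRR]
  have h3 : R * R = (r * R) * r := by rw [← hrr]; ring
  rw [h3]
  have h4 : 0 < r * R := by positivity
  nlinarith

end Pool.Agent.H242.TM
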