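import Pool.Agent.H242.TM.Mult

set_option autoImplicit false

/-!
# Good points: small islands, and mixing of short segments
-/

namespace Pool.Agent.H242.TM

open Real Set Metric Filter Topology MeasureTheory
open Pool.Agent.TH705.SM (T2 S Si)

theorem good_meas (a : ℝ) (m : ℕ) : MeasurableSet {z | Good a m z} := by
  have hc : ∀ n, Continuous fun z : T2 => ((S a)^[n] z).1 := fun n =>
    continuous_fst.comp ((TH705.SM.S_cont a).iterate n)
  have hl : Continuous (lam a) := by
    have := dc_cont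
    unfold lam
    fun_prop
  have e1 : {z | Good a m z} = (⋂ n ∈ Finset.range (2 * m),
      {z | 5 / (4 * |a|) < dc ((S a)^[n] z).1}) ∩ ⋂ j ∈ Finset.range m,
      {z | √|a| ≤ lam a ((S a)^[2 * j] z).1 * lam a ((S a)^[2 * j + 1] z).1} := by
    ext z
    simp [Good]
  rw [e1]
  apply MeasurableSet.inter
  · apply Finset.measurableSet_biInter
    intro n _
    exact (isOpen_lt continuous_const (dc_cont.comp (hc n))).measurableSet
  · apply Finset.measurableSet_biInter
    intro j _
    exact (isClosed_le continuous_const ((hl.comp (hc _)).mul (hl.comp (hc _)))).measurableSet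

theorem bad_subset {a : ℝ} (ha : 5 ≤ |a|) (m : ℕ) : {z | Good a m z}ᶜ ⊆
    (⋃ n ∈ Finset.range (2 * m), (S a)^[n] ⁻¹' W5 a) ∪
      ⋃ j ∈ Finset.range m, (S a)^[2 * j] ⁻¹' PB a := by
  intro z hz
  have ha0 : 0 < |a| := by linarith
  have hz' : ¬ Good a m z := hz
  unfold Good at hz'
  by_cases h1 : ∀ n < 2 * m, 5 / (4 * |a|) < dc ((S a)^[n] z).1
  · right
    have h2 : ¬ ∀ j < m, √|a| ≤ lam a ((S a)^[2 * j] z).1 * lam a ((S a)^[2 * j + 1] z).1 :=
      fun h => hz' ⟨h1, h⟩
    push Not at h2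
    obtain ⟨j, hj, hlt⟩ := h2
    refine mem_biUnion (Finset.mem_coe.2 (Finset.mem_range.2 hj)) ?_
    set u := ((S a)^[2 * j] z).1 with hu
    set v := ((S a)^[2 * j + 1] z).1 with hv
    have hu5 := h1 (2 * j) (by omega)
    have hv5 := h1 (2 * j + 1) (by omega)
    rw [← hu] at hu5
    rw [← hv] at hv5
    have hu3 := lam_ge ha0 hu5
    have hv3 := lam_ge ha0 hv5
    set R := √|a| with hR
    set r := √R with hr
    have hR0 : 0 < R := Real.sqrt_pos.2 ha0
    have hrr : r * r = R := Real.mul_self_sqrt hR0.le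
    have e1 : S a ((S a)^[2 * j] z) = (v, u) := by
      have h3 : (S a ((S a)^[2 * j] z)).1 = v := by
        rw [hv, Function.iterate_succ_apply']
      have h4 : (S a ((S a)^[2 * j] z)).2 = u := rfl
      exact Prod.ext h3 h4
    rcases le_or_gt (lam a u) r with h | h
    · right
      rw [mem_preimage, e1]
      refine ⟨?_, ?_⟩
      · have h5 : lam a v ≤ R / 3 := by
          rw [le_div_iff₀ (by norm_num)]
          nlinarith
        have h6 := lam_lt ha0 hv5 h5
        change dc v ≤ _
        refine h6.trans (le_of_eq ?_)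
        ring
      · exact lam_lt ha0 hu5 h
    · left
      rw [mem_preimage, e1]
      have hvr : lam a v ≤ r := by
        by_contra hcon
        have := not_le.1 hcon
        have hr0 : 0 < r := Real.sqrt_pos.2 hR0
        nlinarith
      refine ⟨?_, ?_⟩
      · exact lam_lt ha0 hv5 hvr
      · have h5 : lam a u ≤ R / 3 := by
          rw [le_div_iff₀ (by norm_num)]
          nlinarith
        have h6 := lam_lt ha0 hu5 h5
        change dc u ≤ _
        refine h6.trans (le_of_eq ?_)
        ring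
  · left
    push Not at h1
    obtain ⟨n, hn, hn2⟩ := h1
    exact mem_biUnion (Finset.mem_coe.2 (Finset.mem_range.2 hn)) hn2

theorem volume_bad {a : ℝ} (ha : 5 ≤ |a|) (m : ℕ) :
    volume {z | Good a m z}ᶜ ≤ ENNReal.ofReal (23 / 2 * m / |a|) := by
  have ha0 : 0 < |a| := by linarith
  have h1 : volume (⋃ n ∈ Finset.range (2 * m), (S a)^[n] ⁻¹' W5 a) ≤
      ENNReal.ofReal (10 * m / |a|) := by
    refine (measure_biUnion_finset_le _ _).trans ?_
    calc ∑ n ∈ Finset.range (2 * m), volume ((S a)^[n] ⁻¹' W5 a)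
        ≤ ∑ n ∈ Finset.range (2 * m), ENNReal.ofReal (5 / |a|) := by
          apply Finset.sum_le_sum
          intro n _
          rw [(TH705.SM.iter_mp a n).measure_preimage (W5_meas a).nullMeasurableSet]
          exact volume_W5 ha0
      _ = ENNReal.ofReal (10 * m / |a|) := by
          rw [Finset.sum_const, Finset.card_range, nsmul_eq_mul,
            ← ENNReal.ofReal_natCast, ← ENNReal.ofReal_mul (by positivity)]
          congr 1
          push_cast
          ring
  have h2 : volume (⋃ j ∈ Finset.range m, (S a)^[2 * j] ⁻¹' PB a) ≤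
      ENNReal.ofReal (3 / 2 * m / |a|) := by
    refine (measure_biUnion_finset_le _ _).trans ?_
    calc ∑ n ∈ Finset.range m, volume ((S a)^[2 * n] ⁻¹' PB a)
        ≤ ∑ n ∈ Finset.range m, ENNReal.ofReal (3 / 2 / |a|) := by
          apply Finset.sum_le_sum
          intro n _
          rw [(TH705.SM.iter_mp a _).measure_preimage (PB_meas a).nullMeasurableSet]
          exact volume_PB ha
      _ = ENNReal.ofReal (3 / 2 * m / |a|) := by
          rw [Finset.sum_const, Finset.card_range, nsmul_eq_mul,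
            ← ENNReal.ofReal_natCast, ← ENNReal.ofReal_mul (by positivity)]
          congr 1
          ring
  refine (measure_mono (bad_subset ha m)).trans ((measure_union_le _ _).trans
    ((add_le_add h1 h2).trans ?_))
  rw [← ENNReal.ofReal_add (by positivity) (by positivity)]
  apply ENNReal.ofReal_le_ofReal
  apply le_of_eq
  ring

/-- the points whose future and past are good -/
def GG (a : ℝ) (m : ℕ) : Set T2 := {z | Good a m z ∧ Good a m (Prod.swap z)}

theorem GG_meas (a : ℝ) (m : ℕ) : MeasurableSet (GG a m) :=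
  (good_meas a m).inter (measurable_swap (good_meas a m))

theorem volume_GG {a : ℝ} (ha : 5 ≤ |a|) (m : ℕ) :
    volume (GG a m)ᶜ ≤ ENNReal.ofReal (23 * m / |a|) := by
  have e1 : (GG a m)ᶜ = {z | Good a m z}ᶜ ∪ Prod.swap ⁻¹' {z | Good a m z}ᶜ := by
    ext z
    have h1 : z ∈ (GG a m)ᶜ ↔ ¬ (Good a m z ∧ Good a m (Prod.swap z)) := Iff.rfl
    have h2 : z ∈ {z | Good a m z}ᶜ ∪ Prod.swap ⁻¹' {z | Good a m z}ᶜ ↔
        (¬ Good a m z ∨ ¬ Good a m (Prod.swap z)) := Iff.rfl
    rw [h1, h2, not_and_or]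
  have hsw : MeasurePreserving (Prod.swap : T2 → T2) volume volume :=
    Measure.measurePreserving_swap
  rw [e1]
  refine (measure_union_le _ _).trans ?_
  rw [hsw.measure_preimage (good_meas a m).compl.nullMeasurableSet]
  refine (add_le_add (volume_bad ha m) (volume_bad ha m)).trans ?_
  rw [← ENNReal.ofReal_add (by positivity) (by positivity)]
  apply ENNReal.ofReal_le_ofReal
  apply le_of_eq
  ring

/-- the preconnected subsets of the preimage of a small set are bounded -/
theorem small_bounded {a : ℝ} {A : Set T2} (h : Small a A) {C : Set (ℝ × ℝ)}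
    (hC : IsPreconnected C) (hCA : C ⊆ pr ⁻¹' A) : Bornology.IsBounded C := by
  rw [Metric.isBounded_iff]
  refine ⟨3 / (4 * |a|), fun p hp q hq => ?_⟩
  have := h C hC hCA p hp q hq
  rw [Prod.dist_eq, Real.dist_eq, Real.dist_eq]
  exact max_le this.1 this.2

theorem small_wid {a : ℝ} {A : Set T2} (h : Small a A) {C : Set (ℝ × ℝ)}
    (hC : IsPreconnected C) (hCA : C ⊆ pr ⁻¹' A) : wid C ≤ 3 / (4 * |a|) :=
  wid_le (by positivity) fun p hp q hq => (h C hC hCA p hp q hq).1

/-- the images of `C` are in the preimages of the images of `A` -/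
theorem iter_sub {a : ℝ} {A : Set T2} {C : Set (ℝ × ℝ)} (hCA : C ⊆ pr ⁻¹' A) (n : ℕ) :
    (F a)^[n] '' C ⊆ pr ⁻¹' ((S a)^[n] '' A) := by
  rintro _ ⟨r, hr, rfl⟩
  rw [mem_preimage, pr_iter]
  exact mem_image_of_mem _ (hCA hr)

theorem near_orbit {a : ℝ} (ha : 0 < |a|) {A : Set T2} (hAo : IsOpen A) (hAc : IsPreconnected A)
    (hs : ∀ n, Small a ((S a)^[n] '' A)) {z : T2} (hz : z ∈ A) {C : Set (ℝ × ℝ)}
    (hCA : C ⊆ pr ⁻¹' A) (n : ℕ) (r : ℝ × ℝ) (hr : r ∈ (F a)^[n] '' C) :
    dist ((r.1 : ℝ) : UnitAddCircle) ((S a)^[n] z).1 ≤ 1 / |a| := by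
  have h1 : pr r ∈ (S a)^[n] '' A := iter_sub hCA n hr
  obtain ⟨r', hr', hr2⟩ := comp_onto (isOpen_image a n hAo)
    (hAc.image _ ((TH705.SM.S_cont a).iterate n).continuousOn) h1 (mem_image_of_mem _ hz)
  have h2 := (hs n _ isPreconnected_connectedComponentIn (connectedComponentIn_subset _ _) r
    (mem_connectedComponentIn h1) r' hr').1
  rw [← hr2]
  change dist ((r.1 : ℝ) : UnitAddCircle) ((r'.1 : ℝ) : UnitAddCircle) ≤ _
  refine (dist_coe_le _ _).trans (h2.trans ?_)
  rw [div_le_div_iff₀ (by positivity) ha]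
  linarith

/-- **the islands of good points are small** -/
theorem island_good {a : ℝ} (ha : 5 ≤ |a|) {A : Set T2} (hAo : IsOpen A)
    (hAc : IsPreconnected A) (hs : ∀ n, Small a ((S a)^[n] '' A)) {z : T2} (hz : z ∈ A) {m : ℕ}
    (hg : Good a m z) {C : Set (ℝ × ℝ)} (hC : IsPreconnected C) (hCA : C ⊆ pr ⁻¹' A)
    (hh : hei C ≤ wid C) : √|a| ^ m * wid C ≤ 3 / (4 * |a|) := by
  have ha0 : 0 < |a| := by linarith
  have hCn : ∀ n, IsPreconnected ((F a)^[n] '' C) := fun n =>
    hC.image _ ((F_cont a).iterate n).continuousOn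
  have h1 := good_growth2 ha0 hg hC (fun n => small_bounded (hs n) (hCn n) (iter_sub hCA n)) hh
    (N := 2 * m) le_rfl (fun n _ r hr => near_orbit ha0 hAo hAc hs hz hCA n r hr) m le_rfl
  exact h1.trans (small_wid (hs _) (hCn _) (iter_sub hCA _))

/-- islands which do not visit the strips grow by the factor three -/
theorem island_three {a : ℝ} (ha : 5 ≤ |a|) {A : Set T2} (hAo : IsOpen A)
    (hAc : IsPreconnected A) (hs : ∀ n, Small a ((S a)^[n] '' A)) {z : T2} (hz : z ∈ A) {m : ℕ}
    (hg : ∀ n < m, (S a)^[n] z ∉ strips a) {C : Set (ℝ × ℝ)} (hC : IsPreconnected C)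
    (hCA : C ⊆ pr ⁻¹' A) (hh : hei C ≤ wid C) : 3 ^ m * wid C ≤ 3 / (4 * |a|) := by
  have hCn : ∀ n, IsPreconnected ((F a)^[n] '' C) := fun n =>
    hC.image _ ((F_cont a).iterate n).continuousOn
  have hbd : ∀ n, Bornology.IsBounded ((F a)^[n] '' C) := fun n =>
    small_bounded (hs n) (hCn n) (iter_sub hCA n)
  have key : ∀ n ≤ m, 3 ^ n * wid C ≤ wid ((F a)^[n] '' C) ∧
      hei ((F a)^[n] '' C) ≤ wid ((F a)^[n] '' C) := by
    intro n
    induction n with
    | zero => intro _; simpa using hh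
    | succ n ih =>
      intro hn
      obtain ⟨h1, h2⟩ := ih (by omega)
      rw [iter_image_succ]
      have h3 := grow_step (a := a) (G := 3) (hbd n) (by rw [← iter_image_succ]; exact hbd (n + 1))
        (hCn n) (by norm_num) (by
          intro r hr
          by_contra hcon
          apply hg n (by omega)
          refine subset_strips ha (isOpen_image a n hAo)
            (hAc.image _ ((TH705.SM.S_cont a).iterate n).continuousOn) (hs n)
            (iter_sub hCA n hr) ?_ (mem_image_of_mem _ hz)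
          have := not_le.1 hcon
          linarith) h2
      refine ⟨?_, h3.2⟩
      rw [pow_succ]
      linarith [h3.1]
  exact (key m le_rfl).1.trans (small_wid (hs _) (hCn _) (iter_sub hCA _))

/-- the images of the mirror image of a component -/
theorem small_mirror {a : ℝ} (ha : 5 ≤ |a|) {z : T2} (n : ℕ) :
    Small a ((S a)^[n] '' (Prod.swap '' Dom a z)) := by
  have := lc_torus
  rw [image_swap_iter]
  apply small_swap
  have h1 : IsOpen (Dom a z) := isClosed_closure.isOpen_compl.connectedComponentIn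
  have h2 : IsOpen ((Si a)^[n] '' Dom a z) := by
    have h3 : (Si a)^[n] '' Dom a z = (S a)^[n] ⁻¹' Dom a z := by
      ext x
      constructor
      · rintro ⟨y, hy, rfl⟩
        rw [mem_preimage, iter_S_Si]
        exact hy
      · intro hx
        exact ⟨(S a)^[n] x, hx, iter_Si_S a n x⟩
    rw [h3]
    exact h1.preimage ((TH705.SM.S_cont a).iterate n)
  apply small_of_disjoint ha h2
  rw [disjoint_left]
  intro x hx hx2
  have h3 : x ∈ (closure (Ws a))ᶜ := by
    rw [← Si_image_compl_X a n]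
    exact image_mono (connectedComponentIn_subset _ _) hx
  exact h3 hx2

/-- a two-sided criterion for small islands -/
theorem smallBy_of {a : ℝ} (ha : 5 ≤ |a|) {z : T2} (hz : z ∈ (closure (Ws a))ᶜ) {e : ℝ}
    (P : T2 → Prop) (hP : ∀ (A : Set T2), IsOpen A → IsPreconnected A →
      (∀ n, Small a ((S a)^[n] '' A)) → ∀ w ∈ A, P w → ∀ C : Set (ℝ × ℝ), IsPreconnected C →
      C ⊆ pr ⁻¹' A → hei C ≤ wid C → wid C ≤ e) (h1 : P z) (h2 : P (Prod.swap z)) :
    SmallBy e (Dom a z) := by
  have := lc_torus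
  have hI := island_comp ha hz
  have hI' : ∀ n, Small a ((S a)^[n] '' Dom a z) := fun n => hI.small_image ha n
  have hs0 : Small a (Dom a z) := hI.small
  intro C hC hCA p hp q hq
  have hb : Bornology.IsBounded C := small_bounded hs0 hC hCA
  have h3 := le_wid hb hp hq
  have h4 := le_hei hb hp hq
  rcases le_total (hei C) (wid C) with h | h
  · have h5 := hP (Dom a z) hI.isOpen hI.isConnected.isPreconnected hI' z
      (mem_connectedComponentIn hz) h1 C hC hCA h
    exact ⟨h3.trans h5, h4.trans (h.trans h5)⟩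
  · have h5 := hP (Prod.swap '' Dom a z) (isOpen_swap hI.isOpen)
      (hI.isConnected.isPreconnected.image _ continuous_swap.continuousOn)
      (small_mirror ha) (Prod.swap z) (mem_image_of_mem _ (mem_connectedComponentIn hz)) h2
      (Prod.swap '' C) (hC.image _ continuous_swap.continuousOn) (by
        rintro _ ⟨r, hr, rfl⟩
        exact ⟨pr r, hCA hr, rfl⟩) (by rw [hei_swap, wid_swap]; exact h)
    rw [wid_swap] at h5
    exact ⟨h3.trans (h.trans h5), h4.trans h5⟩

/-- **the size of the island of a good point** -/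
theorem smallBy_good {a : ℝ} (ha : 5 ≤ |a|) {z : T2} (hz : z ∈ (closure (Ws a))ᶜ) {m : ℕ}
    (h : z ∈ GG a m) : SmallBy (3 / (4 * |a|) / √|a| ^ m) (Dom a z) := by
  have ha0 : 0 < |a| := by linarith
  refine smallBy_of ha hz (Good a m) ?_ h.1 h.2
  intro A hAo hAc hs w hw hg C hC hCA hh
  have := island_good ha hAo hAc hs hw hg hC hCA hh
  rw [le_div_iff₀ (by positivity)]
  linarith

theorem smallBy_three {a : ℝ} (ha : 5 ≤ |a|) {z : T2} (hz : z ∈ (closure (Ws a))ᶜ) {m : ℕ}
    (h1 : ∀ n < m, (S a)^[n] z ∉ strips a) (h2 : ∀ n < m, (S a)^[n] (Prod.swap z) ∉ strips a) :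
    SmallBy (3 / (4 * |a|) / 3 ^ m) (Dom a z) := by
  refine smallBy_of ha hz (fun z => ∀ n < m, (S a)^[n] z ∉ strips a) ?_ h1 h2
  intro A hAo hAc hs w hw hg C hC hCA hh
  have := island_three ha hAo hAc hs hw hg hC hCA hh
  rw [le_div_iff₀ (by positivity)]
  linarith

end Pool.Agent.H242.TM
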