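import Pool.Agent.H242.TM.Mult2

set_option autoImplicit false

/-!
# Good points: areas, distances and mixing times
-/

namespace Pool.Agent.H242.TM

open Real Set Metric Filter Topology MeasureTheory
open Pool.Agent.TH705.SM (T2 S Si)

theorem iter_Si_S_sub (a : ℝ) {n k : ℕ} (h : n ≤ k) (y : T2) :
    (Si a)^[n] ((S a)^[k] y) = (S a)^[k - n] y := by
  obtain ⟨j, rfl⟩ := Nat.exists_eq_add_of_le h
  rw [Function.iterate_add_apply, iter_Si_S]
  congr 2
  omega

/-- **an island which does not visit the strips for a long time is small** -/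
theorem smallBy_visit {a : ℝ} (ha : 5 ≤ |a|) {y : T2} {k : ℕ}
    (hy : (S a)^[k] y ∈ (closure (Ws a))ᶜ) (h : ∀ n < 2 * k, (S a)^[n] y ∉ strips a) :
    SmallBy (3 / (4 * |a|) / 3 ^ k) (Dom a ((S a)^[k] y)) := by
  apply smallBy_three ha hy
  · intro n hn
    rw [← Function.iterate_add_apply]
    exact h _ (by omega)
  · intro n hn
    rw [iter_swap, iter_Si_S_sub a hn.le]
    have e1 : ((S a)^[k - n] y).2 = ((S a)^[k - n - 1] y).1 := by
      obtain ⟨j, hj⟩ : ∃ j, k - n = j + 1 := ⟨k - n - 1, by omega⟩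
      rw [hj, Function.iterate_succ_apply']
      rfl
    intro hmem
    apply h (k - n - 1) (by omega)
    have h1 : dist ((S a)^[k - n] y).2 ((1 / 4 : ℝ) : UnitAddCircle) ≤ 1 / |a| ∨
        dist ((S a)^[k - n] y).2 ((3 / 4 : ℝ) : UnitAddCircle) ≤ 1 / |a| := hmem
    rw [e1] at h1
    exact h1

/-- the area of the union of the large islands -/
theorem volume_large3 {a : ℝ} (ha : 5 ≤ |a|) (k : ℕ) :
    volume {z | z ∈ (closure (Ws a))ᶜ ∧ ¬ SmallBy (3 / (4 * |a|) / 3 ^ k) (Dom a z)} ≤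
      ENNReal.ofReal (8 * k / |a|) := by
  rw [← (TH705.SM.iter_mp a k).measure_preimage
    (isOpen_dom a (fun A => ¬ SmallBy (3 / (4 * |a|) / 3 ^ k) A)).measurableSet.nullMeasurableSet]
  have h1 := volume_union ha (2 * k)
  have e1 : 4 * ((2 * k : ℕ) : ℝ) / |a| = 8 * k / |a| := by push_cast; ring
  rw [e1] at h1
  refine (measure_mono ?_).trans h1
  rintro y ⟨hy, hy2⟩
  by_contra hcon
  apply hy2
  apply smallBy_visit ha hy
  intro n hn hn2
  exact hcon (mem_biUnion (Finset.mem_coe.2 (Finset.mem_range.2 hn)) hn2)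

/-- the component of a point far from `X` is large -/
theorem large_of_far' {a : ℝ} {e : ℝ} (he : 0 ≤ e) {z : T2}
    (hz : e < infDist z (closure (Ws a))) :
    z ∈ (closure (Ws a))ᶜ ∧ ¬ SmallBy (2 * e) (Dom a z) := by
  set r := infDist z (closure (Ws a)) with hr
  have hr0 : 0 < r := lt_of_le_of_lt he hz
  have hzX : z ∈ (closure (Ws a))ᶜ := by
    intro h
    rw [hr, infDist_zero_of_mem h] at hr0
    exact lt_irrefl _ hr0
  refine ⟨hzX, fun hs => ?_⟩
  obtain ⟨p, rfl⟩ := pr_surj z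
  obtain ⟨ρ, hρ1, hρ2⟩ := exists_between hz
  have hρ0 : 0 < ρ := lt_of_le_of_lt he hρ1
  set C : Set (ℝ × ℝ) := (fun s : ℝ => ((p.1 + s, p.2) : ℝ × ℝ)) '' Icc (-ρ) ρ with hC
  have hCc : IsPreconnected C := isPreconnected_Icc.image _ (by fun_prop)
  have h0 : p ∈ C := ⟨0, ⟨by linarith, hρ0.le⟩, by simp⟩
  have h1 : pr '' C ⊆ (closure (Ws a))ᶜ := by
    rintro _ ⟨_, ⟨s, hs, rfl⟩, rfl⟩ hmem
    have h2 := infDist_le_dist_of_mem (x := pr p) hmem
    have h3 : dist (pr p) (pr (p.1 + s, p.2)) ≤ ρ := by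
      rw [Prod.dist_eq]
      apply max_le
      · change dist (p.1 : UnitAddCircle) ((p.1 + s : ℝ) : UnitAddCircle) ≤ _
        refine (dist_coe_le _ _).trans ?_
        rw [show p.1 - (p.1 + s) = -s by ring, abs_neg, abs_le]
        exact hs
      · change dist (p.2 : UnitAddCircle) (p.2 : UnitAddCircle) ≤ _
        rw [dist_self]
        exact hρ0.le
    linarith
  have h4 : pr '' C ⊆ Dom a (pr p) :=
    (hCc.image _ pr_cont.continuousOn).subset_connectedComponentIn (mem_image_of_mem _ h0) h1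
  have h5 := (hs C hCc (image_subset_iff.1 h4) _
    (mem_image_of_mem _ (show ρ ∈ Icc (-ρ) ρ from ⟨by linarith, le_rfl⟩)) _
    (mem_image_of_mem _ (show -ρ ∈ Icc (-ρ) ρ from ⟨le_rfl, by linarith⟩))).1
  simp only at h5
  rw [show p.1 + ρ - (p.1 + -ρ) = 2 * ρ by ring, abs_of_pos (by linarith)] at h5
  linarith

/-- good points are close to `X` -/
theorem dist_good {a : ℝ} (ha : 5 ≤ |a|) {z : T2} {m : ℕ} (h : z ∈ GG a m) :
    infDist z (closure (Ws a)) ≤ 3 / (8 * |a|) / √|a| ^ m := by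
  by_contra hcon
  have ha0 : 0 < |a| := by linarith
  obtain ⟨h1, h2⟩ := large_of_far' (by positivity) (not_le.1 hcon)
  apply h2
  have e1 : 2 * (3 / (8 * |a|) / √|a| ^ m) = 3 / (4 * |a|) / √|a| ^ m := by
    rw [← mul_div_assoc]
    congr 1
    field_simp
    norm_num
  rw [e1]
  exact smallBy_good ha h1 h

/-- a neighbourhood of `X` of large area -/
theorem volume_far3 {a : ℝ} (ha : 5 ≤ |a|) (k : ℕ) :
    volume {z | 3 / (8 * |a|) / 3 ^ k < infDist z (closure (Ws a))} ≤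
      ENNReal.ofReal (8 * k / |a|) := by
  refine (measure_mono fun z hz => ?_).trans (volume_large3 ha k)
  have ha0 : 0 < |a| := by linarith
  obtain ⟨h1, h2⟩ := large_of_far' (by positivity) hz
  refine ⟨h1, ?_⟩
  have e1 : 2 * (3 / (8 * |a|) / 3 ^ k) = 3 / (4 * |a|) / 3 ^ k := by
    rw [← mul_div_assoc]
    congr 1
    field_simp
    norm_num
  rw [e1] at h2
  exact h2

/-- **the images of a short horizontal segment at a good point** -/
theorem seg_good {a : ℝ} (ha : 5 ≤ |a|) {m : ℕ} {z : T2} (hz : Good a m z) {k : ℕ}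
    (hk : 2 * |a| ≤ 2 ^ (2 ^ k)) {n : ℕ} (hn : 2 * m + k + 2 ≤ n) :
    Box a ((S a)^[n] '' hseg z (1 / (2 * |a|) / √|a| ^ m)) := by
  have ha0 : 0 < |a| := by linarith
  set ρ := 1 / (2 * |a|) / √|a| ^ m with hρ
  have hsq : 0 < √|a| ^ m := pow_pos (Real.sqrt_pos.2 ha0) m
  have hρ0 : 0 < ρ := by positivity
  obtain ⟨p, rfl⟩ := pr_surj z
  set γ : ℝ → ℝ × ℝ := fun τ => (p.1 + τ, p.2) with hγ
  have hγc : Continuous γ := by rw [hγ]; fun_prop
  set K := γ '' Icc (-ρ) ρ with hK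
  have hKc : IsCompact K := isCompact_Icc.image hγc
  have hKp : IsPreconnected K := isPreconnected_Icc.image _ hγc.continuousOn
  have hb : ∀ n, Bornology.IsBounded ((F a)^[n] '' K) := fun n =>
    (hKc.image ((F_cont a).iterate n)).isBounded
  have hpK : p ∈ K := ⟨0, ⟨by linarith, hρ0.le⟩, by simp [hγ]⟩
  have hw0 : 2 * ρ ≤ wid K := by
    have h1 := le_wid hKc.isBounded (mem_image_of_mem γ (show ρ ∈ Icc (-ρ) ρ from
      ⟨by linarith, le_rfl⟩)) (mem_image_of_mem γ (show -ρ ∈ Icc (-ρ) ρ from ⟨le_rfl, by linarith⟩))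
    simp only [hγ] at h1
    rw [show p.1 + ρ - (p.1 + -ρ) = 2 * ρ by ring, abs_of_pos (by linarith)] at h1
    exact h1
  have hh0 : hei K ≤ 0 := by
    apply hei_le le_rfl
    rintro _ ⟨τ, _, rfl⟩ _ ⟨σ, _, rfl⟩
    simp [hγ]
  have hh : hei K ≤ wid K := by linarith
  -- nearness as long as the images are narrow
  have near : ∀ n, wid ((F a)^[n] '' K) ≤ 1 / |a| → ∀ r ∈ (F a)^[n] '' K,
      dist ((r.1 : ℝ) : UnitAddCircle) ((S a)^[n] (pr p)).1 ≤ 1 / |a| := by
    intro n hwn r hr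
    rw [← pr_iter]
    change dist ((r.1 : ℝ) : UnitAddCircle) ((((F a)^[n] p).1 : ℝ) : UnitAddCircle) ≤ _
    refine (dist_coe_le _ _).trans ?_
    exact (le_wid (hb n) hr (mem_image_of_mem _ hpK)).trans hwn
  -- the first wide image
  have hex : ∃ i, 1 / |a| ≤ wid ((F a)^[i] '' K) ∧ i ≤ 2 * m := by
    by_contra hcon
    push Not at hcon
    have hnar : ∀ i ≤ 2 * m, wid ((F a)^[i] '' K) < 1 / |a| := by
      intro i hi
      by_contra h
      exact absurd hi (not_le.2 (hcon i (not_lt.1 h)))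
    have h1 := good_growth2 ha0 hz hKp hb hh (N := 2 * m) le_rfl
      (fun n hn => near n (hnar n hn.le).le) m le_rfl
    have h2 := hnar (2 * m) le_rfl
    have h3 : √|a| ^ m * (2 * ρ) ≤ √|a| ^ m * wid K := mul_le_mul_of_nonneg_left hw0 hsq.le
    have h4 : √|a| ^ m * (2 * ρ) = 1 / |a| := by
      rw [hρ]
      field_simp
    linarith
  classical
  have hfind := Nat.find_spec hex
  set i := Nat.find hex with hi
  have hmin : ∀ n < i, wid ((F a)^[n] '' K) < 1 / |a| := by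
    intro n hn
    by_contra h
    exact Nat.find_min hex hn ⟨not_lt.1 h, by omega⟩
  obtain ⟨hi1, hi2⟩ := hfind
  have hgr := (good_growth ha0 hz hKp hb hh (N := i) hi2
    (fun n hn => near n (hmin n hn).le)).1 i le_rfl
  have hA1 : (1 / |a| : ℝ) ≤ 1 := by
    rw [div_le_one ha0]
    linarith
  have hhi : hei ((F a)^[i] '' K) ≤ 1 := by
    rcases Nat.eq_zero_or_pos i with h0 | h0
    · rw [h0]
      simp only [Function.iterate_zero, image_id]
      linarith
    · obtain ⟨j, hj⟩ : ∃ j, i = j + 1 := ⟨i - 1, by omega⟩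
      rw [hj, iter_image_succ, hei_F]
      exact (hmin j (by omega)).le.trans hA1
  have hF : FwdE (min (wid ((F a)^[i] '' K)) 1)
      ((S a)^[i] '' hseg (pr p) ρ) := by
    have e1 : (F a)^[i] '' K = (fun τ => (F a)^[i] (γ τ)) '' Icc (-ρ) ρ := by
      rw [hK, image_image]
    have h1 := fwd_of_wide (A := (S a)^[i] '' hseg (pr p) ρ) (γ := fun τ => (F a)^[i] (γ τ))
      (((F_cont a).iterate i).comp hγc) (s := -ρ) (t := ρ) (by linarith) (by
        intro τ hτ
        rw [pr_iter]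
        refine mem_image_of_mem _ ⟨?_, rfl⟩
        change dist ((p.1 + τ : ℝ) : UnitAddCircle) (p.1 : UnitAddCircle) ≤ _
        refine (dist_coe_le _ _).trans ?_
        rw [show p.1 + τ - p.1 = τ by ring, abs_le]
        exact hτ) (by rw [← e1]; exact hgr) (by rw [← e1]; exact hhi)
    rw [← e1] at h1
    exact h1
  have h1 : 1 ≤ |a| * min (wid ((F a)^[i] '' K)) 1 := by
    have h2 : 1 / |a| ≤ min (wid ((F a)^[i] '' K)) 1 := le_min hi1 hA1
    rw [div_le_iff₀ ha0] at h2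
    linarith
  have h2 := box_explicit (by linarith) (min_le_right _ _) h1 hF hk (n := n - i) (by omega)
  rw [← image_add, show n - i + i = n by omega] at h2
  exact h2

/-- **mixing of short segments at good points** -/
theorem mix_good {a : ℝ} (ha : 5 ≤ |a|) {m : ℕ} {p q : T2} (hp : Good a m p)
    (hq : Good a m (Prod.swap q)) {k : ℕ} (hk : 2 * |a| ≤ 2 ^ (2 ^ k)) {n : ℕ}
    (hn : 4 * m + 2 * k + 4 ≤ n) :
    ((S a)^[n] '' hseg p (1 / (2 * |a|) / √|a| ^ m) ∩
      vseg q (1 / (2 * |a|) / √|a| ^ m)).Nonempty := by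
  obtain ⟨j, rfl⟩ := Nat.exists_eq_add_of_le hn
  rw [show 4 * m + 2 * k + 4 + j = (2 * m + k + 2 + j) + (2 * m + k + 2) by ring]
  apply mix_time (by linarith)
  · exact seg_good ha hp hk (by omega)
  · rw [swap_vseg]
    exact seg_good ha hq hk le_rfl

end Pool.Agent.H242.TM
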