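import Pool.Agent.H242.TM.Growth
import Pool.Graph.R_seed8.TH705.SM.Torus
import Pool.Graph.R_seed8.Helper475.Miranda

set_option autoImplicit false

/-!
# Paths which are wider than high, and their images under the standard map
-/

namespace Pool.Agent.H242.TM

open Real Set Metric Filter Topology
open Pool.Agent.TH705.SM (T2 S)

/-- the covering map -/
noncomputable def pr (p : ℝ × ℝ) : T2 := ((p.1 : UnitAddCircle), (p.2 : UnitAddCircle))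

theorem pr_F (a : ℝ) (p : ℝ × ℝ) : pr (F a p) = S a (pr p) := by
  have h : pr p = ((p.1 : UnitAddCircle), (p.2 : UnitAddCircle)) := rfl
  rw [h, TH705.SM.S_coe]
  unfold pr F phi
  simp only
  rw [show 2 * p.1 + a * sin (2 * π * p.1) - p.2 = 2 * p.1 - p.2 + a * sin (2 * π * p.1) by ring]

theorem pr_iter (a : ℝ) (n : ℕ) (p : ℝ × ℝ) : pr ((F a)^[n] p) = (S a)^[n] (pr p) := by
  induction n generalizing p with
  | zero => rfl
  | succ n ih => rw [Function.iterate_succ_apply, Function.iterate_succ_apply, ih, pr_F]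

theorem pr_cont : Continuous pr :=
  ((AddCircle.continuous_mk' 1).comp continuous_fst).prodMk
    ((AddCircle.continuous_mk' 1).comp continuous_snd)

theorem coe_int (n : ℤ) : ((n : ℝ) : UnitAddCircle) = 0 := by
  have := AddCircle.coe_eq_zero_iff (p := (1:ℝ)) (x := (n : ℝ))
  rw [this]
  exact ⟨n, by simp⟩

theorem pr_sub_int (p : ℝ × ℝ) (k l : ℤ) : pr (p - ((k : ℝ), (l : ℝ))) = pr p := by
  unfold pr
  rw [Prod.fst_sub, Prod.snd_sub]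
  simp only [AddCircle.coe_sub, coe_int, sub_zero]

theorem pr_surj (z : T2) : ∃ p, pr p = z := by
  obtain ⟨z1, z2⟩ := z
  induction z1 using QuotientAddGroup.induction_on with
  | H x =>
    induction z2 using QuotientAddGroup.induction_on with
    | H y => exact ⟨(x, y), rfl⟩

/-- `f` crosses `[lo, hi]` on `[s, t]` -/
def Cross (f : ℝ → ℝ) (s t lo hi : ℝ) : Prop :=
  s ≤ t ∧ ((f s = lo ∧ f t = hi) ∨ (f s = hi ∧ f t = lo)) ∧ ∀ τ ∈ Icc s t, lo ≤ f τ ∧ f τ ≤ hi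

theorem cross_sub0 {f : ℝ → ℝ} (hf : Continuous f) {u v lo hi : ℝ} (huv : u ≤ v)
    (h1 : f u ≤ lo) (h2 : hi ≤ f v) (h3 : lo ≤ hi) :
    ∃ s t, u ≤ s ∧ t ≤ v ∧ Cross f s t lo hi := by
  have hc1 : IsCompact (Icc u v ∩ f ⁻¹' {hi}) :=
    isCompact_Icc.inter_right (isClosed_singleton.preimage hf)
  have hn1 : (Icc u v ∩ f ⁻¹' {hi}).Nonempty := by
    obtain ⟨x, hx, hx2⟩ := intermediate_value_Icc huv hf.continuousOn ⟨h1.trans h3, h2⟩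
    exact ⟨x, hx, hx2⟩
  obtain ⟨t, ⟨ht, htf⟩, htmin⟩ := hc1.exists_isLeast hn1
  have htf' : f t = hi := htf
  have hc2 : IsCompact (Icc u t ∩ f ⁻¹' {lo}) :=
    isCompact_Icc.inter_right (isClosed_singleton.preimage hf)
  have hn2 : (Icc u t ∩ f ⁻¹' {lo}).Nonempty := by
    obtain ⟨x, hx, hx2⟩ := intermediate_value_Icc ht.1 hf.continuousOn ⟨h1, by rw [htf']; exact h3⟩
    exact ⟨x, hx, hx2⟩
  obtain ⟨s, ⟨hs, hsf⟩, hsmax⟩ := hc2.exists_isGreatest hn2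
  have hsf' : f s = lo := hsf
  refine ⟨s, t, hs.1, ht.2, hs.2, Or.inl ⟨hsf', htf'⟩, ?_⟩
  intro τ hτ
  constructor
  · by_contra hcon
    have hcon' := not_le.1 hcon
    obtain ⟨x, hx, hx2⟩ := intermediate_value_Icc hτ.2 hf.continuousOn
      ⟨hcon'.le, by rw [htf']; exact h3⟩
    have hx3 : x ≤ s := hsmax ⟨⟨hs.1.trans (hτ.1.trans hx.1), hx.2⟩, hx2⟩
    have hx4 : τ = s := le_antisymm (hx.1.trans hx3) hτ.1
    rw [hx4, hsf'] at hcon'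
    exact lt_irrefl _ hcon'
  · by_contra hcon
    have hcon' := not_le.1 hcon
    obtain ⟨x, hx, hx2⟩ := intermediate_value_Icc (hs.1.trans hτ.1) hf.continuousOn
      ⟨h1.trans h3, hcon'.le⟩
    have hx3 : t ≤ x := htmin ⟨⟨hx.1, hx.2.trans (hτ.2.trans ht.2)⟩, hx2⟩
    have hx4 : τ = t := le_antisymm hτ.2 (hx3.trans hx.2)
    rw [hx4, htf'] at hcon'
    exact lt_irrefl _ hcon'

theorem cross_sub {f : ℝ → ℝ} (hf : Continuous f) {u v lo hi : ℝ}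
    (h1 : f u ≤ lo) (h2 : hi ≤ f v) (h3 : lo ≤ hi) :
    ∃ s t, min u v ≤ s ∧ t ≤ max u v ∧ Cross f s t lo hi := by
  rcases le_total u v with h | h
  · obtain ⟨s, t, hs, ht, hc⟩ := cross_sub0 hf h h1 h2 h3
    exact ⟨s, t, (min_le_left _ _).trans hs, ht.trans (le_max_right _ _), hc⟩
  · obtain ⟨s, t, hs, ht, hc⟩ := cross_sub0 (f := fun x => -f x) hf.neg h (lo := -hi) (hi := -lo)
      (neg_le_neg h2) (neg_le_neg h1) (neg_le_neg h3)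
    refine ⟨s, t, (min_le_right _ _).trans hs, ht.trans (le_max_left _ _), hc.1, ?_, ?_⟩
    · rcases hc.2.1 with ⟨h4, h5⟩ | ⟨h4, h5⟩
      · exact Or.inr ⟨neg_injective h4, neg_injective h5⟩
      · exact Or.inl ⟨neg_injective h4, neg_injective h5⟩
    · intro τ hτ
      have := hc.2.2 τ hτ
      exact ⟨neg_le_neg_iff.1 this.2, neg_le_neg_iff.1 this.1⟩

theorem Cross.surj {f : ℝ → ℝ} (hf : Continuous f) {s t lo hi : ℝ} (h : Cross f s t lo hi)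
    {x : ℝ} (hx : x ∈ Icc lo hi) : ∃ τ ∈ Icc s t, f τ = x := by
  obtain ⟨hst, h1, h2⟩ := h
  rcases h1 with ⟨h3, h4⟩ | ⟨h3, h4⟩
  · obtain ⟨τ, hτ, h5⟩ := intermediate_value_Icc hst hf.continuousOn
      (show x ∈ Icc (f s) (f t) by rw [h3, h4]; exact hx)
    exact ⟨τ, hτ, h5⟩
  · obtain ⟨τ, hτ, h5⟩ := intermediate_value_Icc' hst hf.continuousOn
      (show x ∈ Icc (f t) (f s) by rw [h3, h4]; exact hx)
    exact ⟨τ, hτ, h5⟩

/-- a sub-crossing -/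
theorem Cross.sub {f : ℝ → ℝ} (hf : Continuous f) {s t lo hi lo' hi' : ℝ}
    (h : Cross f s t lo hi) (h1 : lo ≤ lo') (h2 : hi' ≤ hi) (h3 : lo' ≤ hi') :
    ∃ s' t', s ≤ s' ∧ t' ≤ t ∧ Cross f s' t' lo' hi' := by
  obtain ⟨hst, h4, h5⟩ := h
  rcases h4 with ⟨h6, h7⟩ | ⟨h6, h7⟩
  · obtain ⟨s', t', hs, ht, hc⟩ := cross_sub hf (u := s) (v := t) (h6.le.trans h1)
      (h2.trans h7.ge) h3
    rw [min_eq_left hst] at hs
    rw [max_eq_right hst] at ht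
    exact ⟨s', t', hs, ht, hc⟩
  · obtain ⟨s', t', hs, ht, hc⟩ := cross_sub hf (u := t) (v := s) (h7.le.trans h1)
      (h2.trans h6.ge) h3
    rw [min_eq_right hst] at hs
    rw [max_eq_left hst] at ht
    exact ⟨s', t', hs, ht, hc⟩

theorem Cross.param {f : ℝ → ℝ} {s t lo hi : ℝ} (h : Cross f s t lo hi) :
    ∃ p q : ℝ, f p = lo ∧ f q = hi ∧ ∀ z ∈ Icc (0:ℝ) 1, p + z * (q - p) ∈ Icc s t := by
  obtain ⟨hst, h1, h2⟩ := h
  rcases h1 with ⟨h3, h4⟩ | ⟨h3, h4⟩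
  · refine ⟨s, t, h3, h4, fun z hz => ⟨?_, ?_⟩⟩
    · nlinarith [hz.1, hz.2]
    · nlinarith [hz.1, hz.2]
  · refine ⟨t, s, h4, h3, fun z hz => ⟨?_, ?_⟩⟩
    · nlinarith [hz.1, hz.2]
    · nlinarith [hz.1, hz.2]

theorem step_gen (a : ℝ) {γ : ℝ → ℝ × ℝ} (hγ : Continuous γ) {s t u e h D e' : ℝ}
    (hC : Cross (fun τ => (γ τ).1) s t u (u + e))
    (hh : ∀ τ ∈ Icc s t, ∀ σ ∈ Icc s t, |(γ τ).2 - (γ σ).2| ≤ h)
    (hx : ∃ x ∈ Icc u (u + e), ∃ y ∈ Icc u (u + e), D ≤ |phi a x - phi a y|) (he' : 0 ≤ e')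
    (hD : e' ≤ D - h) :
    ∃ s' t' u', s ≤ s' ∧ t' ≤ t ∧ Cross (fun τ => (F a (γ τ)).1) s' t' u' (u' + e') := by
  obtain ⟨x, hx, y, hy, hxy⟩ := hx
  have hf : Continuous (fun τ => (γ τ).1) := hγ.fst
  obtain ⟨τ, hτ, hτx⟩ := hC.surj hf hx
  obtain ⟨σ, hσ, hσy⟩ := hC.surj hf hy
  have hg : Continuous (fun τ => (F a (γ τ)).1) := ((F_cont a).comp hγ).fst
  have key : ∀ τ σ : ℝ, τ ∈ Icc s t → σ ∈ Icc s t → e' ≤ (F a (γ τ)).1 - (F a (γ σ)).1 →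
      ∃ s' t' u', s ≤ s' ∧ t' ≤ t ∧ Cross (fun τ => (F a (γ τ)).1) s' t' u' (u' + e') := by
    intro τ σ hτ hσ h
    obtain ⟨s', t', h1, h2, h3⟩ := cross_sub hg (u := σ) (v := τ) (lo := (F a (γ σ)).1)
      (hi := (F a (γ σ)).1 + e') le_rfl (by linarith) (by linarith)
    exact ⟨s', t', _, (le_min hσ.1 hτ.1).trans h1, h2.trans (max_le hσ.2 hτ.2), h3⟩
  have h1 := hh τ hτ σ hσ
  have h2 : e' ≤ |(F a (γ τ)).1 - (F a (γ σ)).1| := by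
    rw [F_fst, F_fst, hτx, hσy]
    have e1 : phi a x - (γ τ).2 - (phi a y - (γ σ).2) =
      (phi a x - phi a y) - ((γ τ).2 - (γ σ).2) := by ring
    rw [e1]
    have := abs_sub_abs_le_abs_sub (phi a x - phi a y) ((γ τ).2 - (γ σ).2)
    linarith
  rcases abs_cases ((F a (γ τ)).1 - (F a (γ σ)).1) with ⟨h3, _⟩ | ⟨h3, _⟩
  · exact key τ σ hτ hσ (by rw [h3] at h2; exact h2)
  · exact key σ τ hσ hτ (by rw [h3] at h2; linarith)

/-- `A` contains (the projection of) a path of width `e` and of height at most `e` -/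
def FwdE (e : ℝ) (A : Set T2) : Prop := ∃ (γ : ℝ → ℝ × ℝ) (s t u : ℝ), Continuous γ ∧
  Cross (fun τ => (γ τ).1) s t u (u + e) ∧
  (∀ τ ∈ Icc s t, ∀ σ ∈ Icc s t, |(γ τ).2 - (γ σ).2| ≤ e) ∧ ∀ τ ∈ Icc s t, pr (γ τ) ∈ A

/-- `A` contains a path of width `2` and of height at most `1` -/
def Two (A : Set T2) : Prop := ∃ (γ : ℝ → ℝ × ℝ) (s t u : ℝ), Continuous γ ∧
  Cross (fun τ => (γ τ).1) s t u (u + 2) ∧
  (∀ τ ∈ Icc s t, ∀ σ ∈ Icc s t, |(γ τ).2 - (γ σ).2| ≤ 1) ∧ ∀ τ ∈ Icc s t, pr (γ τ) ∈ A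

/-- `A` contains a path which crosses a unit square horizontally, near the middle -/
def Box (a : ℝ) (A : Set T2) : Prop := ∃ (γ : ℝ → ℝ × ℝ) (s t : ℝ) (k l : ℤ), Continuous γ ∧
  Cross (fun τ => (γ τ).1) s t (k - 1 / 2) (k + 1 / 2) ∧
  (∀ τ ∈ Icc s t, |(γ τ).2 - l| ≤ 1 / (2 * |a|)) ∧ ∀ τ ∈ Icc s t, pr (γ τ) ∈ A

theorem gen_image (a : ℝ) {A : Set T2} {e e' D h : ℝ} {γ : ℝ → ℝ × ℝ} {s t u : ℝ}
    (hγ : Continuous γ)
    (hC : Cross (fun τ => (γ τ).1) s t u (u + e))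
    (hh : ∀ τ ∈ Icc s t, ∀ σ ∈ Icc s t, |(γ τ).2 - (γ σ).2| ≤ h)
    (hA : ∀ τ ∈ Icc s t, pr (γ τ) ∈ A)
    (hx : ∃ x ∈ Icc u (u + e), ∃ y ∈ Icc u (u + e), D ≤ |phi a x - phi a y|) (he' : 0 ≤ e')
    (hD : e' ≤ D - h) :
    ∃ (γ' : ℝ → ℝ × ℝ) (s' t' u' : ℝ), Continuous γ' ∧
      Cross (fun τ => (γ' τ).1) s' t' u' (u' + e') ∧
      (∀ τ ∈ Icc s' t', u ≤ (γ' τ).2 ∧ (γ' τ).2 ≤ u + e) ∧
      ∀ τ ∈ Icc s' t', pr (γ' τ) ∈ S a '' A := by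
  obtain ⟨s', t', u', hs, ht, hC'⟩ := step_gen a hγ hC hh hx he' hD
  have hsub : ∀ τ ∈ Icc s' t', τ ∈ Icc s t := fun τ hτ => ⟨hs.trans hτ.1, hτ.2.trans ht⟩
  refine ⟨fun τ => F a (γ τ), s', t', u', (F_cont a).comp hγ, hC', ?_, ?_⟩
  · intro τ hτ
    exact hC.2.2 τ (hsub τ hτ)
  · intro τ hτ
    simp only
    rw [pr_F]
    exact mem_image_of_mem _ (hA τ (hsub τ hτ))

theorem abs_sub_le_of_mem {x y u e : ℝ} (hx : u ≤ x ∧ x ≤ u + e) (hy : u ≤ y ∧ y ≤ u + e) :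
    |x - y| ≤ e := by
  rw [abs_le]
  constructor <;> linarith [hx.1, hx.2, hy.1, hy.2]

theorem step1 {a e e' : ℝ} {A : Set T2} (h0 : 0 ≤ e) (h1 : e ≤ 1 / 2)
    (h2 : e' ≤ 4 * |a| * e ^ 2 - 2 * e) (h3 : e ≤ e') (hA : FwdE e A) : FwdE e' (S a '' A) := by
  obtain ⟨γ, s, t, u, hγ, hC, hh, hA⟩ := hA
  obtain ⟨γ', s', t', u', h4, h5, h6, h7⟩ := gen_image a hγ hC hh hA (phi_osc1 a h0 h1)
    (h0.trans h3) (by linarith)
  exact ⟨γ', s', t', u', h4, h5, fun τ hτ σ hσ =>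
    (abs_sub_le_of_mem (h6 τ hτ) (h6 σ hσ)).trans h3, h7⟩

theorem step2 {a e : ℝ} {A : Set T2} (ha : 5 / 2 ≤ |a|) (h0 : 1 / 2 ≤ e) (h1 : e ≤ 1)
    (hA : FwdE e A) : FwdE 1 (S a '' A) := by
  obtain ⟨γ, s, t, u, hγ, hC, hh, hA⟩ := hA
  obtain ⟨γ', s', t', u', h4, h5, h6, h7⟩ := gen_image a hγ hC hh hA (phi_osc2 a h0)
    (e' := 1) (by norm_num) (by linarith)
  exact ⟨γ', s', t', u', h4, h5, fun τ hτ σ hσ =>
    (abs_sub_le_of_mem (h6 τ hτ) (h6 σ hσ)).trans h1, h7⟩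

theorem step3 {a : ℝ} {A : Set T2} (ha : 5 / 2 ≤ |a|) (hA : FwdE 1 A) : Two (S a '' A) := by
  obtain ⟨γ, s, t, u, hγ, hC, hh, hA⟩ := hA
  obtain ⟨γ', s', t', u', h4, h5, h6, h7⟩ := gen_image a hγ hC hh hA (phi_osc3 a le_rfl)
    (e' := 2) (by norm_num) (by linarith)
  exact ⟨γ', s', t', u', h4, h5, fun τ hτ σ hσ =>
    (abs_sub_le_of_mem (h6 τ hτ) (h6 σ hσ)), h7⟩

theorem sin_ge {x : ℝ} (h0 : 0 ≤ x) (h1 : x ≤ 1 / 4) : 4 * x ≤ sin (2 * π * x) := by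
  have := mul_le_sin (x := 2 * π * x) (by positivity) (by nlinarith [pi_pos])
  have e1 : 2 / π * (2 * π * x) = 4 * x := by
    field_simp
    ring
  linarith

theorem abs_sin_ge {x : ℝ} (h1 : |x| ≤ 1 / 4) : 4 * |x| ≤ |sin (2 * π * x)| := by
  rcases abs_cases x with ⟨h, _⟩ | ⟨h, _⟩
  · rw [h] at h1 ⊢
    exact (sin_ge (by linarith) h1).trans (le_abs_self _)
  · rw [h] at h1 ⊢
    have := sin_ge (x := -x) (by linarith) h1
    rw [show 2 * π * -x = -(2 * π * x) by ring, sin_neg] at this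
    exact this.trans (neg_le_abs _)

theorem step4 {a : ℝ} {A : Set T2} (ha : 2 ≤ |a|) (hA : Two A) : Box a (S a '' A) := by
  obtain ⟨γ, s, t, u, hγ, hC, hh, hA⟩ := hA
  have ha0 : 0 < |a| := by linarith
  set r := 1 / (2 * |a|) with hr
  have hr0 : 0 < r := by positivity
  have har : |a| * r = 1 / 2 := by rw [hr]; field_simp
  have hr1 : r ≤ 1 / 4 := by nlinarith
  set l : ℤ := ⌈u + r⌉ with hl
  have hl1 : u + r ≤ l := Int.le_ceil _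
  have hl2 : (l : ℝ) < u + r + 1 := Int.ceil_lt_add_one _
  have hf : Continuous (fun τ => (γ τ).1) := hγ.fst
  obtain ⟨s₁, t₁, hs₁, ht₁, hC₁⟩ := hC.sub hf (lo' := l - r) (hi' := l + r) (by linarith)
    (by linarith) (by linarith)
  have hsub : ∀ τ ∈ Icc s₁ t₁, τ ∈ Icc s t := fun τ hτ => ⟨hs₁.trans hτ.1, hτ.2.trans ht₁⟩
  have hD : ∃ x ∈ Icc ((l : ℝ) - r) ((l : ℝ) - r + 2 * r), ∃ y ∈ Icc ((l : ℝ) - r)
      ((l : ℝ) - r + 2 * r), 4 - 4 * r ≤ |phi a x - phi a y| := by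
    refine ⟨l + r, ⟨by linarith, by linarith⟩, l - r, ⟨le_rfl, by linarith⟩, ?_⟩
    have h1 := phi_sub_ge a (l + r) (l - r)
    have e1 : |(l : ℝ) + r - (l - r)| = 2 * r := by
      rw [show (l : ℝ) + r - (l - r) = 2 * r by ring, abs_of_pos (by linarith)]
    have e2 : sin (2 * π * ((l : ℝ) + r)) = sin (2 * π * r) := by
      rw [show 2 * π * ((l : ℝ) + r) = 2 * π * r + l * (2 * π) by ring, sin_add_int_mul_two_pi]
    have e3 : sin (2 * π * ((l : ℝ) - r)) = -sin (2 * π * r) := by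
      rw [show 2 * π * ((l : ℝ) - r) = -(2 * π * r) + l * (2 * π) by ring,
        sin_add_int_mul_two_pi, sin_neg]
    have h2 := sin_ge hr0.le hr1
    have e4 : |sin (2 * π * r) - -sin (2 * π * r)| = 2 * sin (2 * π * r) := by
      rw [show sin (2 * π * r) - -sin (2 * π * r) = 2 * sin (2 * π * r) by ring]
      exact abs_of_nonneg (by linarith)
    rw [e1, e2, e3, e4] at h1
    have h3 := mul_le_mul_of_nonneg_left h2 ha0.le
    linarith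
  have hC₁' : Cross (fun τ => (γ τ).1) s₁ t₁ (l - r) (l - r + 2 * r) := by
    rw [show (l : ℝ) - r + 2 * r = l + r by ring]
    exact hC₁
  obtain ⟨γ', s', t', u', h4, h5, h6, h7⟩ := gen_image a hγ hC₁'
    (fun τ hτ σ hσ => hh τ (hsub τ hτ) σ (hsub σ hσ)) (fun τ hτ => hA τ (hsub τ hτ)) hD
    (e' := 2) (by norm_num) (by linarith)
  set k : ℤ := ⌈u' + 1 / 2⌉ with hk
  have hk1 : u' + 1 / 2 ≤ k := Int.le_ceil _
  have hk2 : (k : ℝ) < u' + 1 / 2 + 1 := Int.ceil_lt_add_one _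
  obtain ⟨s₂, t₂, hs₂, ht₂, hC₂⟩ := h5.sub h4.fst (lo' := k - 1 / 2) (hi' := k + 1 / 2)
    (by linarith) (by linarith) (by linarith)
  have hsub2 : ∀ τ ∈ Icc s₂ t₂, τ ∈ Icc s' t' := fun τ hτ => ⟨hs₂.trans hτ.1, hτ.2.trans ht₂⟩
  refine ⟨γ', s₂, t₂, k, l, h4, hC₂, ?_, fun τ hτ => h7 τ (hsub2 τ hτ)⟩
  intro τ hτ
  have := h6 τ (hsub2 τ hτ)
  rw [abs_le]
  constructor <;> linarith [this.1, this.2]

theorem image_succ (a : ℝ) (n : ℕ) (A : Set T2) :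
    (S a)^[n + 1] '' A = S a '' ((S a)^[n] '' A) := by
  rw [Function.iterate_succ', image_comp]

theorem image_add (a : ℝ) (m n : ℕ) (A : Set T2) :
    (S a)^[m + n] '' A = (S a)^[m] '' ((S a)^[n] '' A) := by
  rw [Function.iterate_add, image_comp]

/-- quantitative growth to width one -/
theorem reach {a : ℝ} (ha : 5 / 2 ≤ |a|) {ψ : ℕ → ℝ}
    (hψ : ∀ n, ψ (n + 1) ≤ 4 * ψ n ^ 2 - 2 * ψ n) (hψ1 : ∀ n, 3 / 4 ≤ ψ n) {e : ℝ} {A : Set T2}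
    (he : e ≤ 1) (h0 : ψ 0 ≤ |a| * e) (hA : FwdE e A) (n : ℕ) :
    ∃ e', e' ≤ 1 ∧ FwdE e' ((S a)^[n] '' A) ∧ (e' = 1 ∨ ψ n ≤ |a| * e') := by
  have ha0 : 0 < |a| := by linarith
  induction n with
  | zero => exact ⟨e, he, by simpa using hA, Or.inr h0⟩
  | succ n ih =>
    obtain ⟨e', he', hA', hor⟩ := ih
    rw [image_succ]
    by_cases h : 1 / 2 ≤ e'
    · exact ⟨1, le_rfl, step2 ha h he' hA', Or.inl rfl⟩
    · push Not at h
      have h1 : ψ n ≤ |a| * e' := by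
        rcases hor with h2 | h2
        · linarith
        · exact h2
      have h34 : 3 / 4 ≤ |a| * e' := (hψ1 n).trans h1
      have h2 : 0 ≤ e' := by
        by_contra hcon
        push Not at hcon
        nlinarith
      have h3 : ψ (n + 1) ≤ |a| * (4 * |a| * e' ^ 2 - 2 * e') := by
        have h4 : ψ n ^ 2 * 4 - 2 * ψ n ≤ (|a| * e') ^ 2 * 4 - 2 * (|a| * e') := by
          nlinarith [hψ1 n]
        have := hψ n
        nlinarith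
      have h5 : e' ≤ 4 * |a| * e' ^ 2 - 2 * e' := by nlinarith
      rcases le_total (4 * |a| * e' ^ 2 - 2 * e') 1 with h6 | h6
      · exact ⟨_, h6, step1 h2 h.le le_rfl h5 hA', Or.inr h3⟩
      · exact ⟨1, le_rfl, step1 h2 h.le h6 he' hA', Or.inl rfl⟩

theorem reach_one {a : ℝ} (ha : 5 / 2 ≤ |a|) {ψ : ℕ → ℝ}
    (hψ : ∀ n, ψ (n + 1) ≤ 4 * ψ n ^ 2 - 2 * ψ n) (hψ1 : ∀ n, 3 / 4 ≤ ψ n) {e : ℝ} {A : Set T2}
    (he : e ≤ 1) (h0 : ψ 0 ≤ |a| * e) (hA : FwdE e A) {n : ℕ} (hn : |a| ≤ ψ n) :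
    FwdE 1 ((S a)^[n] '' A) := by
  obtain ⟨e', he', hA', hor⟩ := reach ha hψ hψ1 he h0 hA n
  have : e' = 1 := by
    rcases hor with h | h
    · exact h
    · apply le_antisymm he'
      by_contra hcon
      push Not at hcon
      nlinarith
  rwa [this] at hA'

theorem fwd_stay {a : ℝ} (ha : 5 / 2 ≤ |a|) {A : Set T2} (hA : FwdE 1 A) (n : ℕ) :
    FwdE 1 ((S a)^[n] '' A) := by
  induction n with
  | zero => simpa using hA
  | succ n ih =>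
    rw [image_succ]
    exact step2 ha (by norm_num) le_rfl ih

theorem box_of_one {a : ℝ} (ha : 5 / 2 ≤ |a|) {A : Set T2} (hA : FwdE 1 A) {n : ℕ}
    (hn : 2 ≤ n) : Box a ((S a)^[n] '' A) := by
  obtain ⟨m, rfl⟩ := Nat.exists_eq_add_of_le' hn
  rw [show m + 2 = (m + 1) + 1 from rfl, image_succ, image_succ]
  exact step4 (by linarith) (step3 ha (fwd_stay ha hA m))

/-- a wide path becomes very wide -/
theorem box_eventually {a : ℝ} (ha : 5 / 2 ≤ |a|) {e : ℝ} {A : Set T2} (he : e ≤ 1)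
    (h0 : 3 / (4 * |a|) < e) (hA : FwdE e A) : ∃ N, ∀ n ≥ N, Box a ((S a)^[n] '' A) := by
  have ha0 : 0 < |a| := by linarith
  rw [div_lt_iff₀ (by positivity)] at h0
  set δ := |a| * e - 3 / 4 with hδ
  have hδ0 : 0 < δ := by rw [hδ]; linarith
  have hψ : ∀ n : ℕ, (3 / 4 + 4 ^ (n + 1) * δ : ℝ) ≤
      4 * (3 / 4 + 4 ^ n * δ) ^ 2 - 2 * (3 / 4 + 4 ^ n * δ) := by
    intro n
    have : (0:ℝ) < 4 ^ n * δ := by positivity
    rw [pow_succ]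
    nlinarith
  have hψ1 : ∀ n : ℕ, (3 / 4 : ℝ) ≤ 3 / 4 + 4 ^ n * δ := fun n => by
    have : (0:ℝ) < 4 ^ n * δ := by positivity
    linarith
  obtain ⟨m, hm⟩ := pow_unbounded_of_one_lt (|a| / δ) (show (1:ℝ) < 4 by norm_num)
  have h1 : FwdE 1 ((S a)^[m] '' A) := by
    refine reach_one ha hψ hψ1 he (by rw [pow_zero, one_mul, hδ]; linarith) hA (n := m) ?_
    rw [div_lt_iff₀ hδ0] at hm
    linarith
  refine ⟨m + 2, fun n hn => ?_⟩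
  obtain ⟨j, rfl⟩ := Nat.exists_eq_add_of_le hn
  rw [show m + 2 + j = (2 + j) + m by ring, image_add]
  exact box_of_one ha h1 (by omega)

/-- explicit times -/
theorem box_explicit {a : ℝ} (ha : 5 / 2 ≤ |a|) {e : ℝ} {A : Set T2} (he : e ≤ 1)
    (h0 : 1 ≤ |a| * e) (hA : FwdE e A) {m : ℕ} (hm : 2 * |a| ≤ 2 ^ (2 ^ m)) {n : ℕ}
    (hn : m + 2 ≤ n) : Box a ((S a)^[n] '' A) := by
  have h1 : ∀ n : ℕ, (2:ℝ) ≤ 2 ^ (2 ^ n) := by
    intro n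
    have h2 : 1 ≤ 2 ^ n := Nat.one_le_two_pow
    calc (2:ℝ) = 2 ^ 1 := by norm_num
      _ ≤ 2 ^ (2 ^ n) := pow_le_pow_right₀ (by norm_num) h2
  have hψ : ∀ n : ℕ, ((2:ℝ) ^ (2 ^ (n + 1)) / 2) ≤
      4 * ((2:ℝ) ^ (2 ^ n) / 2) ^ 2 - 2 * ((2:ℝ) ^ (2 ^ n) / 2) := by
    intro n
    have h2 : (2:ℝ) ^ (2 ^ (n + 1)) = ((2:ℝ) ^ (2 ^ n)) ^ 2 := by
      rw [← pow_mul, pow_succ]
    rw [h2]
    nlinarith [h1 n]
  have hψ1 : ∀ n : ℕ, (3 / 4 : ℝ) ≤ (2:ℝ) ^ (2 ^ n) / 2 := fun n => by linarith [h1 n]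
  have h2 : FwdE 1 ((S a)^[m] '' A) := by
    refine reach_one ha hψ hψ1 he (by norm_num; linarith) hA (n := m) ?_
    linarith
  obtain ⟨j, rfl⟩ := Nat.exists_eq_add_of_le hn
  rw [show m + 2 + j = (2 + j) + m by ring, image_add]
  exact box_of_one ha h2 (by omega)

end Pool.Agent.H242.TM
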