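import Pool.Agent.H242.TM.Local

set_option autoImplicit false

/-!
# Recurrence: an open set none of whose images contains wide paths is small
-/

namespace Pool.Agent.H242.TM

open Real Set Metric Filter Topology MeasureTheory
open Pool.Agent.TH705.SM (T2 S Si)

theorem fwd_of_wide {A : Set T2} {γ : ℝ → ℝ × ℝ} (hγ : Continuous γ) {s t : ℝ} (hst : s ≤ t)
    (hA : ∀ τ ∈ Icc s t, pr (γ τ) ∈ A) (h1 : hei (γ '' Icc s t) ≤ wid (γ '' Icc s t))
    (h2 : hei (γ '' Icc s t) ≤ 1) : FwdE (min (wid (γ '' Icc s t)) 1) A := by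
  set K := γ '' Icc s t with hK
  have hKc : IsCompact K := isCompact_Icc.image hγ
  have hKn : IsConnected K := (isConnected_Icc hst).image _ hγ.continuousOn
  obtain ⟨u, hu⟩ := fst_image hKc hKn
  have hw := wid_nonneg K
  have m1 : u ∈ Prod.fst '' K := by rw [hu]; exact ⟨le_rfl, by linarith⟩
  have m2 : u + wid K ∈ Prod.fst '' K := by rw [hu]; exact ⟨by linarith, le_rfl⟩
  obtain ⟨_, ⟨τ, hτ, rfl⟩, hτu⟩ := m1
  obtain ⟨_, ⟨σ, hσ, rfl⟩, hσu⟩ := m2
  obtain ⟨s', t', h3, h4, h5⟩ := cross_sub hγ.fst (u := τ) (v := σ) (lo := u)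
    (hi := u + min (wid K) 1) hτu.le (by rw [hσu]; linarith [min_le_left (wid K) 1])
    (by have : 0 ≤ min (wid K) 1 := le_min hw (by norm_num)
        linarith)
  have hsub : ∀ τ ∈ Icc s' t', τ ∈ Icc s t := fun x hx =>
    ⟨(le_min hτ.1 hσ.1).trans (h3.trans hx.1), hx.2.trans (h4.trans (max_le hτ.2 hσ.2))⟩
  refine ⟨γ, s', t', u, hγ, h5, ?_, fun x hx => hA x (hsub x hx)⟩
  intro x hx y hy
  have := le_hei hKc.isBounded (mem_image_of_mem γ (hsub x hx)) (mem_image_of_mem γ (hsub y hy))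
  exact this.trans (le_min h1 h2)

/-- no image of `A` contains a wide path -/
def Slim (a : ℝ) (A : Set T2) : Prop :=
  ∀ (n : ℕ) (e : ℝ), 3 / (4 * |a|) < e → e ≤ 1 → ¬ FwdE e ((S a)^[n] '' A)

theorem limsup_small {a : ℝ} (ha : 5 ≤ |a|) {A : Set T2} (hno : Slim a A) {γ : ℝ → ℝ × ℝ}
    (hγ : Continuous γ) {s t : ℝ} (hst : s ≤ t) (hA : ∀ τ ∈ Icc s t, pr (γ τ) ∈ A)
    (hw : wid (γ '' Icc s t) ≤ 1 / 2) (hh : hei (γ '' Icc s t) ≤ 1 / 2) {η : ℝ} (hη : 0 < η) :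
    ∃ n₁, ∀ n ≥ n₁, wid ((F a)^[n] '' (γ '' Icc s t)) ≤ 3 / (4 * |a|) + η := by
  set K := γ '' Icc s t with hK
  have hKc : IsCompact K := isCompact_Icc.image hγ
  have hKn : IsConnected K := (isConnected_Icc hst).image _ hγ.continuousOn
  set w : ℕ → ℝ := fun n => wid ((F a)^[n] '' K) with hwdef
  have ha0 : 0 < |a| := by linarith
  set κ := 3 / (4 * |a|) with hκ
  have hκ1 : |a| * κ = 3 / 4 := by rw [hκ]; field_simp
  have hκ0 : 0 < κ := by positivity
  have hκ2 : κ ≤ 3 / 20 := by nlinarith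
  have hei_succ : ∀ n, hei ((F a)^[n + 1] '' K) = w n := by
    intro n
    rw [iter_image_succ, hei_F]
  have hor : ∀ n, w n ≤ κ ∨ w n < hei ((F a)^[n] '' K) ∨ 1 < hei ((F a)^[n] '' K) := by
    intro n
    by_contra hcon
    push Not at hcon
    obtain ⟨h1, h2, h3⟩ := hcon
    have e1 : (F a)^[n] '' K = (fun τ => (F a)^[n] (γ τ)) '' Icc s t := by
      rw [hK, image_image]
    have hA' : ∀ τ ∈ Icc s t, pr ((F a)^[n] (γ τ)) ∈ (S a)^[n] '' A := by
      intro τ hτ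
      rw [pr_iter]
      exact mem_image_of_mem _ (hA τ hτ)
    have h4 := fwd_of_wide (γ := fun τ => (F a)^[n] (γ τ)) (((F_cont a).iterate n).comp hγ) hst hA'
      (by rw [← e1]; exact h2) (by rw [← e1]; exact h3)
    rw [← e1] at h4
    exact hno n _ (lt_min h1 (by linarith)) (min_le_right _ _) h4
  have hle : ∀ n, w n ≤ 1 / 2 ∧ hei ((F a)^[n] '' K) ≤ 1 / 2 := by
    intro n
    induction n with
    | zero =>
      refine ⟨?_, ?_⟩
      · simpa [hwdef] using hw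
      · simpa using hh
    | succ n ih =>
      have h1 : hei ((F a)^[n + 1] '' K) ≤ 1 / 2 := by rw [hei_succ]; exact ih.1
      refine ⟨?_, h1⟩
      rcases hor (n + 1) with h | h | h
      · linarith
      · linarith
      · linarith
  have hstep : ∀ n, w (n + 1) ≤ κ ∨ w (n + 1) < w n := by
    intro n
    rcases hor (n + 1) with h | h | h
    · exact Or.inl h
    · rw [hei_succ] at h
      exact Or.inr h
    · have := (hle (n + 1)).2
      linarith
  have hex : ∃ n₁, w n₁ ≤ κ + η := by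
    by_contra hcon
    push Not at hcon
    have hdec : ∀ n, w (n + 1) < w n := by
      intro n
      rcases hstep n with h | h
      · have := hcon (n + 1)
        linarith
      · exact h
    have hgr : ∀ n, w (n + 1) - w n + 3 * η ≤ w (n + 2) - w (n + 1) := by
      intro n
      have hKn1 : IsCompact ((F a)^[n + 1] '' K) := hKc.image ((F_cont a).iterate (n + 1))
      have hcn1 : IsConnected ((F a)^[n + 1] '' K) :=
        hKn.image _ ((F_cont a).iterate (n + 1)).continuousOn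
      have h1 := grow1 a hKn1 hcn1 (hle (n + 1)).1
      rw [← iter_image_succ, hei_succ] at h1
      have e1 : wid ((F a)^[n + 1] '' K) = w (n + 1) := rfl
      have e2 : wid ((F a)^[n + 1 + 1] '' K) = w (n + 2) := rfl
      rw [e1, e2] at h1
      have h2 := hcon (n + 1)
      have h3 : 3 * η ≤ 4 * |a| * w (n + 1) ^ 2 - 3 * w (n + 1) := by
        have h4 : |a| * (κ + η) ≤ |a| * w (n + 1) := mul_le_mul_of_nonneg_left h2.le ha0.le
        have h5 : 4 * (|a| * η) ≤ 4 * (|a| * w (n + 1)) - 3 := by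
          rw [mul_add, hκ1] at h4
          linarith
        have h6 : 0 < |a| * η := by positivity
        have h7 : 4 * |a| * w (n + 1) ^ 2 - 3 * w (n + 1) =
          w (n + 1) * (4 * (|a| * w (n + 1)) - 3) := by ring
        rw [h7]
        have h8 : κ * (4 * (|a| * η)) ≤ w (n + 1) * (4 * (|a| * w (n + 1)) - 3) := by
          apply mul_le_mul (by linarith) h5 (by positivity) (by linarith)
        have h9 : κ * (4 * (|a| * η)) = 3 * η := by
          rw [show κ * (4 * (|a| * η)) = 4 * (|a| * κ) * η by ring, hκ1]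
          ring
        linarith
      linarith
    have hlin : ∀ n : ℕ, w 1 - w 0 + 3 * η * n ≤ w (n + 1) - w n := by
      intro n
      induction n with
      | zero => simp
      | succ n ih =>
        have := hgr n
        push_cast
        linarith
    obtain ⟨n, hn⟩ := exists_nat_gt ((w 0 - w 1) / (3 * η))
    rw [div_lt_iff₀ (by positivity)] at hn
    have h1 := hlin n
    have h2 := hdec n
    nlinarith
  obtain ⟨n₁, hn₁⟩ := hex
  refine ⟨n₁, fun n hn => ?_⟩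
  change w n ≤ κ + η
  induction n, hn using Nat.le_induction with
  | base => exact hn₁
  | succ n _ ih =>
    rcases hstep n with h | h
    · linarith
    · linarith

theorem pr_isOpenMap : IsOpenMap pr := by
  have h : IsOpenMap (fun x : ℝ => (x : UnitAddCircle)) := QuotientAddGroup.isOpenMap_coe
  exact h.prodMap h

/-- recurrence of pairs of points -/
theorem recur (a : ℝ) {U V : Set T2} (hU : IsOpen U) (hV : IsOpen V) (hUn : U.Nonempty)
    (hVn : V.Nonempty) : ∃ P ∈ U, ∃ Q ∈ V, ∀ ε > 0, ∀ n₁ : ℕ, ∃ n ≥ n₁,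
      dist ((S a)^[n] P) P < ε ∧ dist ((S a)^[n] Q) Q < ε := by
  have h1 : MeasurePreserving (Prod.map (S a) (S a)) ((volume : Measure T2).prod volume)
      ((volume : Measure T2).prod volume) := (TH705.SM.S_mp a).prod (TH705.SM.S_mp a)
  have h2 := h1.conservative.ae_frequently_mem_of_mem_nhds
  have hopen : IsOpen (U ×ˢ V) := hU.prod hV
  have hne : (U ×ˢ V).Nonempty := hUn.prod hVn
  have hpos : ((volume : Measure T2).prod (volume : Measure T2)) (U ×ˢ V) ≠ 0 :=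
    (hopen.measure_pos _ hne).ne'
  have h3 : ∃ x ∈ U ×ˢ V, ∀ s ∈ 𝓝 x, ∃ᶠ n in atTop, (Prod.map (S a) (S a))^[n] x ∈ s := by
    by_contra hcon
    push Not at hcon
    apply hpos
    rw [← nonpos_iff_eq_zero]
    refine (measure_mono ?_).trans (ae_iff.1 h2).le
    intro x hx hx2
    obtain ⟨s, hs, hs2⟩ := hcon x hx
    exact (hx2 s hs) hs2
  obtain ⟨⟨P, Q⟩, ⟨hP, hQ⟩, hPQ⟩ := h3
  refine ⟨P, hP, Q, hQ, ?_⟩
  intro ε hε n₁
  have h4 := hPQ (ball P ε ×ˢ ball Q ε) (prod_mem_nhds (ball_mem_nhds _ hε) (ball_mem_nhds _ hε))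
  obtain ⟨n, hn, hn2⟩ := (frequently_atTop.1 h4) n₁
  rw [Prod.map_iterate] at hn2
  exact ⟨n, hn, hn2.1, hn2.2⟩

theorem near_int {u v ρ : ℝ} (h : dist (u : UnitAddCircle) (v : UnitAddCircle) < ρ) :
    ∃ k : ℤ, |u - v - k| < ρ := by
  rw [dist_eq_norm, ← AddCircle.coe_sub, UnitAddCircle.norm_eq] at h
  exact ⟨_, h⟩

theorem int_eq {k l : ℤ} (h : |(k : ℝ) - l| < 1) : k = l := by
  have h1 : |((k - l : ℤ) : ℝ)| < 1 := by push_cast; exact h
  rw [← Int.cast_abs] at h1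
  have h2 : |k - l| < 1 := by exact_mod_cast h1
  have h3 := Int.abs_lt_one_iff.1 h2
  omega

/-- the coordinate computation -/
theorem coord {x₁ x₂ X₁ X₂ κ ρ : ℝ} {k₁ k₂ : ℤ} (h1 : |X₁ - x₁ - k₁| < ρ)
    (h2 : |X₂ - x₂ - k₂| < ρ) (h3 : |X₁ - X₂| ≤ κ) (h4 : |x₁ - x₂| + κ + 2 * ρ ≤ 1) :
    |x₁ - x₂| ≤ κ + 2 * ρ := by
  have h1' := abs_lt.1 h1
  have h2' := abs_lt.1 h2
  have h3' := abs_le.1 h3
  have h5 := le_abs_self (x₁ - x₂)
  have h6 := neg_abs_le (x₁ - x₂)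
  have hk : k₁ = k₂ := by
    apply int_eq
    rw [abs_lt]
    constructor <;> linarith [h1'.1, h1'.2, h2'.1, h2'.2, h3'.1, h3'.2]
  subst hk
  rw [abs_le]
  constructor <;> linarith [h1'.1, h1'.2, h2'.1, h2'.2, h3'.1, h3'.2]

/-- short paths in a slim open set -/
theorem slim_short {a : ℝ} (ha : 5 ≤ |a|) {A : Set T2} (hAo : IsOpen A) (hno : Slim a A)
    {γ : ℝ → ℝ × ℝ} (hγ : Continuous γ) {s t : ℝ} (hst : s < t)
    (hA : ∀ τ ∈ Icc s t, pr (γ τ) ∈ A)
    (hosc : ∀ τ ∈ Icc s t, ∀ σ ∈ Icc s t, |(γ τ).1 - (γ σ).1| ≤ 2 / 5 ∧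
      |(γ τ).2 - (γ σ).2| ≤ 2 / 5) :
    |(γ s).1 - (γ t).1| ≤ 3 / (4 * |a|) ∧ |(γ s).2 - (γ t).2| ≤ 3 / (4 * |a|) := by
  have ha0 : 0 < |a| := by linarith
  set κ := 3 / (4 * |a|) with hκ
  have hκ1 : |a| * κ = 3 / 4 := by rw [hκ]; field_simp
  have hκ0 : 0 < κ := by positivity
  have hκ2 : κ ≤ 3 / 20 := by nlinarith
  have hs : s ∈ Icc s t := ⟨le_rfl, hst.le⟩
  have ht : t ∈ Icc s t := ⟨hst.le, le_rfl⟩
  by_contra hcon
  have hD : ∃ η, 0 < η ∧ η ≤ 1 / 100 ∧ (κ + 5 * η < |(γ s).1 - (γ t).1| ∨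
      κ + 5 * η < |(γ s).2 - (γ t).2|) := by
    rw [not_and_or] at hcon
    push Not at hcon
    rcases hcon with h | h
    · refine ⟨min ((|(γ s).1 - (γ t).1| - κ) / 8) (1 / 100), lt_min (by linarith) (by norm_num),
        min_le_right _ _, Or.inl ?_⟩
      have := min_le_left ((|(γ s).1 - (γ t).1| - κ) / 8) (1 / 100 : ℝ)
      linarith
    · refine ⟨min ((|(γ s).2 - (γ t).2| - κ) / 8) (1 / 100), lt_min (by linarith) (by norm_num),
        min_le_right _ _, Or.inr ?_⟩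
      have := min_le_left ((|(γ s).2 - (γ t).2| - κ) / 8) (1 / 100 : ℝ)
      linarith
  obtain ⟨η, hη0, hη1, hD⟩ := hD
  -- a neighbourhood
  have hKc : IsCompact (γ '' Icc s t) := isCompact_Icc.image hγ
  have hKA : γ '' Icc s t ⊆ pr ⁻¹' A := by
    rintro _ ⟨τ, hτ, rfl⟩
    exact hA τ hτ
  obtain ⟨δ, hδ0, hδ⟩ := hKc.exists_thickening_subset_open (hAo.preimage pr_cont) hKA
  set ρ := min δ η with hρ
  have hρ0 : 0 < ρ := lt_min hδ0 hη0
  have hρδ : ρ ≤ δ := min_le_left _ _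
  have hρη : ρ ≤ η := min_le_right _ _
  obtain ⟨_, ⟨p₁, hp₁, rfl⟩, _, ⟨p₂, hp₂, rfl⟩, hrec⟩ := recur a
    (pr_isOpenMap _ (isOpen_ball (x := γ s) (ε := ρ)))
    (pr_isOpenMap _ (isOpen_ball (x := γ t) (ε := ρ)))
    ((nonempty_ball.2 hρ0).image pr) ((nonempty_ball.2 hρ0).image pr)
  -- the modified path
  let γ' : ℝ → ℝ × ℝ := fun τ => γ τ + (((t - τ) / (t - s)) • (p₁ - γ s) +
    ((τ - s) / (t - s)) • (p₂ - γ t))
  have hγ' : Continuous γ' := by
    apply hγ.add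
    apply Continuous.add
    · exact ((continuous_const.sub continuous_id).div_const (t - s)).smul continuous_const
    · exact ((continuous_id.sub continuous_const).div_const (t - s)).smul continuous_const
  have hts : 0 < t - s := by linarith
  have e1 : γ' s = p₁ := by
    simp only [γ']
    rw [div_self hts.ne', sub_self, zero_div, one_smul, zero_smul, add_zero]
    abel
  have e2 : γ' t = p₂ := by
    simp only [γ']
    rw [div_self hts.ne', sub_self, zero_div, one_smul, zero_smul, zero_add]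
    abel
  have hclose : ∀ τ ∈ Icc s t, dist (γ' τ) (γ τ) < ρ := by
    intro τ hτ
    have h1 : dist (γ' τ) (γ τ) = ‖((t - τ) / (t - s)) • (p₁ - γ s) +
        ((τ - s) / (t - s)) • (p₂ - γ t)‖ := by
      rw [dist_eq_norm]
      simp only [γ']
      rw [add_sub_cancel_left]
    rw [h1]
    have h2 : ‖p₁ - γ s‖ < ρ := by rw [← dist_eq_norm]; exact hp₁
    have h3 : ‖p₂ - γ t‖ < ρ := by rw [← dist_eq_norm]; exact hp₂
    have h4 : 0 ≤ (t - τ) / (t - s) := div_nonneg (by linarith [hτ.2]) hts.le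
    have h5 : 0 ≤ (τ - s) / (t - s) := div_nonneg (by linarith [hτ.1]) hts.le
    have h6 : (t - τ) / (t - s) + (τ - s) / (t - s) = 1 := by
      rw [← add_div, show t - τ + (τ - s) = t - s by ring, div_self hts.ne']
    calc ‖((t - τ) / (t - s)) • (p₁ - γ s) + ((τ - s) / (t - s)) • (p₂ - γ t)‖
        ≤ ‖((t - τ) / (t - s)) • (p₁ - γ s)‖ + ‖((τ - s) / (t - s)) • (p₂ - γ t)‖ :=
          norm_add_le _ _
      _ = (t - τ) / (t - s) * ‖p₁ - γ s‖ + (τ - s) / (t - s) * ‖p₂ - γ t‖ := by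
          rw [norm_smul, norm_smul, Real.norm_of_nonneg h4, Real.norm_of_nonneg h5]
      _ < ρ := by
          rcases h4.lt_or_eq with h7 | h7
          · nlinarith
          · rw [← h7] at h6 ⊢
            have : (τ - s) / (t - s) = 1 := by linarith
            rw [this]
            linarith
  have hA' : ∀ τ ∈ Icc s t, pr (γ' τ) ∈ A := by
    intro τ hτ
    apply hδ
    rw [mem_thickening_iff]
    exact ⟨γ τ, mem_image_of_mem _ hτ, (hclose τ hτ).trans_le hρδ⟩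
  have hcoord : ∀ τ ∈ Icc s t, |(γ' τ).1 - (γ τ).1| < ρ ∧ |(γ' τ).2 - (γ τ).2| < ρ := by
    intro τ hτ
    have h1 := hclose τ hτ
    rw [Prod.dist_eq, max_lt_iff, Real.dist_eq, Real.dist_eq] at h1
    exact h1
  have hosc' : ∀ τ ∈ Icc s t, ∀ σ ∈ Icc s t, |(γ' τ).1 - (γ' σ).1| ≤ 1 / 2 ∧
      |(γ' τ).2 - (γ' σ).2| ≤ 1 / 2 := by
    intro τ hτ σ hσ
    have h1 := hcoord τ hτ
    have h2 := hcoord σ hσ
    have h3 := hosc τ hτ σ hσ
    simp only [abs_lt, abs_le] at h1 h2 h3 ⊢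
    refine ⟨⟨?_, ?_⟩, ⟨?_, ?_⟩⟩
    · linarith [h1.1.1, h2.1.2, h3.1.1]
    · linarith [h1.1.2, h2.1.1, h3.1.2]
    · linarith [h1.2.1, h2.2.2, h3.2.1]
    · linarith [h1.2.2, h2.2.1, h3.2.2]
  have hw : wid (γ' '' Icc s t) ≤ 1 / 2 := by
    apply wid_le (by norm_num)
    rintro _ ⟨τ, hτ, rfl⟩ _ ⟨σ, hσ, rfl⟩
    exact (hosc' τ hτ σ hσ).1
  have hh : hei (γ' '' Icc s t) ≤ 1 / 2 := by
    apply hei_le (by norm_num)
    rintro _ ⟨τ, hτ, rfl⟩ _ ⟨σ, hσ, rfl⟩
    exact (hosc' τ hτ σ hσ).2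
  obtain ⟨n₁, hn₁⟩ := limsup_small ha hno hγ' hst.le hA' hw hh hη0
  obtain ⟨n, hn, hd1, hd2⟩ := hrec ρ hρ0 (n₁ + 1)
  rw [← pr_iter] at hd1 hd2
  rw [Prod.dist_eq, max_lt_iff] at hd1 hd2
  obtain ⟨k₁, hk₁⟩ := near_int hd1.1
  obtain ⟨l₁, hl₁⟩ := near_int hd1.2
  obtain ⟨k₂, hk₂⟩ := near_int hd2.1
  obtain ⟨l₂, hl₂⟩ := near_int hd2.2
  have hKb : ∀ m, Bornology.IsBounded ((F a)^[m] '' (γ' '' Icc s t)) := fun m =>
    ((isCompact_Icc.image hγ').image ((F_cont a).iterate m)).isBounded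
  have m1 : ∀ m, (F a)^[m] p₁ ∈ (F a)^[m] '' (γ' '' Icc s t) := fun m =>
    mem_image_of_mem _ (e1 ▸ mem_image_of_mem _ hs)
  have m2 : ∀ m, (F a)^[m] p₂ ∈ (F a)^[m] '' (γ' '' Icc s t) := fun m =>
    mem_image_of_mem _ (e2 ▸ mem_image_of_mem _ ht)
  have hX : |((F a)^[n] p₁).1 - ((F a)^[n] p₂).1| ≤ κ + η :=
    (le_wid (hKb n) (m1 n) (m2 n)).trans (hn₁ n (by omega))
  have hY : |((F a)^[n] p₁).2 - ((F a)^[n] p₂).2| ≤ κ + η := by
    obtain ⟨m, rfl⟩ : ∃ m, n = m + 1 := ⟨n - 1, by omega⟩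
    rw [iter_snd, iter_snd]
    exact (le_wid (hKb m) (m1 m) (m2 m)).trans (hn₁ m (by omega))
  have hp : |p₁.1 - p₂.1| ≤ 1 / 2 ∧ |p₁.2 - p₂.2| ≤ 1 / 2 := by
    have := hosc' s hs t ht
    rw [e1, e2] at this
    exact this
  have hX2 := coord hk₁ hk₂ hX (by linarith [hp.1])
  have hY2 := coord hl₁ hl₂ hY (by linarith [hp.2])
  have h1 := hcoord s hs
  have h2 := hcoord t ht
  rw [e1] at h1
  rw [e2] at h2
  rcases hD with h | h
  · have h3 := abs_lt.1 h1.1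
    have h4 := abs_lt.1 h2.1
    have h5 := abs_le.1 hX2
    have h6 : |(γ s).1 - (γ t).1| ≤ κ + 5 * η := by
      rw [abs_le]
      constructor <;> linarith
    linarith
  · have h3 := abs_lt.1 h1.2
    have h4 := abs_lt.1 h2.2
    have h5 := abs_le.1 hY2
    have h6 : |(γ s).2 - (γ t).2| ≤ κ + 5 * η := by
      rw [abs_le]
      constructor <;> linarith
    linarith

/-- all paths in a slim open set are short -/
theorem slim_path {a : ℝ} (ha : 5 ≤ |a|) {A : Set T2} (hAo : IsOpen A) (hno : Slim a A)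
    {γ : ℝ → ℝ × ℝ} (hγ : Continuous γ) {s t : ℝ} (hst : s ≤ t)
    (hA : ∀ τ ∈ Icc s t, pr (γ τ) ∈ A) :
    |(γ s).1 - (γ t).1| ≤ 3 / (4 * |a|) ∧ |(γ s).2 - (γ t).2| ≤ 3 / (4 * |a|) := by
  have ha0 : 0 < |a| := by linarith
  set κ := 3 / (4 * |a|) with hκ
  have hκ1 : |a| * κ = 3 / 4 := by rw [hκ]; field_simp
  have hκ0 : 0 < κ := by positivity
  have hκ2 : κ ≤ 3 / 20 := by nlinarith
  by_contra hcon
  let g : ℝ → ℝ := fun τ => max |(γ s).1 - (γ τ).1| |(γ s).2 - (γ τ).2|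
  have hg : Continuous g :=
    ((continuous_const.sub hγ.fst).abs).max ((continuous_const.sub hγ.snd).abs)
  have hgs : g s = 0 := by simp [g]
  have hgt : κ < g t := by
    rw [not_and_or] at hcon
    push Not at hcon
    rcases hcon with h | h
    · exact h.trans_le (le_max_left _ _)
    · exact h.trans_le (le_max_right _ _)
  obtain ⟨s', t', h1, h2, h3, h4, h5⟩ := cross_sub0 hg hst (lo := 0) (hi := min (g t) (1 / 5))
    hgs.le (min_le_left _ _) (le_min (by linarith) (by norm_num))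
  set e := min (g t) (1 / 5) with he
  have heκ : κ < e := lt_min hgt (by linarith)
  have he2 : e ≤ 1 / 5 := min_le_right _ _
  have hsub : ∀ τ ∈ Icc s' t', τ ∈ Icc s t := fun τ hτ => ⟨h1.trans hτ.1, hτ.2.trans h2⟩
  have hne : s' ≠ t' := by
    rintro rfl
    rcases h4 with ⟨h6, h7⟩ | ⟨h6, h7⟩ <;> linarith
  have hlt : s' < t' := lt_of_le_of_ne h3 hne
  have hb : ∀ τ ∈ Icc s' t', |(γ s).1 - (γ τ).1| ≤ e ∧ |(γ s).2 - (γ τ).2| ≤ e := fun τ hτ =>
    ⟨(le_max_left _ _).trans (h5 τ hτ).2, (le_max_right _ _).trans (h5 τ hτ).2⟩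
  have hshort := slim_short ha hAo hno hγ hlt (fun τ hτ => hA τ (hsub τ hτ)) (by
    intro τ hτ σ hσ
    have h6 := hb τ hτ
    have h7 := hb σ hσ
    simp only [abs_le] at h6 h7 ⊢
    refine ⟨⟨?_, ?_⟩, ⟨?_, ?_⟩⟩ <;> linarith [h6.1.1, h6.1.2, h6.2.1, h6.2.2, h7.1.1, h7.1.2, h7.2.1, h7.2.2])
  have key : ∀ u : ℝ, g u = 0 → (γ u).1 = (γ s).1 ∧ (γ u).2 = (γ s).2 := by
    intro u hu
    have h6 : |(γ s).1 - (γ u).1| ≤ 0 := hu ▸ le_max_left _ _
    have h7 : |(γ s).2 - (γ u).2| ≤ 0 := hu ▸ le_max_right _ _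
    have h8 := abs_nonpos_iff.1 h6
    have h9 := abs_nonpos_iff.1 h7
    exact ⟨by linarith, by linarith⟩
  have hmax : ∀ u : ℝ, |(γ s).1 - (γ u).1| ≤ κ → |(γ s).2 - (γ u).2| ≤ κ → g u = e → False := by
    intro u h6 h7 h8
    have : g u ≤ κ := max_le h6 h7
    linarith
  rcases h4 with ⟨h6, h7⟩ | ⟨h6, h7⟩
  · obtain ⟨h8, h9⟩ := key s' h6
    rw [h8, h9] at hshort
    exact hmax t' hshort.1 hshort.2 h7
  · obtain ⟨h8, h9⟩ := key t' h7
    rw [h8, h9] at hshort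
    rw [abs_sub_comm, abs_sub_comm (γ s').2] at hshort
    exact hmax s' hshort.1 hshort.2 h6

/-- `A` is small: all the connected subsets of its preimage in the plane have projections of
length at most `3 / (4 |a|)` -/
def Small (a : ℝ) (A : Set T2) : Prop :=
  ∀ C : Set (ℝ × ℝ), IsPreconnected C → C ⊆ pr ⁻¹' A → ∀ p ∈ C, ∀ q ∈ C,
    |p.1 - q.1| ≤ 3 / (4 * |a|) ∧ |p.2 - q.2| ≤ 3 / (4 * |a|)

theorem small_of_slim {a : ℝ} (ha : 5 ≤ |a|) {A : Set T2} (hAo : IsOpen A) (hno : Slim a A) :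
    Small a A := by
  intro C hC hCA p hp q hq
  have hU : IsOpen (pr ⁻¹' A) := hAo.preimage pr_cont
  have h1 : IsOpen (connectedComponentIn (pr ⁻¹' A) p) := hU.connectedComponentIn
  have h2 : IsConnected (connectedComponentIn (pr ⁻¹' A) p) :=
    isConnected_connectedComponentIn_iff.2 (hCA hp)
  have h3 : IsPathConnected (connectedComponentIn (pr ⁻¹' A) p) :=
    (h1.isConnected_iff_isPathConnected).1 h2
  have h4 : C ⊆ connectedComponentIn (pr ⁻¹' A) p := hC.subset_connectedComponentIn hp hCA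
  obtain ⟨γ, hγ⟩ := h3.joinedIn p (h4 hp) q (h4 hq)
  have h5 : ∀ τ ∈ Icc (0:ℝ) 1, pr (γ.extend τ) ∈ A := by
    intro τ hτ
    rw [γ.extend_apply hτ]
    have h7 : γ ⟨τ, hτ⟩ ∈ pr ⁻¹' A := connectedComponentIn_subset _ _ (hγ ⟨τ, hτ⟩)
    exact h7
  have h6 := slim_path ha hAo hno γ.continuous_extend (s := 0) (t := 1) (by norm_num) h5
  rw [γ.extend_zero, γ.extend_one] at h6
  exact h6

/-- an open set which is not small eventually contains crossing paths -/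
theorem box_of_not_small {a : ℝ} (ha : 5 ≤ |a|) {A : Set T2} (hAo : IsOpen A)
    (h : ¬ Small a A) : ∃ N, ∀ n ≥ N, Box a ((S a)^[n] '' A) := by
  have h1 : ¬ Slim a A := fun hs => h (small_of_slim ha hAo hs)
  unfold Slim at h1
  push Not at h1
  obtain ⟨n, e, he, he1, hf⟩ := h1
  obtain ⟨N, hN⟩ := box_eventually (by linarith) he1 he hf
  refine ⟨N + n, fun m hm => ?_⟩
  obtain ⟨j, rfl⟩ := Nat.exists_eq_add_of_le hm
  rw [show N + n + j = (N + j) + n by ring, image_add]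
  exact hN _ (by omega)

end Pool.Agent.H242.TM
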