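import Pool.Agent.H242.TM.Top

set_option autoImplicit false

/-!
# The mixing time at small scales
-/

namespace Pool.Agent.H242.TM

open Real Set Metric Filter Topology MeasureTheory
open Pool.Agent.TH705.SM (T2 S Si)

/-- the horizontal segment of length `2 r` with centre `p` -/
def hseg (p : T2) (r : ℝ) : Set T2 := {z | dist z.1 p.1 ≤ r ∧ z.2 = p.2}

/-- the vertical segment of length `2 r` with centre `p` -/
def vseg (p : T2) (r : ℝ) : Set T2 := {z | z.1 = p.1 ∧ dist z.2 p.2 ≤ r}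

theorem swap_vseg (p : T2) (r : ℝ) : Prod.swap '' vseg p r = hseg (Prod.swap p) r := by
  ext x
  constructor
  · rintro ⟨y, hy, rfl⟩
    exact ⟨hy.2, hy.1⟩
  · intro hx
    exact ⟨Prod.swap x, ⟨hx.2, hx.1⟩, Prod.swap_swap x⟩

theorem hseg_fwd {r : ℝ} (hr : 0 ≤ r) (z : T2) : FwdE (2 * r) (hseg z r) := by
  obtain ⟨p, rfl⟩ := pr_surj z
  refine ⟨fun τ => (p.1 + τ, p.2), -r, r, p.1 - r,
    by fun_prop, ⟨by linarith, Or.inl ⟨?_, ?_⟩, ?_⟩, ?_, ?_⟩
  · simp only; ring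
  · simp only; ring
  · intro τ hτ
    simp only
    exact ⟨by linarith [hτ.1], by linarith [hτ.2]⟩
  · intro τ _ σ _
    simp only [sub_self, abs_zero]
    positivity
  · intro τ hτ
    refine ⟨?_, rfl⟩
    change dist ((p.1 + τ : ℝ) : UnitAddCircle) (p.1 : UnitAddCircle) ≤ _
    rw [dist_eq_norm, ← AddCircle.coe_sub, show p.1 + τ - p.1 = τ by ring]
    refine (QuotientAddGroup.norm_mk_le_norm).trans ?_
    rw [Real.norm_eq_abs, abs_le]
    exact hτ

/-- explicit times, for all widths -/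
theorem box_time {a : ℝ} (ha : 5 / 2 ≤ |a|) {r : ℝ} (hr : 1 / (2 * |a|) ≤ r) (hr1 : r ≤ 1 / 2)
    {A : Set T2} (hA : FwdE (2 * r) A) {m : ℕ} (hm : 2 * |a| ≤ (4 * |a| * r) ^ (2 ^ m)) {n : ℕ}
    (hn : m + 2 ≤ n) : Box a ((S a)^[n] '' A) := by
  have ha0 : 0 < |a| := by linarith
  have hv : 2 ≤ 4 * |a| * r := by
    rw [div_le_iff₀ (by positivity)] at hr
    linarith
  set v := 4 * |a| * r with hvdef
  have h1 : ∀ n : ℕ, (2:ℝ) ≤ v ^ (2 ^ n) := by
    intro n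
    have h2 : 1 ≤ 2 ^ n := Nat.one_le_two_pow
    calc (2:ℝ) ≤ v := hv
      _ = v ^ 1 := (pow_one v).symm
      _ ≤ v ^ (2 ^ n) := pow_le_pow_right₀ (by linarith) h2
  have hψ : ∀ n : ℕ, (v ^ (2 ^ (n + 1)) / 2) ≤
      4 * (v ^ (2 ^ n) / 2) ^ 2 - 2 * (v ^ (2 ^ n) / 2) := by
    intro n
    have h2 : v ^ (2 ^ (n + 1)) = (v ^ (2 ^ n)) ^ 2 := by
      rw [← pow_mul, pow_succ]
    rw [h2]
    nlinarith [h1 n]
  have hψ1 : ∀ n : ℕ, (3 / 4 : ℝ) ≤ v ^ (2 ^ n) / 2 := fun n => by linarith [h1 n]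
  have h2 : FwdE 1 ((S a)^[m] '' A) := by
    refine reach_one ha hψ hψ1 (e := 2 * r) (by linarith) (by
      rw [pow_zero, pow_one, hvdef]
      linarith) hA (n := m) ?_
    linarith
  obtain ⟨j, rfl⟩ := Nat.exists_eq_add_of_le hn
  rw [show m + 2 + j = (2 + j) + m by ring, image_add]
  exact box_of_one ha h2 (by omega)

theorem mix_segments {a : ℝ} (ha : 5 / 2 ≤ |a|) {r : ℝ} (hr : 1 / (2 * |a|) ≤ r)
    (hr1 : r ≤ 1 / 2) {m : ℕ} (hm : 2 * |a| ≤ (4 * |a| * r) ^ (2 ^ m)) {n : ℕ}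
    (hn : 2 * m + 4 ≤ n) (p q : T2) : ((S a)^[n] '' hseg p r ∩ vseg q r).Nonempty := by
  have ha0 : 0 < |a| := by linarith
  have hr0 : 0 ≤ r := le_trans (by positivity) hr
  obtain ⟨j, rfl⟩ := Nat.exists_eq_add_of_le hn
  rw [show 2 * m + 4 + j = (m + 2 + j) + (m + 2) by ring]
  apply mix_time (by linarith)
  · exact box_time ha hr hr1 (hseg_fwd hr0 p) hm (by omega)
  · rw [swap_vseg]
    exact box_time ha hr hr1 (hseg_fwd hr0 _) hm le_rfl

/-! ### the lower bound for integer parameters -/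

/-- deviation from a degenerate fixed point -/
theorem phi_dev (a t : ℝ) {x : ℝ} (hx : cos (2 * π * x) = 0) :
    |phi a (x + t) - phi a x| ≤ 2 * |t| + 20 * |a| * t ^ 2 := by
  have e1 : phi a (x + t) - phi a x = 2 * t + a * (sin (2 * π * x) * (cos (2 * π * t) - 1)) := by
    unfold phi
    rw [show 2 * π * (x + t) = 2 * π * x + 2 * π * t by ring, sin_add, hx]
    ring
  rw [e1]
  have h1 : |sin (2 * π * x) * (cos (2 * π * t) - 1)| ≤ 20 * t ^ 2 := by
    rw [abs_mul]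
    have h2 := abs_sin_le_one (2 * π * x)
    have h3 : |cos (2 * π * t) - 1| ≤ 20 * t ^ 2 := by
      have h4 := one_sub_sq_div_two_le_cos (x := 2 * π * t)
      have h5 := cos_le_one (2 * π * t)
      rw [abs_of_nonpos (by linarith)]
      have h6 : (2 * π * t) ^ 2 / 2 = 2 * π ^ 2 * t ^ 2 := by ring
      have h7 : π ^ 2 ≤ 10 := by
        have := pi_lt_d2
        have := pi_pos
        nlinarith
      nlinarith [sq_nonneg t]
    calc |sin (2 * π * x)| * |cos (2 * π * t) - 1| ≤ 1 * (20 * t ^ 2) := by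
          apply mul_le_mul h2 h3 (abs_nonneg _) (by norm_num)
      _ = 20 * t ^ 2 := one_mul _
  calc |2 * t + a * (sin (2 * π * x) * (cos (2 * π * t) - 1))|
      ≤ |2 * t| + |a * (sin (2 * π * x) * (cos (2 * π * t) - 1))| := abs_add_le _ _
    _ = 2 * |t| + |a| * |sin (2 * π * x) * (cos (2 * π * t) - 1)| := by
        rw [abs_mul, abs_mul, abs_of_pos (by norm_num : (0:ℝ) < 2)]
    _ ≤ 2 * |t| + |a| * (20 * t ^ 2) := by
        have := mul_le_mul_of_nonneg_left h1 (abs_nonneg a)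
        linarith
    _ = 2 * |t| + 20 * |a| * t ^ 2 := by ring

/-- slow growth near a degenerate fixed point -/
theorem slow {a : ℝ} {x : ℝ} {M : ℤ} (hx : cos (2 * π * x) = 0) (hfix : phi a x - x = x + M)
    {r : ℝ} (hr : 1 / (2 * |a|) ≤ r) (ha : a ≠ 0) (n : ℕ) {p : ℝ × ℝ} (hp1 : |p.1| ≤ r)
    (hp2 : |p.2| ≤ r) : ∃ (k l : ℤ) (p' : ℝ × ℝ), (F a)^[n] ((x, x) + p) =
      (x, x) + ((k : ℝ), (l : ℝ)) + p' ∧ 26 * |a| * |p'.1| ≤ (26 * |a| * r) ^ (2 ^ n) ∧
      26 * |a| * |p'.2| ≤ (26 * |a| * r) ^ (2 ^ n) := by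
  have ha0 : 0 < |a| := abs_pos.2 ha
  have hv : 13 ≤ 26 * |a| * r := by
    rw [div_le_iff₀ (by positivity)] at hr
    linarith
  set v := 26 * |a| * r with hvdef
  induction n with
  | zero =>
    refine ⟨0, 0, p, ?_, ?_, ?_⟩
    · simp
    · rw [pow_zero, pow_one, hvdef]
      exact mul_le_mul_of_nonneg_left hp1 (by positivity)
    · rw [pow_zero, pow_one, hvdef]
      exact mul_le_mul_of_nonneg_left hp2 (by positivity)
  | succ n ih =>
    obtain ⟨k, l, p', h1, h2, h3⟩ := ih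
    set W := v ^ (2 ^ n) with hW
    have hW1 : 13 ≤ W := by
      have h4 : 1 ≤ 2 ^ n := Nat.one_le_two_pow
      calc (13:ℝ) ≤ v := hv
        _ = v ^ 1 := (pow_one v).symm
        _ ≤ v ^ (2 ^ n) := pow_le_pow_right₀ (by linarith) h4
    have hW2 : v ^ (2 ^ (n + 1)) = W ^ 2 := by rw [hW, ← pow_mul, pow_succ]
    refine ⟨M + 2 * k - l, k, (phi a (x + p'.1) - phi a x - p'.2, p'.1), ?_, ?_, ?_⟩
    · rw [Function.iterate_succ_apply', h1]
      unfold F
      ext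
      · simp only [Prod.fst_add, Prod.snd_add]
        have e1 : phi a (x + k + p'.1) = phi a (x + p'.1) + 2 * k := by
          unfold phi
          rw [show 2 * π * (x + k + p'.1) = 2 * π * (x + p'.1) + k * (2 * π) by ring,
            sin_add_int_mul_two_pi]
          ring
        rw [e1]
        push_cast
        linarith
      · simp only [Prod.fst_add, Prod.snd_add]
    · simp only
      rw [hW2]
      have h4 := phi_dev a p'.1 hx
      have h5 := abs_sub (phi a (x + p'.1) - phi a x) p'.2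
      have h6 : |p'.1| ≤ W / (26 * |a|) := by
        rw [le_div_iff₀ (by positivity)]
        linarith
      have h7 : |a| * p'.1 ^ 2 * (26 * 26 * |a|) ≤ W ^ 2 := by
        have h8 : (26 * |a| * |p'.1|) ^ 2 ≤ W ^ 2 :=
          pow_le_pow_left₀ (by positivity) h2 2
        have h9 : (26 * |a| * |p'.1|) ^ 2 = |a| * p'.1 ^ 2 * (26 * 26 * |a|) := by
          rw [show (26 * |a| * |p'.1|) ^ 2 = 676 * |a| ^ 2 * |p'.1| ^ 2 by ring, sq_abs p'.1]
          ring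
        linarith
      have h10 : 26 * |a| * |phi a (x + p'.1) - phi a x - p'.2| ≤
          26 * |a| * (2 * |p'.1| + 20 * |a| * p'.1 ^ 2 + |p'.2|) :=
        mul_le_mul_of_nonneg_left (by linarith) (by positivity)
      have h11 : 26 * |a| * (2 * |p'.1| + 20 * |a| * p'.1 ^ 2 + |p'.2|) =
          2 * (26 * |a| * |p'.1|) + (20 / 26) * (|a| * p'.1 ^ 2 * (26 * 26 * |a|)) +
            26 * |a| * |p'.2| := by ring
      have h12 : 3 * W ≤ (6 / 26) * W ^ 2 := by nlinarith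
      linarith
    · simp only
      rw [hW2]
      nlinarith

theorem near_fixed {a : ℝ} {x : ℝ} {M : ℤ} (hx : cos (2 * π * x) = 0)
    (hfix : phi a x - x = x + M) {r : ℝ} (hr : 1 / (2 * |a|) ≤ r) (ha : a ≠ 0) {m : ℕ}
    (hm : (26 * |a| * r) ^ (2 ^ m) < 13 / 2 * |a|) {n : ℕ} (hn : n ≤ m) {z : T2}
    (hz : z ∈ closedBall (pr (x, x)) r) : dist ((S a)^[n] z) (pr (x, x)) < 1 / 4 := by
  have ha0 : 0 < |a| := abs_pos.2 ha
  have hv : 13 ≤ 26 * |a| * r := by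
    rw [div_le_iff₀ (by positivity)] at hr
    linarith
  obtain ⟨q, rfl⟩ := pr_surj z
  rw [mem_closedBall, Prod.dist_eq, max_le_iff] at hz
  have h1 : dist (q.1 : UnitAddCircle) (x : UnitAddCircle) ≤ r := hz.1
  have h2 : dist (q.2 : UnitAddCircle) (x : UnitAddCircle) ≤ r := hz.2
  rw [dist_eq_norm, ← AddCircle.coe_sub, UnitAddCircle.norm_eq] at h1 h2
  set p : ℝ × ℝ := (q.1 - x - round (q.1 - x), q.2 - x - round (q.2 - x)) with hp
  have e1 : pr q = pr ((x, x) + p) := by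
    have e2 : (x, x) + p = q - ((round (q.1 - x) : ℝ), (round (q.2 - x) : ℝ)) := by
      rw [hp]
      ext
      · simp only [Prod.fst_add, Prod.fst_sub]; ring
      · simp only [Prod.snd_add, Prod.snd_sub]; ring
    rw [e2, pr_sub_int]
  rw [e1, ← pr_iter]
  obtain ⟨k, l, p', h3, h4, h5⟩ := slow hx hfix hr ha n (p := p) h1 h2
  rw [h3]
  have e3 : pr ((x, x) + ((k : ℝ), (l : ℝ)) + p') = pr ((x, x) + p') := by
    have e4 : (x, x) + ((k : ℝ), (l : ℝ)) + p' - ((k : ℝ), (l : ℝ)) = (x, x) + p' := by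
      abel
    rw [← e4, pr_sub_int]
  rw [e3, Prod.dist_eq]
  have h6 : (26 * |a| * r) ^ (2 ^ n) < 13 / 2 * |a| :=
    lt_of_le_of_lt (pow_le_pow_right₀ (by linarith) (Nat.pow_le_pow_right (by norm_num) hn)) hm
  have key : ∀ t : ℝ, 26 * |a| * |t| ≤ (26 * |a| * r) ^ (2 ^ n) →
      dist ((x + t : ℝ) : UnitAddCircle) (x : UnitAddCircle) < 1 / 4 := by
    intro t ht
    rw [dist_eq_norm, ← AddCircle.coe_sub, show x + t - x = t by ring]
    refine (QuotientAddGroup.norm_mk_le_norm).trans_lt ?_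
    rw [Real.norm_eq_abs]
    nlinarith
  apply max_lt
  · exact key _ h4
  · exact key _ h5

theorem no_mix_integer {N : ℤ} (hN : N ≠ 0) {r : ℝ} (hr : 1 / (2 * |(N : ℝ)|) ≤ r) {m : ℕ}
    (hm : (26 * |(N : ℝ)| * r) ^ (2 ^ m) < 13 / 2 * |(N : ℝ)|) {n : ℕ} (hn : n ≤ 2 * m) :
    Disjoint ((S (N : ℝ))^[n] '' closedBall (pr (1 / 4, 1 / 4)) r)
      (closedBall (pr (3 / 4, 3 / 4)) r) := by
  have ha : (N : ℝ) ≠ 0 := by exact_mod_cast hN
  set a : ℝ := (N : ℝ) with hadef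
  have hx : cos (2 * π * (1 / 4)) = 0 := by
    rw [show 2 * π * (1 / 4) = π / 2 by ring, cos_pi_div_two]
  have hx' : cos (2 * π * (3 / 4)) = 0 := by
    rw [show 2 * π * (3 / 4) = π / 2 + π by ring, cos_add_pi, cos_pi_div_two, neg_zero]
  have hf : phi a (1 / 4) - 1 / 4 = 1 / 4 + (N : ℤ) := by
    unfold phi
    rw [show 2 * π * (1 / 4) = π / 2 by ring, sin_pi_div_two]
    rw [← hadef]
    ring
  have hf' : phi a (3 / 4) - 3 / 4 = 3 / 4 + ((-N : ℤ) : ℝ) := by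
    unfold phi
    rw [show 2 * π * (3 / 4) = π / 2 + π by ring, sin_add_pi, sin_pi_div_two]
    push_cast
    rw [← hadef]
    ring
  rw [disjoint_left]
  rintro _ ⟨z, hz, rfl⟩ hw
  -- split the time
  obtain ⟨n₁, n₂, h1, h2, rfl⟩ : ∃ n₁ n₂, n₁ ≤ m ∧ n₂ ≤ m ∧ n = n₂ + n₁ :=
    ⟨min n m, n - min n m, min_le_right _ _, by omega, by omega⟩
  have h3 := near_fixed hx hf hr ha hm h1 hz
  -- the backward orbit
  have h4 : Prod.swap ((S a)^[n₂ + n₁] z) ∈ closedBall (pr (3 / 4, 3 / 4)) r := by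
    have : closedBall (pr (3 / 4, 3 / 4)) r =
        Prod.swap '' closedBall (pr ((3:ℝ) / 4, (3:ℝ) / 4)) r := by
      rw [swap_closedBall]
      rfl
    rw [this]
    exact mem_image_of_mem _ hw
  have h5 := near_fixed hx' hf' hr ha hm h2 h4
  rw [iter_swap, Function.iterate_add_apply,
    Function.LeftInverse.iterate (TH705.SM.Si_S a) n₂] at h5
  have h6 : dist (Prod.swap ((S a)^[n₁] z)) (pr (3 / 4, 3 / 4)) =
      dist ((S a)^[n₁] z) (pr (3 / 4, 3 / 4)) := by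
    have e1 : pr ((3:ℝ) / 4, (3:ℝ) / 4) = Prod.swap (pr ((3:ℝ) / 4, (3:ℝ) / 4)) := rfl
    conv_lhs => rw [e1]
    rw [Prod.dist_eq, Prod.dist_eq, max_comm]
    rfl
  rw [h6] at h5
  have h7 : dist (pr ((1:ℝ) / 4, (1:ℝ) / 4)) (pr (3 / 4, 3 / 4)) < 1 / 2 := by
    have := dist_triangle_left (pr ((1:ℝ) / 4, (1:ℝ) / 4)) (pr (3 / 4, 3 / 4)) ((S a)^[n₁] z)
    linarith
  rw [Prod.dist_eq] at h7
  have h8 := (le_max_left _ _).trans_lt h7
  have h9 : dist (((1:ℝ) / 4 : ℝ) : UnitAddCircle) (((3:ℝ) / 4 : ℝ) : UnitAddCircle) < 1 / 2 := h8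
  rw [dist_eq_norm, ← AddCircle.coe_sub, show (1:ℝ) / 4 - 3 / 4 = -(1 / 2) by norm_num,
    AddCircle.coe_neg, norm_neg, UnitAddCircle.norm_eq] at h9
  have h10 : round ((1:ℝ) / 2) = 1 := by
    rw [round_eq]
    norm_num
  rw [h10] at h9
  norm_num at h9

end Pool.Agent.H242.TM
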