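import Pool.Agent.H242.TM.Rec

set_option autoImplicit false

/-!
# Topological mixing of the standard map outside small islands
-/

namespace Pool.Agent.H242.TM

open Real Set Metric Filter Topology MeasureTheory
open Pool.Agent.TH705.SM (T2 S Si)

theorem S_swap (a : ℝ) (p : T2) : S a (Prod.swap p) = Prod.swap (Si a p) := rfl

theorem iter_swap (a : ℝ) (n : ℕ) (p : T2) : (S a)^[n] (Prod.swap p) = Prod.swap ((Si a)^[n] p) := by
  induction n generalizing p with
  | zero => rfl
  | succ n ih => rw [Function.iterate_succ_apply, Function.iterate_succ_apply, S_swap, ih]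

theorem image_swap_iter (a : ℝ) (n : ℕ) (A : Set T2) :
    (S a)^[n] '' (Prod.swap '' A) = Prod.swap '' ((Si a)^[n] '' A) := by
  rw [image_image, image_image]
  exact image_congr (fun p _ => iter_swap a n p)

theorem swap_swap_image (A : Set T2) : Prod.swap '' (Prod.swap '' A) = A := by
  rw [image_image]
  simp

theorem isOpen_swap {A : Set T2} (hA : IsOpen A) : IsOpen (Prod.swap '' A) := by
  rw [Set.image_swap_eq_preimage_swap]
  exact hA.preimage continuous_swap

theorem small_swap {a : ℝ} {A : Set T2} (h : Small a A) : Small a (Prod.swap '' A) := by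
  intro C hC hCA p hp q hq
  have h1 := h (Prod.swap '' C) (hC.image _ continuous_swap.continuousOn) (by
    rintro _ ⟨r, hr, rfl⟩
    obtain ⟨b, hb, hb2⟩ := hCA hr
    have : pr (Prod.swap r) = b := by
      have h2 : pr (Prod.swap r) = Prod.swap (pr r) := rfl
      rw [h2, ← hb2, Prod.swap_swap]
    rw [mem_preimage, this]
    exact hb) (Prod.swap p) (mem_image_of_mem _ hp) (Prod.swap q) (mem_image_of_mem _ hq)
  exact ⟨h1.2, h1.1⟩

theorem Small.mono {a : ℝ} {A B : Set T2} (h : Small a B) (hAB : A ⊆ B) : Small a A :=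
  fun C hC hCA => h C hC (hCA.trans (preimage_mono hAB))

theorem Box.mono {a : ℝ} {A B : Set T2} (h : Box a A) (hAB : A ⊆ B) : Box a B := by
  obtain ⟨γ, s, t, k, l, h1, h2, h3, h4⟩ := h
  exact ⟨γ, s, t, k, l, h1, h2, h3, fun τ hτ => hAB (h4 τ hτ)⟩

theorem not_small_of_box {a : ℝ} (ha : 5 ≤ |a|) {A : Set T2} (h : Box a A) : ¬ Small a A := by
  obtain ⟨γ, s, t, k, l, h1, h2, h3, h4⟩ := h
  intro hs
  have h5 := (hs (γ '' Icc s t) ((isPreconnected_Icc).image _ h1.continuousOn) (by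
    rintro _ ⟨τ, hτ, rfl⟩
    exact h4 τ hτ) (γ s) (mem_image_of_mem _ ⟨le_rfl, h2.1⟩) (γ t)
    (mem_image_of_mem _ ⟨h2.1, le_rfl⟩)).1
  have h6 := const_lt ha
  have h7 : |(γ s).1 - (γ t).1| = 1 := by
    rcases h2.2.1 with ⟨h8, h9⟩ | ⟨h8, h9⟩
    · have e1 : (γ s).1 = k - 1 / 2 := h8
      have e2 : (γ t).1 = k + 1 / 2 := h9
      rw [e1, e2, show (k : ℝ) - 1 / 2 - (k + 1 / 2) = -1 by ring, abs_neg, abs_one]
    · have e1 : (γ s).1 = k + 1 / 2 := h8
      have e2 : (γ t).1 = k - 1 / 2 := h9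
      rw [e1, e2, show (k : ℝ) + 1 / 2 - (k - 1 / 2) = 1 by ring, abs_one]
  linarith

/-- the images of `U` meet `V` at all large times -/
def Mix (a : ℝ) (U V : Set T2) : Prop := ∃ N, ∀ n ≥ N, ((S a)^[n] '' U ∩ V).Nonempty

theorem mix_time {a : ℝ} (ha : 1 ≤ |a|) {U V : Set T2} {n m : ℕ} (hU : Box a ((S a)^[n] '' U))
    (hV : Box a ((S a)^[m] '' (Prod.swap '' V))) : ((S a)^[n + m] '' U ∩ V).Nonempty := by
  rw [image_swap_iter] at hV
  obtain ⟨x, hx, y, hy, hyx⟩ := box_meet ha hU hV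
  refine ⟨y, ?_, hy⟩
  rw [Nat.add_comm, image_add]
  refine ⟨x, hx, ?_⟩
  rw [← hyx]
  exact Function.RightInverse.iterate (S_Si a) m y

theorem mix_of_box {a : ℝ} (ha : 1 ≤ |a|) {U V : Set T2}
    (hU : ∃ N, ∀ n ≥ N, Box a ((S a)^[n] '' U))
    (hV : ∃ N, ∀ n ≥ N, Box a ((S a)^[n] '' (Prod.swap '' V))) : Mix a U V := by
  obtain ⟨N, hN⟩ := hU
  obtain ⟨M, hM⟩ := hV
  refine ⟨N + M, fun n hn => ?_⟩
  obtain ⟨j, rfl⟩ := Nat.exists_eq_add_of_le hn
  rw [show N + M + j = (N + j) + M by ring]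
  exact mix_time ha (hN _ (by omega)) (hM _ le_rfl)

/-- **mixing of the open sets which are not small** -/
theorem mix_not_small {a : ℝ} (ha : 5 ≤ |a|) {U V : Set T2} (hU : IsOpen U) (hV : IsOpen V)
    (hU' : ¬ Small a U) (hV' : ¬ Small a V) : Mix a U V := by
  refine mix_of_box (by linarith) (box_of_not_small ha hU hU')
    (box_of_not_small ha (isOpen_swap hV) fun h => hV' ?_)
  have := small_swap h
  rwa [swap_swap_image] at this

/-- the unstable set -/
def Wu (a : ℝ) : Set T2 := Prod.swap '' Ws a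

theorem ws_invariant {a : ℝ} {p : T2} {n : ℕ} (h : (S a)^[n] p ∈ Ws a) : p ∈ Ws a := by
  change Tendsto _ _ _
  rw [← tendsto_add_atTop_iff_nat n]
  have h1 : Tendsto (fun m : ℕ => (S a)^[m] ((S a)^[n] p)) atTop _ := h
  refine h1.congr (fun m => ?_)
  rw [← Function.iterate_add_apply]

theorem ws_invariant' {a : ℝ} {p : T2} (n : ℕ) (h : p ∈ Ws a) : (S a)^[n] p ∈ Ws a := by
  change Tendsto _ _ _
  have h1 : Tendsto (fun m : ℕ => (S a)^[m] p) atTop _ := h
  rw [← tendsto_add_atTop_iff_nat n] at h1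
  refine h1.congr (fun m => ?_)
  rw [Function.iterate_add_apply]

/-- an open set which is not small meets the stable set -/
theorem ws_of_not_small {a : ℝ} (ha : 5 ≤ |a|) {A : Set T2} (hA : IsOpen A)
    (h : ¬ Small a A) : (A ∩ Ws a).Nonempty := by
  obtain ⟨N, hN⟩ := box_of_not_small ha hA h
  obtain ⟨x, ⟨y, hy, rfl⟩, hx⟩ := box_ws (by linarith) (hN N le_rfl)
  exact ⟨y, hy, ws_invariant hx⟩

theorem image_ws (a : ℝ) : S a ⁻¹' Ws a = Ws a := by
  ext p
  exact ⟨fun h => ws_invariant (n := 1) h, fun h => ws_invariant' 1 h⟩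

/-- `S` as a homeomorphism -/
noncomputable def Sh (a : ℝ) : T2 ≃ₜ T2 where
  toFun := S a
  invFun := Si a
  left_inv := TH705.SM.Si_S a
  right_inv := S_Si a
  continuous_toFun := TH705.SM.S_cont a
  continuous_invFun := TH705.SM.Si_cont a

theorem Sh_coe (a : ℝ) : (Sh a : T2 → T2) = S a := rfl

theorem preimage_X (a : ℝ) : S a ⁻¹' closure (Ws a) = closure (Ws a) := by
  have := (Sh a).preimage_closure (Ws a)
  rw [Sh_coe, image_ws] at this
  exact this

theorem image_compl_X (a : ℝ) : S a '' (closure (Ws a))ᶜ = (closure (Ws a))ᶜ := by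
  have h1 : S a ⁻¹' (closure (Ws a))ᶜ = (closure (Ws a))ᶜ := by
    rw [preimage_compl, preimage_X]
  conv_lhs => rw [← h1]
  exact image_preimage_eq _ (Sh a).surjective

theorem Si_image_compl_X (a : ℝ) (n : ℕ) :
    (Si a)^[n] '' (closure (Ws a))ᶜ = (closure (Ws a))ᶜ := by
  induction n with
  | zero => simp
  | succ n ih =>
    rw [Function.iterate_succ', image_comp, ih]
    conv_lhs => rw [← image_compl_X a]
    rw [image_image]
    simp [TH705.SM.Si_S]

/-- an open set disjoint from the closure of the stable set is small -/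
theorem small_of_disjoint {a : ℝ} (ha : 5 ≤ |a|) {A : Set T2} (hA : IsOpen A)
    (h : Disjoint A (closure (Ws a))) : Small a A := by
  by_contra hcon
  obtain ⟨x, hx, hx2⟩ := ws_of_not_small ha hA hcon
  exact disjoint_left.1 h hx (subset_closure hx2)

theorem wu_subset {a : ℝ} (ha : 5 ≤ |a|) : Wu a ⊆ closure (Ws a) := by
  rintro _ ⟨z, hz, rfl⟩
  by_contra hcon
  set A := (closure (Ws a))ᶜ with hA
  have hAo : IsOpen A := isClosed_closure.isOpen_compl
  have h1 : Small a A := small_of_disjoint ha hAo (disjoint_compl_left)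
  have h2 : (Prod.swap '' A ∩ Ws a).Nonempty :=
    ⟨z, ⟨Prod.swap z, hcon, Prod.swap_swap z⟩, hz⟩
  obtain ⟨N, hN⟩ := open_box ha (isOpen_swap hAo) h2
  have h3 := hN N le_rfl
  rw [image_swap_iter, Si_image_compl_X] at h3
  exact not_small_of_box ha h3 (small_swap h1)

/-- **the closures of the stable and of the unstable set coincide** -/
theorem closure_eq {a : ℝ} (ha : 5 ≤ |a|) : closure (Ws a) = closure (Wu a) := by
  have h1 : closure (Wu a) ⊆ closure (Ws a) := closure_minimal (wu_subset ha) isClosed_closure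
  refine Subset.antisymm ?_ h1
  have h2 : Prod.swap '' closure (Wu a) = closure (Ws a) := by
    have := (Homeomorph.prodComm UnitAddCircle UnitAddCircle).image_closure (Wu a)
    have e1 : ((Homeomorph.prodComm UnitAddCircle UnitAddCircle) : T2 → T2) = Prod.swap := rfl
    rw [e1] at this
    rw [this]
    unfold Wu
    rw [swap_swap_image]
  have h3 : Prod.swap '' closure (Ws a) = closure (Wu a) := by
    rw [← h2, swap_swap_image]
  rw [← h2, ← h3]
  exact image_mono (by rw [h3]; exact h1)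

/-- the open sets which meet `X` are mixed -/
theorem mix_meet {a : ℝ} (ha : 5 ≤ |a|) {U V : Set T2} (hU : IsOpen U) (hV : IsOpen V)
    (hU' : (U ∩ closure (Ws a)).Nonempty) (hV' : (V ∩ closure (Ws a)).Nonempty) :
    Mix a U V := by
  refine mix_of_box (by linarith) (open_box ha hU ?_) (open_box ha (isOpen_swap hV) ?_)
  · obtain ⟨x, hx, hx2⟩ := hU'
    exact mem_closure_iff.1 hx2 U hU hx
  · rw [closure_eq ha] at hV'
    obtain ⟨x, hx, hx2⟩ := hV'
    obtain ⟨_, hy, ⟨z, hz, rfl⟩⟩ := mem_closure_iff.1 hx2 V hV hx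
    exact ⟨z, ⟨Prod.swap z, hy, Prod.swap_swap z⟩, hz⟩

/-- explicit time for balls of radius `1 / (2 |a|)` -/
theorem ball_fwd {a : ℝ} (ha : 5 ≤ |a|) (z : T2) :
    FwdE (1 / |a|) (closedBall z (1 / (2 * |a|))) := by
  obtain ⟨p, rfl⟩ := pr_surj z
  have ha0 : 0 < |a| := by linarith
  have hr : 0 < 1 / (2 * |a|) := by positivity
  have e2 : 1 / |a| = 2 * (1 / (2 * |a|)) := by field_simp
  refine ⟨fun τ => (p.1 + τ, p.2), -(1 / (2 * |a|)), 1 / (2 * |a|), p.1 - 1 / (2 * |a|),
    by fun_prop, ⟨by linarith, Or.inl ⟨?_, ?_⟩, ?_⟩, ?_, ?_⟩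
  · simp only; ring
  · simp only; rw [e2]; ring
  · intro τ hτ
    simp only
    rw [e2]
    exact ⟨by linarith [hτ.1], by linarith [hτ.2]⟩
  · intro τ _ σ _
    simp only [sub_self, abs_zero]
    positivity
  · intro τ hτ
    rw [mem_closedBall, Prod.dist_eq]
    apply max_le
    · change dist ((p.1 + τ : ℝ) : UnitAddCircle) (p.1 : UnitAddCircle) ≤ _
      rw [dist_eq_norm, ← AddCircle.coe_sub, show p.1 + τ - p.1 = τ by ring]
      refine (QuotientAddGroup.norm_mk_le_norm).trans ?_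
      rw [Real.norm_eq_abs, abs_le]
      exact hτ
    · change dist (p.2 : UnitAddCircle) (p.2 : UnitAddCircle) ≤ _
      rw [dist_self]
      positivity

theorem swap_closedBall (z : T2) (r : ℝ) :
    Prod.swap '' closedBall z r = closedBall (Prod.swap z) r := by
  ext x
  constructor
  · rintro ⟨y, hy, rfl⟩
    rw [mem_closedBall, Prod.dist_eq] at hy ⊢
    rwa [max_comm]
  · intro hx
    refine ⟨Prod.swap x, ?_, Prod.swap_swap x⟩
    rw [mem_closedBall, Prod.dist_eq] at hx ⊢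
    rwa [max_comm]

theorem mix_balls {a : ℝ} (ha : 5 ≤ |a|) {m : ℕ} (hm : 2 * |a| ≤ 2 ^ (2 ^ m)) {n : ℕ}
    (hn : 2 * m + 4 ≤ n) (p q : T2) :
    ((S a)^[n] '' closedBall p (1 / (2 * |a|)) ∩ closedBall q (1 / (2 * |a|))).Nonempty := by
  have ha0 : 0 < |a| := by linarith
  have h1 : (1 / |a| : ℝ) ≤ 1 := by
    rw [div_le_one ha0]
    linarith
  have h2 : 1 ≤ |a| * (1 / |a|) := by rw [mul_one_div_cancel ha0.ne']
  obtain ⟨j, rfl⟩ := Nat.exists_eq_add_of_le hn
  rw [show 2 * m + 4 + j = (m + 2 + j) + (m + 2) by ring]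
  apply mix_time (by linarith)
  · exact box_explicit (by linarith) h1 h2 (ball_fwd ha p) hm (by omega)
  · rw [swap_closedBall]
    exact box_explicit (by linarith) h1 h2 (ball_fwd ha _) hm le_rfl

end Pool.Agent.H242.TM
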